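import Pool.Agent.Helper48.NS.Dvec
import Pool.Agent.Helper89.LX.Njd

/-! THEOREM COST for forms (R''): a label of information `p` over the canonical label of the window which carries a
bounding form has a form at most `2 ^ (2 e n)` times the canonical one, outside an event of probability `D p / e`. -/

set_option autoImplicit false

namespace Pool.Agent.Helper48.LIP

open Finset Filter Topology Matrix Pool.Agent.Helper69.RK Pool.Agent.Helper31.EC Pool.Agent.Helper40.EL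
open Pool.Agent.Helper89.LX Pool.Agent.Helper3.LF Pool.Agent.Helper48.NS
open Pool.Agent.Helper95.LF (PdM)

noncomputable section

section Mat

variable {ι : Type} [Fintype ι] [DecidableEq ι]

/-- a form which is not below `l A` dominates `l` times the square of a unit combination of `A` -/
theorem exists_cc {A A' : Matrix ι ι ℝ} (hA : A.IsSymm) (hp : ∀ v, v ≠ 0 → 0 < qf A v) (hA' : A'.IsSymm)
    (hp' : ∀ v, 0 ≤ qf A' v) {l : ℝ} (hl : 0 < l) (h : ¬ ∀ v, qf A' v ≤ l * qf A v) :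
    ∃ c, UnitC A c ∧ ∀ v, l * (c ⬝ᵥ v) ^ 2 ≤ qf A' v := by
  rw [not_forall] at h
  obtain ⟨v, hv⟩ := h
  rw [not_le] at hv
  have hv0 : v ≠ 0 := by
    intro h0
    rw [h0] at hv
    unfold qf at hv
    rw [Matrix.mulVec_zero, Matrix.mulVec_zero, dotProduct_zero] at hv
    linarith
  have hq0 := hp v hv0
  have hq : 0 < qf A' v := lt_trans (mul_pos hl hq0) hv
  set q := qf A' v with hqd
  have hs : 0 < Real.sqrt q := Real.sqrt_pos.mpr hq
  set a := (Real.sqrt q)⁻¹ with ha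
  have ha2 : a ^ 2 * q = 1 := by
    rw [ha, inv_pow, Real.sq_sqrt hq.le, inv_mul_cancel₀ hq.ne']
  have hqs : ∀ B : Matrix ι ι ℝ, qf B (a • v) = a ^ 2 * qf B v := by
    intro B
    unfold qf
    rw [Matrix.mulVec_smul, dotProduct_smul, smul_dotProduct, smul_eq_mul, smul_eq_mul]
    ring
  have e1 : qf A' (a • v) = 1 := by rw [hqs, ← hqd, ha2]
  have e2 : l * qf A (a • v) < 1 := by
    rw [hqs]
    have ha0 : 0 < a ^ 2 := by
      have : a ≠ 0 := inv_ne_zero hs.ne'
      positivity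
    nlinarith
  set u := A' *ᵥ (a • v) with hu
  have hcs := cs_one hA' hp' (a • v) e1
  have e3 : u ⬝ᵥ (a • v) = 1 := by
    rw [dotProduct_comm]
    exact e1
  have hu0 : u ≠ 0 := by
    intro h0
    rw [h0, zero_dotProduct] at e3
    norm_num at e3
  obtain ⟨b, hb0, hb⟩ := exists_unit hA hp u hu0
  refine ⟨b • u, hb, fun w => ?_⟩
  have e4 := hb.1 (a • v)
  rw [smul_dotProduct, e3, smul_eq_mul, mul_one] at e4
  have e5 : l * b ^ 2 ≤ 1 := by
    have := mul_le_mul_of_nonneg_left e4 hl.le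
    linarith
  rw [smul_dotProduct, smul_eq_mul, mul_pow, ← mul_assoc]
  have e6 := hcs w
  have e7 : l * b ^ 2 * (u ⬝ᵥ w) ^ 2 ≤ 1 * (u ⬝ᵥ w) ^ 2 := mul_le_mul_of_nonneg_right e5 (sq_nonneg _)
  linarith

open Classical in
/-- the coefficient vector of the comparison of two forms -/
def cof (A A' : Matrix ι ι ℝ) (l : ℝ) : ι → ℝ :=
  if h : ∃ c, UnitC A c ∧ ((¬ ∀ v, qf A' v ≤ l * qf A v) → ∀ v, l * (c ⬝ᵥ v) ^ 2 ≤ qf A' v) then
    h.choose else 0

theorem cof_spec [Nonempty ι] {A A' : Matrix ι ι ℝ} (hA : A.IsSymm) (hp : ∀ v, v ≠ 0 → 0 < qf A v)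
    (hA' : A'.IsSymm) (hp' : ∀ v, 0 ≤ qf A' v) {l : ℝ} (hl : 0 < l) :
    UnitC A (cof A A' l) ∧ ((¬ ∀ v, qf A' v ≤ l * qf A v) → ∀ v, l * (cof A A' l ⬝ᵥ v) ^ 2 ≤ qf A' v) := by
  classical
  have h : ∃ c, UnitC A c ∧ ((¬ ∀ v, qf A' v ≤ l * qf A v) → ∀ v, l * (c ⬝ᵥ v) ^ 2 ≤ qf A' v) := by
    by_cases h0 : ∀ v, qf A' v ≤ l * qf A v
    · obtain ⟨i⟩ := ‹Nonempty ι›
      obtain ⟨a, _, ha⟩ := exists_unit hA hp (Pi.single i 1) (by
        intro h1
        have := congrFun h1 i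
        rw [Pi.single_eq_same] at this
        norm_num at this)
      exact ⟨_, ha, fun h => absurd h0 h⟩
    · obtain ⟨c, hc, hc'⟩ := exists_cc hA hp hA' hp' hl h0
      exact ⟨c, hc, fun _ => hc'⟩
  unfold cof
  rw [dif_pos h]
  exact h.choose_spec

end Mat

/-- a partition of an extension of the space of a label, as a label of the space over the label -/
def ovl {F : FSp} (l : FLab F) {T' : FSp} (r : FPj T' l.T) (hn : T'.n = l.T.n) (V' : Setoid T'.Ω) :
    FLab (l.ovr 1 one_pos) where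
  T := T'.chg (Setoid.comap r.π l.V) 1 one_pos
  p :=
    { π := r.π
      law := r.law
      hZ := fun ω ω' h h' => by
        constructor
        · intro h1
          exact ⟨h1.1, (r.hZ ω ω' h h').mp h1.2⟩
        · intro h1
          exact ⟨h1.1, (r.hZ ω ω' h h').mpr h1.2⟩ }
  hn := by
    show 1 * T'.n = 1 * l.T.n
    rw [hn]
  V := V'

theorem ovl_leak {F : FSp} (l : FLab F) {T' : FSp} (r : FPj T' l.T) (hn : T'.n = l.T.n) (V' : Setoid T'.Ω)
    (x : FL l.T) : (ovl l r hn V').leak ((frb l.T l.V 1 one_pos).map x) = I (fc V') r.top (r.map (x ⊔ l.v)) := by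
  have h1 : (ovl l r hn V').leak ((frb l.T l.V 1 one_pos).map x) =
      I ((frb T' (Setoid.comap r.π l.V) 1 one_pos).map (fc V')) ((frb T' (Setoid.comap r.π l.V) 1 one_pos).map r.top)
        ((frb T' (Setoid.comap r.π l.V) 1 one_pos).map (r.map x)) := by
    induction x using fc_ind
    rfl
  rw [h1, FRb.I_map, r.map_sup]
  rfl

theorem ovl_info {F : FSp} (l : FLab F) {T' : FSp} (r : FPj T' l.T) (hn : T'.n = l.T.n) (V' : Setoid T'.Ω) :
    (ovl l r hn V').info = I (fc V') r.top (r.map l.v) := by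
  rw [← FLab.leak_bot]
  have h1 := ovl_leak l r hn V' ⊥
  rw [(frb l.T l.V 1 one_pos).map_bot, bot_sup_eq] at h1
  exact h1

section R2

variable {S : Sp} {m D : ℕ} (s : Sys S m)

/-- (R'') -/
theorem r2 (hD : 1 ≤ D) {c : ℝ} (h0 : 0 ≤ c) (h1 : c < 1) {x : ∀ k, FD (S.F k) (Mon (m + 1) D)}
    (hx : IsCan s D c x) (T' : ℕ → FSp) (r : ∀ k, FPj (T' k) (x k).l.T) (hn : ∀ k, (T' k).n = (x k).l.T.n)
    (V' : ∀ k, Setoid (T' k).Ω) (g : ∀ k, (T' k).Ω → Matrix (Mon (m + 1) D) (Mon (m + 1) D) ℝ)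
    (meas : ∀ k ω ω', (T' k).μ ω ≠ 0 → (T' k).μ ω' ≠ 0 → V' k ω ω' → (x k).l.V ((r k).π ω) ((r k).π ω') →
      (T' k).Z ω ω' → g k ω = g k ω')
    (hg : ∀ᶠ k in UF, ∀ ω, (T' k).μ ω ≠ 0 → (g k ω).IsSymm ∧ ∀ v, 0 ≤ qf (g k ω) v) (b e : ℝ) (he : 0 < e)
    (he1 : e ≤ D * (1 - c))
    (hb : ∀ η : ℝ, 0 < η → ∀ᶠ k in UF, (T' k).pb (fun ω => ¬ sph s D k ((x k).l.p.π ((r k).π ω)) (g k ω) ≤
      2 ^ ((2 * b + η) * (S.F k).n)) ≤ η)
    (hU : UB (fun k => I (fc (V' k)) (r k).top ((r k).map (x k).l.v) / (S.F k).n)) :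
    e * ul (fun k => (T' k).pb (fun ω => ¬ ∀ v, qf (g k ω) v ≤
      2 ^ (2 * (e + b) * (S.F k).n) * qf ((x k).g ((r k).π ω)) v)) ≤
      D * ul (fun k => I (fc (V' k)) (r k).top ((r k).map (x k).l.v) / (S.F k).n) := by
  classical
  -- the label with coefficient
  set lam : ℕ → ℝ := fun k => 2 ^ (2 * (e + b) * (S.F k).n) with hlam
  have hlam0 : ∀ k, 0 < lam k := fun k => by positivity
  set cf : ∀ k, (T' k).Ω → (Mon (m + 1) D → ℝ) := fun k ω => cof ((x k).g ((r k).π ω)) (g k ω) (lam k) with hcf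
  set y : ∀ k, CL ((Ov x).F k) (Mon (m + 1) D → ℝ) := fun k =>
    { l := ovl (x k).l (r k) (hn k) (V' k)
      c := cf k
      meas := fun ω ω' h h' hV hZ => by
        have a1 : (x k).l.V ((r k).π ω) ((r k).π ω') := hZ.1
        have a2 : (T' k).Z ω ω' := hZ.2
        have a3 := meas k ω ω' h h' hV a1 a2
        have a4 := ((x k).meas _ _ ((r k).supp ω h) ((r k).supp ω' h') a1 (((r k).hZ ω ω' h h').mp a2)).1
        rw [hcf]
        simp only
        rw [a3, a4] } with hy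
  have hcpd : ∀ᶠ k in UF, ∀ ω, (x k).l.T.μ ω ≠ 0 → Cpd ((gau s D).cp k) ((x k).g ω) := by
    filter_upwards [hx.1.1 1 one_pos] with k hk ω hω
    exact (hk.2.2.1 ω hω).1
  have : Nonempty (Mon (m + 1) D) := ⟨⟨fun _ => 0, by simp⟩⟩
  have hspec : ∀ᶠ k in UF, ∀ ω, (T' k).μ ω ≠ 0 → UnitC ((x k).g ((r k).π ω)) (cf k ω) ∧
      ((¬ ∀ v, qf (g k ω) v ≤ lam k * qf ((x k).g ((r k).π ω)) v) →
        ∀ v, lam k * (cf k ω ⬝ᵥ v) ^ 2 ≤ qf (g k ω) v) := by
    filter_upwards [hcpd, hg] with k hk hk2 ω hω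
    have hc := hk _ ((r k).supp ω hω)
    exact cof_spec hc.1 (fun v hv => hc.pd hv) (hk2 ω hω).1 (hk2 ω hω).2 (hlam0 k)
  have hgood : ∀ᶠ k in UF, (y k).Good (GdC x k) := by
    filter_upwards [hspec] with k hk ω hω
    exact (hk ω hω).1
  have hinfo : ∀ k, (y k).l.info / ((Ov x).F k).n = I (fc (V' k)) (r k).top ((r k).map (x k).l.v) / (S.F k).n := by
    intro k
    rw [Ov_n]
    congr 1
    exact ovl_info (x k).l (r k) (hn k) (V' k)
  have hU' : UB (fun k => (y k).l.info / ((Ov x).F k).n) := by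
    have e1 : (fun k => (y k).l.info / ((Ov x).F k).n) =
        fun k => I (fc (V' k)) (r k).top ((r k).map (x k).l.v) / (S.F k).n := funext hinfo
    rw [e1]
    exact hU
  have hcost := cost_sys s hD h0 h1 e he.le he1 hx y hgood hU'
  have e1 : (fun k => (y k).l.info / ((Ov x).F k).n) =
      fun k => I (fc (V' k)) (r k).top ((r k).map (x k).l.v) / (S.F k).n := funext hinfo
  rw [e1] at hcost
  refine le_trans ?_ hcost
  set bad : ∀ k, (T' k).Ω → Prop := fun k ω => ¬ ∀ v, qf (g k ω) v ≤ lam k * qf ((x k).g ((r k).π ω)) v with hbad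
  have hUb : UB (fun k => (T' k).pb (bad k)) :=
    UB_of_nonneg_le (C := 1) (Eventually.of_forall fun k => FSp.pb_nonneg _ _)
      (Eventually.of_forall fun k => FSp.pb_le_one _ _)
  have hUE : UB (fun k => (y k).E (fex (gau s D) x e k)) := by
    apply UB_of_nonneg_le (C := e)
    · exact Eventually.of_forall fun k => (y k).E_nonneg _ (fun ω c => ex_nonneg (S.F k).pos he.le)
    · exact Eventually.of_forall fun k => (y k).E_le _ _ (fun ω c => ex_le (S.F k).pos)
  -- the inequality up to `η`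
  have hmain : ∀ η : ℝ, 0 < η → η < 2 * e → (e - η / 2) * (ul (fun k => (T' k).pb (bad k)) - η) ≤
      ul (fun k => (y k).E (fex (gau s D) x e k)) := by
    intro η hη hηe
    have hUb2 : UB (fun k => (e - η / 2) * ((T' k).pb (bad k) - η)) := (hUb.sub (UB_const η)).const_mul _
    have e2 : (e - η / 2) * (ul (fun k => (T' k).pb (bad k)) - η) = ul (fun k => (e - η / 2) * ((T' k).pb (bad k) - η)) := by
      rw [ul_const_mul _ (hUb.sub (UB_const η)), ul_sub hUb (UB_const η), ul_const]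
    rw [e2]
    apply ul_mono hUb2 hUE
    filter_upwards [hspec, hb η hη] with k hk hbk
    have hnk := (S.F k).pos
    set exc : (T' k).Ω → Prop := fun ω => ¬ sph s D k ((x k).l.p.π ((r k).π ω)) (g k ω) ≤
      2 ^ ((2 * b + η) * (S.F k).n) with hexc
    have h2 := CL.E_ge (y k) (fex (gau s D) x e k) (fun ω => ¬ (bad k ω ∧ ¬ exc ω)) (e - η / 2)
      (fun ω c => ex_nonneg hnk he.le) (by
        intro ω hω hB
        rw [not_not] at hB
        obtain ⟨hB1, hB2⟩ := hB
        rw [hexc] at hB2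
        simp only [not_not] at hB2
        have h3 := (hk ω hω).2 hB1
        show e - η / 2 ≤ ex (S.F k).n e (sph s D k ((x k).l.p.π ((r k).π ω)) (cc (cf k ω)))
        have h4 : sph s D k ((x k).l.p.π ((r k).π ω)) (cc (cf k ω)) ≤
            (lam k)⁻¹ * sph s D k ((x k).l.p.π ((r k).π ω)) (g k ω) := by
          apply sph_mono s D k
          intro v
          rw [qf_cc]
          have h5 := mul_le_mul_of_nonneg_left (h3 v) (inv_pos.mpr (hlam0 k)).le
          rw [← mul_assoc, inv_mul_cancel₀ (hlam0 k).ne', one_mul] at h5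
          exact h5
        have h6 : sph s D k ((x k).l.p.π ((r k).π ω)) (cc (cf k ω)) ≤ 2 ^ (-(2 * (e - η / 2) * (S.F k).n)) := by
          refine h4.trans ((mul_le_mul_of_nonneg_left hB2 (inv_pos.mpr (hlam0 k)).le).trans (le_of_eq ?_))
          rw [hlam]
          simp only
          rw [← Real.rpow_neg (by norm_num), ← Real.rpow_add (by norm_num)]
          congr 1
          ring
        refine le_trans ?_ (ex_ge hnk h6)
        exact le_min le_rfl (by linarith))
    refine le_trans ?_ h2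
    apply mul_le_mul_of_nonneg_left _ (by linarith)
    have h7 := (T' k).pb_add_compl (fun ω => bad k ω ∧ ¬ exc ω)
    have h8 : (y k).l.T.pb (fun ω => ¬ (bad k ω ∧ ¬ exc ω)) = (T' k).pb (fun ω => ¬ (bad k ω ∧ ¬ exc ω)) := rfl
    rw [h8]
    have h9 : (T' k).pb (bad k) ≤ (T' k).pb (fun ω => (bad k ω ∧ ¬ exc ω) ∨ exc ω) := by
      apply FSp.pb_mono
      intro ω _ hω
      by_cases h : exc ω
      · exact Or.inr h
      · exact Or.inl ⟨hω, h⟩
    have h10 := pb_or (T' k) (fun ω => bad k ω ∧ ¬ exc ω) exc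
    linarith
  -- the limit `η → 0`
  have hlim : Tendsto (fun η : ℝ => (e - η / 2) * (ul (fun k => (T' k).pb (bad k)) - η)) (𝓝[>] 0)
      (𝓝 ((e - 0 / 2) * (ul (fun k => (T' k).pb (bad k)) - 0))) := by
    apply Tendsto.mono_left _ nhdsWithin_le_nhds
    apply Continuous.tendsto
    fun_prop
  rw [zero_div, sub_zero, sub_zero] at hlim
  apply le_of_tendsto hlim
  have h11 : ∀ᶠ η : ℝ in 𝓝[>] 0, η < 2 * e := by
    apply mem_nhdsWithin_of_mem_nhds
    exact gt_mem_nhds (by linarith)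
  filter_upwards [h11, self_mem_nhdsWithin] with η h12 h13
  exact hmain η h13 h12

end R2

end

end Pool.Agent.Helper48.LIP
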