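import Pool.Agent.Helper48.LIP.Zvf
import Pool.Agent.Helper39.LIP.St

/-! LIP(A), ROW ZVEL: two points with the same form and the same cell of `(P, t)`; the velocity in the direction of a
large derivative is determined by the other velocities up to `2 ^ (-(1 - c) n)`. Versions: the form of the point itself
(window `c₀`, no loss), the form of the first copy at the third point (window `c`, loss `2 ^ (D (c₀ - c) n)`). -/

set_option autoImplicit false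

namespace Pool.Agent.Helper48.LIP

open Finset Filter Topology Matrix Pool.Agent.Helper69.RK Pool.Agent.Helper31.EC Pool.Agent.Helper31.EC.Sp
open Pool.Agent.Helper40.EL
open Pool.Agent.Helper95.LF Pool.Agent.Helper3.LF Pool.Agent.Helper89.LX Pool.Agent.Helper3.SG

noncomputable section

variable {S : Sp} {m D : ℕ} (s : Sys S m)

/-- the point up to the last digit: closeness -/
theorem pt_cell (k : ℕ) (ω ω' : (S.F k).Ω) (hP : (s.fin k).kP 1 ω' ω) (ht : (s.fin k).kt 1 ω' ω) (j : Fin (m + 1)) :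
    |ptf s k ω' j - ptf s k ω j| ≤ S.dl 1 k := by
  refine Fin.cases ?_ (fun j => ?_) j
  · exact s.t.cellv_close 1 k _ _ ht 0
  · have h1 := s.P.cellv_close 1 k _ _ hP j
    have h2 : ∀ ω, ptf s k ω j.succ = s.P.v k ω j := fun ω => rfl
    rw [h2, h2]
    exact h1

/-- ZVEL for forms on an extension -/
theorem zvel_ev (T : ℕ → FSp) (p : ∀ k, FPj (T k) (S.F k))
    (A : ∀ k, (T k).Ω → Matrix (Mon (m + 1) D) (Mon (m + 1) D) ℝ)
    (hA : ∀ᶠ k in UF, ∀ ω, (T k).μ ω ≠ 0 → PdM (A k ω)) (i : Fin m) (c β : ℝ)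
    (hφ : ∀ e : ℝ, 0 < e → Tendsto (fun k => (T k).pb (fun ω => ¬ ∀ u, |u - s.t.v k ((p k).π ω) 0| ≤ S.dl c k →
      phi (S.dl 1 k) (A k ω) (pl (s.a.v k ((p k).π ω)) (s.x.v k ((p k).π ω)) u) ≤
        2 ^ (2 * (β + e) * (S.F k).n))) UF (𝓝 0))
    (hg : ∀ e : ℝ, 0 < e → Tendsto (fun k => (T k).pb (fun ω => ¬ 2 ^ (2 * (1 - e) * (S.F k).n) ≤
      gami i.succ (S.dl 1 k) (A k ω) (ptf s k ((p k).π ω)))) UF (𝓝 0))
    (e : ℝ) (he : 0 < e) :
    ∃ G : ∀ k, (T k).Ω → Prop, Tendsto (fun k => (T k).pb (fun ω => ¬ G k ω)) UF (𝓝 0) ∧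
      ∀ᶠ k in UF, ∀ ω ω', (T k).μ ω ≠ 0 → (T k).μ ω' ≠ 0 → G k ω → G k ω' → A k ω = A k ω' →
      (s.fin k).kP 1 ((p k).π ω) ((p k).π ω') → (s.fin k).kt 1 ((p k).π ω) ((p k).π ω') →
      (s.x.v k ((p k).π ω) i - s.x.v k ((p k).π ω') i) ^ 2 ≤ 2 ^ (2 * (β + e) * (S.F k).n) *
        (2 ^ (-(2 * (1 - c) * (S.F k).n)) +
          ∑ j ∈ Finset.univ.erase i, (s.x.v k ((p k).π ω) j - s.x.v k ((p k).π ω') j) ^ 2) := by
  have he3 : 0 < e / 3 := by linarith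
  refine ⟨fun k ω => (∀ u, |u - s.t.v k ((p k).π ω) 0| ≤ S.dl c k →
      phi (S.dl 1 k) (A k ω) (pl (s.a.v k ((p k).π ω)) (s.x.v k ((p k).π ω)) u) ≤
        2 ^ (2 * (β + e / 3) * (S.F k).n)) ∧ 2 ^ (2 * (1 - e / 3) * (S.F k).n) ≤
      gami i.succ (S.dl 1 k) (A k ω) (ptf s k ((p k).π ω)), ?_, ?_⟩
  · have hsum := (hφ _ he3).add (hg _ he3)
    rw [add_zero] at hsum
    refine tendsto_of_tendsto_of_tendsto_of_le_of_le' tendsto_const_nhds hsum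
      (Eventually.of_forall fun k => FSp.pb_nonneg _ _) (Eventually.of_forall fun k => ?_)
    refine le_trans (FSp.pb_mono _ ?_) (pb_or _ _ _)
    intro ω _ h
    exact not_and_or.mp h
  · have hC := (S.Sub_const (Czv_nonneg m D)).eventually_le (show 0 < 2 * (e / 3) by linarith)
    filter_upwards [hA, hC] with k hAk hCk ω ω' hω hω' hG hG' hAe hP ht
    have hn := (S.F k).pos
    obtain ⟨h1, h2⟩ := hG
    obtain ⟨h3, -⟩ := hG'
    rw [← hAe] at h3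
    have hmain := zvel_fin (hAk ω hω) i (s.a.v k ((p k).π ω)) (s.x.v k ((p k).π ω)) (s.a.v k ((p k).π ω'))
      (s.x.v k ((p k).π ω')) (s.t.v k ((p k).π ω) 0) (s.t.v k ((p k).π ω') 0) (S.dl 1 k) (S.dl c k)
      (2 ^ (2 * (β + e / 3) * (S.F k).n)) (2 ^ (2 * (1 - e / 3) * (S.F k).n)) (S.dl_pos 1 k) (S.dl_pos c k)
      (by positivity) h1 h3 (fun j => pt_cell s k _ _ ((s.fin k).kP 1 |>.symm hP) ((s.fin k).kt 1 |>.symm ht) j) h2
    set X := s.x.v k ((p k).π ω) i - s.x.v k ((p k).π ω') i with hX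
    set Q := ∑ j ∈ Finset.univ.erase i, (s.x.v k ((p k).π ω) j - s.x.v k ((p k).π ω') j) ^ 2 with hQ
    have hQ0 : 0 ≤ Q := Finset.sum_nonneg fun _ _ => sq_nonneg _
    set n := (S.F k).n with hnd
    have e1 : (S.dl c k)⁻¹ ^ 2 = 2 ^ (2 * c * n) := by
      unfold Sp.dl
      rw [Real.rpow_neg (by norm_num), inv_inv, ← Real.rpow_natCast, ← Real.rpow_mul (by norm_num)]
      congr 1
      push_cast
      ring
    have e2 : (S.dl 1 k)⁻¹ ^ 2 = 2 ^ (2 * n) := by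
      unfold Sp.dl
      rw [Real.rpow_neg (by norm_num), inv_inv, ← Real.rpow_natCast, ← Real.rpow_mul (by norm_num)]
      congr 1
      push_cast
      ring
    rw [e1, e2] at hmain
    have e3 : (2 : ℝ) ^ (2 * (1 - e / 3) * n) * (2 ^ (-(2 * (1 - e / 3) * n))) = 1 := by
      rw [← Real.rpow_add (by norm_num)]
      simp
    have e4 : X ^ 2 = X ^ 2 * 2 ^ (2 * (1 - e / 3) * n) * 2 ^ (-(2 * (1 - e / 3) * n)) := by
      rw [mul_assoc, e3, mul_one]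
    have e5 : X ^ 2 ≤ Czv m D * 2 ^ (2 * (β + e / 3) * n) * (2 ^ (2 * c * n) + 2 ^ (2 * n) * Q) *
        2 ^ (-(2 * (1 - e / 3) * n)) := by
      rw [e4]
      exact mul_le_mul_of_nonneg_right hmain (by positivity)
    have e6 : Czv m D ≤ 2 ^ (2 * (e / 3) * n) := by
      have := Czv_nonneg m D
      linarith
    refine e5.trans ?_
    have e7 : Czv m D * 2 ^ (2 * (β + e / 3) * n) * (2 ^ (2 * c * n) + 2 ^ (2 * n) * Q) *
        2 ^ (-(2 * (1 - e / 3) * n)) ≤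
        2 ^ (2 * (e / 3) * n) * (2 ^ (2 * (β + e / 3) * n) * (2 ^ (2 * c * n) + 2 ^ (2 * n) * Q) *
        2 ^ (-(2 * (1 - e / 3) * n))) := by
      rw [mul_assoc, mul_assoc, ← mul_assoc ((2 : ℝ) ^ (2 * (β + e / 3) * n))]
      exact mul_le_mul_of_nonneg_right e6 (by positivity)
    refine e7.trans (le_of_eq ?_)
    have e8 : (2 : ℝ) ^ (2 * c * n) = 2 ^ (2 * n) * 2 ^ (-(2 * (1 - c) * n)) := by
      rw [← Real.rpow_add (by norm_num)]
      congr 1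
      ring
    have e9 : (2 : ℝ) ^ (2 * (β + e) * n) = 2 ^ (2 * (e / 3) * n) * 2 ^ (2 * (β + e / 3) * n) * 2 ^ (2 * n) *
        2 ^ (-(2 * (1 - e / 3) * n)) := by
      rw [← Real.rpow_add (by norm_num), ← Real.rpow_add (by norm_num), ← Real.rpow_add (by norm_num)]
      congr 1
      ring
    rw [e8, e9]
    ring

/-- the same in an extension of the extension -/
theorem zvel_ext {T : ℕ → FSp} {p : ∀ k, FPj (T k) (S.F k)} {A : ∀ k, (T k).Ω → Matrix (Mon (m + 1) D) (Mon (m + 1) D) ℝ}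
    {i : Fin m} {c β e : ℝ}
    (h : ∃ G : ∀ k, (T k).Ω → Prop, Tendsto (fun k => (T k).pb (fun ω => ¬ G k ω)) UF (𝓝 0) ∧
      ∀ᶠ k in UF, ∀ ω ω', (T k).μ ω ≠ 0 → (T k).μ ω' ≠ 0 → G k ω → G k ω' → A k ω = A k ω' →
      (s.fin k).kP 1 ((p k).π ω) ((p k).π ω') → (s.fin k).kt 1 ((p k).π ω) ((p k).π ω') →
      (s.x.v k ((p k).π ω) i - s.x.v k ((p k).π ω') i) ^ 2 ≤ 2 ^ (2 * (β + e) * (S.F k).n) *
        (2 ^ (-(2 * (1 - c) * (S.F k).n)) +
          ∑ j ∈ Finset.univ.erase i, (s.x.v k ((p k).π ω) j - s.x.v k ((p k).π ω') j) ^ 2))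
    {T' : ℕ → FSp} (r : ∀ k, FPj (T' k) (T k)) :
    ∃ G : ∀ k, (T' k).Ω → Prop, Tendsto (fun k => (T' k).pb (fun ω => ¬ G k ω)) UF (𝓝 0) ∧
      ∀ᶠ k in UF, ∀ ω ω', (T' k).μ ω ≠ 0 → (T' k).μ ω' ≠ 0 → G k ω → G k ω' →
      A k ((r k).π ω) = A k ((r k).π ω') →
      (s.fin k).kP 1 ((p k).π ((r k).π ω)) ((p k).π ((r k).π ω')) →
      (s.fin k).kt 1 ((p k).π ((r k).π ω)) ((p k).π ((r k).π ω')) →
      (s.x.v k ((p k).π ((r k).π ω)) i - s.x.v k ((p k).π ((r k).π ω')) i) ^ 2 ≤ 2 ^ (2 * (β + e) * (S.F k).n) *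
        (2 ^ (-(2 * (1 - c) * (S.F k).n)) +
          ∑ j ∈ Finset.univ.erase i, (s.x.v k ((p k).π ((r k).π ω)) j - s.x.v k ((p k).π ((r k).π ω')) j) ^ 2) := by
  obtain ⟨G, hG, hk⟩ := h
  refine ⟨fun k ω => G k ((r k).π ω), ?_, ?_⟩
  · refine hG.congr fun k => ?_
    exact (pb_push (r k) (fun ω => ¬ G k ω)).symm
  · filter_upwards [hk] with k hk ω ω' h1 h2 h3 h4 h5
    exact hk _ _ ((r k).supp ω h1) ((r k).supp ω' h2) h3 h4 h5

/-! ### the form of the point itself -/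

/-- typically large derivative in the direction `i` -/
def Hz (i : Fin m) (x : ∀ k, FD (S.F k) (Mon (m + 1) D)) : Prop :=
  ∀ e : ℝ, 0 < e → Tendsto (fun k => (x k).l.T.pb (fun ω => ¬ 2 ^ (2 * (1 - e) * (S.F k).n) ≤
    gami i.succ (S.dl 1 k) ((x k).g ω) (ptf s k ((x k).l.p.π ω)))) UF (𝓝 0)

/-- pointwise version -/
theorem Hz_of_pt (i : Fin m) {x : ∀ k, FD (S.F k) (Mon (m + 1) D)}
    (hA : ∀ᶠ k in UF, ∀ ω, (x k).l.T.μ ω ≠ 0 → PdM ((x k).g ω))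
    (h : ∀ e : ℝ, 0 < e → Tendsto (fun k => (x k).l.T.pb (fun ω => ¬ 2 ^ (2 * (1 - e) * (S.F k).n) ≤
      qf ((x k).g ω) (dd i.succ (ptf s k ((x k).l.p.π ω))))) UF (𝓝 0)) : Hz s i x := by
  intro e he
  refine tendsto_of_tendsto_of_tendsto_of_le_of_le' tendsto_const_nhds (h e he)
    (Eventually.of_forall fun k => FSp.pb_nonneg _ _) ?_
  filter_upwards [hA] with k hk
  apply FSp.pb_mono
  intro ω hω h1 h2
  exact h1 (h2.trans (qf_dd_le i.succ (S.dl 1 k) (fun v => (hk ω hω).nonneg v) _))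

/-- forms of labels of the window are bounded along the line in the window -/
theorem own_win {c : ℝ} (h0 : 0 ≤ c) (h1 : c < 1) {x : ∀ k, FD (S.F k) (Mon (m + 1) D)}
    (hx : (gau s D).Ad (cA s c) (cB s) x) (e : ℝ) (he : 0 < e) :
    Tendsto (fun k => (x k).l.T.pb (fun ω => ¬ ∀ u, |u - s.t.v k ((x k).l.p.π ω) 0| ≤ S.dl c k →
      phi (S.dl 1 k) ((x k).g ω) (pl (s.a.v k ((x k).l.p.π ω)) (s.x.v k ((x k).l.p.π ω)) u) ≤
        2 ^ (2 * (0 + e) * (S.F k).n))) UF (𝓝 0) := by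
  have hdm : (lb x).DM (cA s c) (cB s) := Gau.Ad.dm (gau s D) hx
  have h2 := Pool.Agent.Helper93.LIP.line_bd (Fac.refl s) h0 h1 (l := lb x) hdm.1 (fun k => (x k).g)
    (by filter_upwards [hx 1 one_pos] with k hk ω hω using (hk.2.2.1 ω hω).1.pdM)
    (Eventually.of_forall fun k ω ω' a b c d => ((x k).meas ω ω' a b c d).1)
    (fun e he => by filter_upwards [hx e he] with k hk using hk.2.2.2.1)
    (fun _ => 1) (S.Sub_const zero_le_one) (2 * e) (by linarith)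
  refine h2.congr fun k => ?_
  congr 1
  funext ω
  rw [one_mul, zero_add]
  rfl

/-- ZVEL, own form -/
theorem zvel_own {c : ℝ} (h0 : 0 ≤ c) (h1 : c < 1) {x : ∀ k, FD (S.F k) (Mon (m + 1) D)}
    (hx : (gau s D).Ad (cA s c) (cB s) x) (i : Fin m) (hz : Hz s i x) (e : ℝ) (he : 0 < e) :
    ∃ G : ∀ k, (x k).l.T.Ω → Prop, Tendsto (fun k => (x k).l.T.pb (fun ω => ¬ G k ω)) UF (𝓝 0) ∧
      ∀ᶠ k in UF, ∀ ω ω', (x k).l.T.μ ω ≠ 0 → (x k).l.T.μ ω' ≠ 0 → G k ω → G k ω' → (x k).g ω = (x k).g ω' →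
      (s.fin k).kP 1 ((x k).l.p.π ω) ((x k).l.p.π ω') → (s.fin k).kt 1 ((x k).l.p.π ω) ((x k).l.p.π ω') →
      (s.x.v k ((x k).l.p.π ω) i - s.x.v k ((x k).l.p.π ω') i) ^ 2 ≤ 2 ^ (2 * (0 + e) * (S.F k).n) *
        (2 ^ (-(2 * (1 - c) * (S.F k).n)) +
          ∑ j ∈ Finset.univ.erase i, (s.x.v k ((x k).l.p.π ω) j - s.x.v k ((x k).l.p.π ω') j) ^ 2) :=
  zvel_ev s (fun k => (x k).l.T) (fun k => (x k).l.p) (fun k => (x k).g)
    (by filter_upwards [hx 1 one_pos] with k hk ω hω using (hk.2.2.1 ω hω).1.pdM) i c 0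
    (fun e he => own_win s h0 h1 hx e he) hz e he

/-! ### the form of the first copy at the third point -/

/-- Remez inequality for the derivative in the direction `i`, labels without leak at the condition of the window -/
theorem win_gami {c : ℝ} (h0 : 0 ≤ c) (h1 : c < 1) {l : Lab S} (hl : Nul S (fun k => (l k).leak (cA s c k)))
    (i : Fin (m + 1)) (A : ∀ k, (l k).T.Ω → Matrix (Mon (m + 1) D) (Mon (m + 1) D) ℝ)
    (hA : ∀ᶠ k in UF, ∀ ω, (l k).T.μ ω ≠ 0 → PdM (A k ω))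
    (hV : ∀ᶠ k in UF, ∀ ω ω', (l k).T.μ ω ≠ 0 → (l k).T.μ ω' ≠ 0 → (l k).V ω ω' → (l k).T.Z ω ω' → A k ω = A k ω')
    (L : ℕ → ℝ) (hL : S.Sub L) :
    ∃ K' : ℕ → ℝ, S.Sub K' ∧ Sp.Typ (S := l.sp) (fun k (ω : (l k).T.Ω) =>
      ∀ r, |r - s.t.v k ((l k).p.π ω) 0| ≤ L k * S.dl c k →
      gami i (S.dl 1 k) (A k ω) (pl (s.a.v k ((l k).p.π ω)) (s.x.v k ((l k).p.π ω)) r) ≤
        K' k * gami i (S.dl 1 k) (A k ω) (ptf s k ((l k).p.π ω))) := by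
  have hc1 := nn_one (m + 1) D
  have hc2 := Cm_one (m + 1) D
  have hc3 := Cu_one D
  obtain ⟨K', hK', hT⟩ := gen_rem (S := l.sp) (D' := 2 * D) (gami i) (nn (m + 1) D * (Cu D * Cm (m + 1) D) ^ 2)
    (2 * D) (by positivity) (fun r A p hA => gami_nonneg i r hA.nonneg p)
    (fun r A hA a x => gami_line i r A hA a x) (by
      intro A hA r K hr hK p p' hp
      have h1 := gami_comp i A hA r r K hr hr.le hK p p' hp
      calc _ ≤ _ := h1
        _ = _ := by rw [mul_pow (Cu D * Cm (m + 1) D) (K ^ D), ← pow_mul, mul_comm D 2]; ring)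
    (l.pj.vv s.a) (l.pj.vv s.x) (l.pj.vv s.t) c 1 h0 h1 (wB s c l) A
    hA (fun _ => 1) (l.sp.Sub_const zero_le_one) (by
      filter_upwards [hV] with k hk ω ω' a a' e z
      exact ⟨hk ω' ω a' a e.1 z, wB_close k ω ω' e⟩)
    (Pool.Agent.Helper93.LIP.fac_ent (Fac.refl s) h0 h1.le hl) 0 le_rfl L ((sp_Sub l).mpr hL)
  refine ⟨K', (sp_Sub l).mp hK', ?_⟩
  refine squeeze_zero' (Eventually.of_forall fun k => Sp.mass_res_nonneg (S := l.sp) k _) ?_ hT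
  refine Eventually.of_forall fun k => ?_
  apply mass_res_mono _ _ _ (l.sp.F k).nn
  intro ω hω hE hcon
  apply hE
  intro r hr
  have h2 := hcon r (by
    rw [sp_dl, sub_zero]
    exact hr)
  rw [sp_dl, sp_n, mul_zero, zero_mul, Real.rpow_zero, mul_one] at h2
  exact h2

/-- the form of the first point is bounded along the line of the second point in the whole window -/
theorem far_win {c₀ c' : ℝ} (h0 : 0 ≤ c₀) (h1 : c₀ < 1) {X : ∀ k, FD (S.F k) (Mon (m + 1) D)}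
    (hX : (gau s D).Ad (cA s c₀) (cB s) X) (K : ∀ k, Setoid (X k).l.T.Ω) (hc' : 0 ≤ c') (hc : c' ≤ c₀)
    (η : ℝ) (hη : 0 < η) :
    ∀ᶠ k in UF, (pam (X k).l (K k) (cAs s c' k)).sp.pb
      (fun w => ¬ ∀ u, |u - s.t.v k ((X k).l.p.π w.2) 0| ≤ S.dl c' k →
        phi (S.dl 1 k) ((X k).g w.1) (pl (s.a.v k ((X k).l.p.π w.2)) (s.x.v k ((X k).l.p.π w.2)) u) ≤
        2 ^ (((2 * D : ℕ) * (c₀ - c') + η) * (S.F k).n)) ≤ η := by
  have hDM : DMc s c₀ (lb X) := Gau.Ad.dm (gau s D) hX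
  have hcpd : ∀ᶠ k in UF, ∀ ω, (X k).l.T.μ ω ≠ 0 → Cpd ((gau s D).cp k) ((X k).g ω) := by
    filter_upwards [hX 1 one_pos] with k hk ω hω
    exact (hk.2.2.1 ω hω).1
  obtain ⟨K1, hK1, hT1⟩ := win_phi (s := s) h0 h1 (l := lb X) hDM (fun k => (X k).g)
    (by filter_upwards [hcpd] with k hk ω hω using (hk ω hω).pdM)
    (Eventually.of_forall fun k ω ω' a b c d => ((X k).meas ω ω' a b c d).1)
    (c₀ - c') (by linarith) (fun _ => 2) (S.Sub_const zero_le_two)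
  obtain ⟨K2, hK2, hT2⟩ := ad_sub hX
  obtain ⟨Kt, hKt, ht⟩ := s.t.bd
  have hT := typ_and hT1 hT2
  have hC0 : (0 : ℝ) ≤ nn (m + 1) D * (Cu D * Cm (m + 1) D) ^ 2 := by
    have := nn_one (m + 1) D
    positivity
  have h3 : (0 : ℝ) ≤ 3 := by norm_num
  have hsub : S.Sub (fun k => nn (m + 1) D * (Cu D * Cm (m + 1) D) ^ 2 * (Kt k + 3) ^ (2 * D) * (K1 k * K2 k)) :=
    ((S.Sub_const hC0).mul (Sub_powN (hKt.add (S.Sub_const h3)) _)).mul (hK1.mul hK2)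
  have hT' : Tendsto (fun k => (X k).l.T.pb (fun ω => ¬ ((∀ r, |r - s.t.v k ((X k).l.p.π ω) 0| ≤
      2 * S.dl (c₀ - (c₀ - c')) k → phi (S.dl 1 k) ((X k).g ω) (pl (s.a.v k ((X k).l.p.π ω))
      (s.x.v k ((X k).l.p.π ω)) r) ≤ K1 k * 2 ^ ((2 * D : ℕ) * (c₀ - c') * (S.F k).n) *
      sph s D k ((X k).l.p.π ω) ((X k).g ω)) ∧ sph s D k ((X k).l.p.π ω) ((X k).g ω) ≤ K2 k))) UF (𝓝 0) := hT
  filter_upwards [hT'.eventually (gt_mem_nhds hη), hcpd, ht, hKt.1, hK1.1, hK2.1,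
    hsub.eventually_le hη] with k a1 a2 a3 a4 a5 a6 a7
  have hn := (S.F k).pos
  have hd := S.dl_pos 1 k
  have hdc1 : S.dl c' k ≤ 1 := by
    have := S.dl_anti hc' k
    rwa [S.dl_zero] at this
  refine le_trans ?_ a1.le
  rw [← pb_push (pam (X k).l (K k) (cAs s c' k)).p1]
  apply FSp.pb_mono
  intro w hw hbad hE
  apply hbad
  obtain ⟨hE1, hE2⟩ := hE
  obtain ⟨w1, w2⟩ := w
  obtain ⟨hw1, hw2⟩ := pam_supp _ _ _ _ hw
  have hrel := (pam_rel _ _ _ _ hw).1.2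
  obtain ⟨r1, r2, r3⟩ := cAs_close s c' k ((X k).l.p.π w1) ((X k).l.p.π w2) ((cAs s c' k).symm hrel)
  have hμ2 := (X k).l.p.supp w2 hw2
  have hA := (a2 w1 hw1).pdM
  intro u hu
  have hu' : |u - s.t.v k ((X k).l.p.π w2) 0| ≤ S.dl c' k := hu
  have e1 := hE1 u (by
    have e0 : c₀ - (c₀ - c') = c' := by ring
    rw [e0]
    have e00 : u - s.t.v k ((X k).l.p.π w1) 0 = (u - s.t.v k ((X k).l.p.π w2) 0) +
      (s.t.v k ((X k).l.p.π w2) 0 - s.t.v k ((X k).l.p.π w1) 0) := by ring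
    show |u - s.t.v k ((X k).l.p.π w1) 0| ≤ _
    rw [e00]
    have := abs_add_le (u - s.t.v k ((X k).l.p.π w2) 0) (s.t.v k ((X k).l.p.π w2) 0 - s.t.v k ((X k).l.p.π w1) 0)
    linarith)
  have hub : |u| ≤ Kt k + 1 := by
    have b1 := a3 _ hμ2 0
    have b2 := abs_add_le (u - s.t.v k ((X k).l.p.π w2) 0) (s.t.v k ((X k).l.p.π w2) 0)
    rw [sub_add_cancel] at b2
    linarith
  have e2 := phi_comp ((X k).g w1) hA (S.dl 1 k) (S.dl 1 k) (Kt k + 3) hd hd.le (by linarith)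
    (pl (s.a.v k ((X k).l.p.π w1)) (s.x.v k ((X k).l.p.π w1)) u)
    (pl (s.a.v k ((X k).l.p.π w2)) (s.x.v k ((X k).l.p.π w2)) u) (fun i => by
      have := pl_diff (s.a.v k ((X k).l.p.π w1)) (s.x.v k ((X k).l.p.π w1)) (s.a.v k ((X k).l.p.π w2))
        (s.x.v k ((X k).l.p.π w2)) u (S.dl 1 k) (Kt k + 1) hd.le hub r1 r2 i
      linarith)
  have e4 : phi (S.dl 1 k) ((X k).g w1) (pl (s.a.v k ((X k).l.p.π w1)) (s.x.v k ((X k).l.p.π w1)) u) ≤
      K1 k * 2 ^ ((2 * D : ℕ) * (c₀ - c') * (S.F k).n) * K2 k :=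
    e1.trans (mul_le_mul_of_nonneg_left hE2 (by positivity))
  have e5 : nn (m + 1) D * (Cu D * Cm (m + 1) D * (Kt k + 3) ^ D) ^ 2 =
      nn (m + 1) D * (Cu D * Cm (m + 1) D) ^ 2 * (Kt k + 3) ^ (2 * D) := by
    rw [mul_pow, ← pow_mul]
    ring
  have e6 : 0 ≤ nn (m + 1) D * (Cu D * Cm (m + 1) D) ^ 2 * (Kt k + 3) ^ (2 * D) := by
    have := nn_one (m + 1) D
    positivity
  rw [e5] at e2
  have e7 := e2.trans (mul_le_mul_of_nonneg_left e4 e6)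
  refine e7.trans ?_
  rw [add_mul, Real.rpow_add (by norm_num), mul_comm ((2 : ℝ) ^ ((2 * D : ℕ) * (c₀ - c') * (S.F k).n))]
  have e10 : nn (m + 1) D * (Cu D * Cm (m + 1) D) ^ 2 * (Kt k + 3) ^ (2 * D) *
      (K1 k * 2 ^ ((2 * D : ℕ) * (c₀ - c') * (S.F k).n) * K2 k) =
      (nn (m + 1) D * (Cu D * Cm (m + 1) D) ^ 2 * (Kt k + 3) ^ (2 * D) * (K1 k * K2 k)) *
        2 ^ ((2 * D : ℕ) * (c₀ - c') * (S.F k).n) := by ring
  rw [e10]
  exact mul_le_mul_of_nonneg_right (by linarith) (by positivity)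

section far

variable {x : ∀ k, FD (S.F k) (Mon (m + 1) D)} {l' : Lab S} {c₀ c : ℝ}

/-- the form of the first copy, on the space of the triples -/
def g1 (x : ∀ k, FD (S.F k) (Mon (m + 1) D)) (l' : Lab S) (c : ℝ) (k : ℕ) (w : (Lab3 s x l' c k).T.Ω) :
    Matrix (Mon (m + 1) D) (Mon (m + 1) D) ℝ := ((x k).jn (l' k)).g w.1.1

/-- the form of the third point -/
def g3 (x : ∀ k, FD (S.F k) (Mon (m + 1) D)) (l' : Lab S) (c : ℝ) (k : ℕ) (w : (Lab3 s x l' c k).T.Ω) :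
    Matrix (Mon (m + 1) D) (Mon (m + 1) D) ℝ := ((x k).jn (l' k)).g w.2

theorem g1_pdM (hx : (gau s D).Ad (cA s c₀) (cB s) x) : ∀ᶠ k in UF, ∀ w, (Lab3 s x l' c k).T.μ w ≠ 0 →
    PdM (g1 s x l' c k w) := by
  filter_upwards [hx 1 one_pos] with k hk w hw
  have h1 := (fam3 ((x k).jn (l' k)).l (jK (x k) (l' k)) (cAs s c k)).p1.supp w hw
  have h2 := (pam ((x k).jn (l' k)).l (jK (x k) (l' k)) (cAs s c k)).p1.supp _ h1
  exact (hk.2.2.1 _ (((x k).l.am (l' k)).p1.supp _ h2)).1.pdM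

theorem g1_meas (k : ℕ) (w w' : (Lab3 s x l' c k).T.Ω) (hw : (Lab3 s x l' c k).T.μ w ≠ 0)
    (hw' : (Lab3 s x l' c k).T.μ w' ≠ 0) (hV : (Lab3 s x l' c k).V w w') (hZ : (Lab3 s x l' c k).T.Z w w') :
    g1 s x l' c k w = g1 s x l' c k w' := by
  have h1 := (fam3 ((x k).jn (l' k)).l (jK (x k) (l' k)) (cAs s c k)).p1.supp w hw
  have h2 := (pam ((x k).jn (l' k)).l (jK (x k) (l' k)) (cAs s c k)).p1.supp _ h1
  have h1' := (fam3 ((x k).jn (l' k)).l (jK (x k) (l' k)) (cAs s c k)).p1.supp w' hw'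
  have h2' := (pam ((x k).jn (l' k)).l (jK (x k) (l' k)) (cAs s c k)).p1.supp _ h1'
  have z1 := ((fam3 ((x k).jn (l' k)).l (jK (x k) (l' k)) (cAs s c k)).p1.hZ w w' hw hw').mp hZ
  have z2 := ((pam ((x k).jn (l' k)).l (jK (x k) (l' k)) (cAs s c k)).p1.hZ _ _ h1 h1').mp z1
  exact (((x k).jn (l' k)).meas _ _ h2 h2' hV.1 z2).1

/-- the form of the first copy is bounded along the line of the third point in the window -/
theorem g1_win (h0 : 0 ≤ c) (hc : c ≤ c₀) (h1 : c₀ < 1) (hx : (gau s D).Opt (cA s c₀) (cB s) x)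
    (hl : l'.DM (cA s c₀) (cB s)) (e : ℝ) (he : 0 < e) :
    Tendsto (fun k => (Lab3 s x l' c k).T.pb (fun w =>
      ¬ ∀ u, |u - s.t.v k ((Lab3 s x l' c k).p.π w) 0| ≤ S.dl c k →
      phi (S.dl 1 k) (g1 s x l' c k w) (pl (s.a.v k ((Lab3 s x l' c k).p.π w))
        (s.x.v k ((Lab3 s x l' c k).p.π w)) u) ≤ 2 ^ (2 * (D * (c₀ - c) + e) * (S.F k).n))) UF (𝓝 0) := by
  have hX : (gau s D).Ad (cA s c₀) (cB s) (fun k => (x k).jn (l' k)) := (Gau.Opt.jn _ hx hl).1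
  apply Pool.Agent.Helper93.LIP.tendsto_of_le (F := fun k => (Lab3 s x l' c k).T) (E := fun e k w =>
    ∀ u, |u - s.t.v k ((Lab3 s x l' c k).p.π w) 0| ≤ S.dl c k →
      phi (S.dl 1 k) (g1 s x l' c k w) (pl (s.a.v k ((Lab3 s x l' c k).p.π w))
        (s.x.v k ((Lab3 s x l' c k).p.π w)) u) ≤ 2 ^ (2 * (D * (c₀ - c) + e) * (S.F k).n)) ?_ ?_ e he
  · intro a b _ hab k ω h u hu
    refine (h u hu).trans (Real.rpow_le_rpow_of_exponent_le (by norm_num) ?_)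
    apply mul_le_mul_of_nonneg_right _ (S.F k).pos.le
    linarith
  · intro e he
    filter_upwards [far_win s (h0.trans hc) h1 hX (fun k => jK (x k) (l' k)) h0 hc e he] with k hk
    rw [← pb_push (q13 ((x k).jn (l' k)).l (jK (x k) (l' k)) (cAs s c k))] at hk
    refine le_trans (FSp.pb_mono _ ?_) hk
    intro w _ h1 h2
    apply h1
    intro u hu
    refine (h2 u hu).trans (Real.rpow_le_rpow_of_exponent_le (by norm_num) ?_)
    apply mul_le_mul_of_nonneg_right _ (S.F k).pos.le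
    push_cast
    linarith

/-- the derivative of the form of the first copy is large at the third point -/
theorem g1_Hz (h0 : 0 ≤ c) (h1 : c < 1) (hx : (gau s D).Opt (cA s c₀) (cB s) x) (hl' : IsKap s c l')
    (i : Fin m) (hz : Hz s i x) (e : ℝ) (he : 0 < e) :
    Tendsto (fun k => (Lab3 s x l' c k).T.pb (fun w => ¬ 2 ^ (2 * (1 - e) * (S.F k).n) ≤
      gami i.succ (S.dl 1 k) (g1 s x l' c k w) (ptf s k ((Lab3 s x l' c k).p.π w)))) UF (𝓝 0) := by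
  have he2 : 0 < e / 2 := by linarith
  obtain ⟨K', hK', hT⟩ := win_gami s h0 h1 (l := Lab3 s x l' c) (Lab3_leakA s x hl') i.succ
    (g1 s x l' c) (g1_pdM s hx.1) (Eventually.of_forall fun k => g1_meas s k) (fun _ => 1) (S.Sub_const zero_le_one)
  have hT' : Tendsto (fun k => (Lab3 s x l' c k).T.pb (fun w =>
      ¬ ∀ r, |r - s.t.v k ((Lab3 s x l' c k).p.π w) 0| ≤ 1 * S.dl c k →
      gami i.succ (S.dl 1 k) (g1 s x l' c k w) (pl (s.a.v k ((Lab3 s x l' c k).p.π w))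
        (s.x.v k ((Lab3 s x l' c k).p.π w)) r) ≤
        K' k * gami i.succ (S.dl 1 k) (g1 s x l' c k w) (ptf s k ((Lab3 s x l' c k).p.π w)))) UF (𝓝 0) := hT
  have hz' : Tendsto (fun k => (Lab3 s x l' c k).T.pb (fun w => ¬ 2 ^ (2 * (1 - e / 2) * (S.F k).n) ≤
      gami i.succ (S.dl 1 k) (g1 s x l' c k w) (ptf s k (((x k).jn (l' k)).l.p.π w.1.1)))) UF (𝓝 0) := by
    refine (hz (e / 2) he2).congr fun k => ?_
    have a1 := pb_push ((x k).l.am (l' k)).p1 (fun ω => ¬ 2 ^ (2 * (1 - e / 2) * (S.F k).n) ≤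
      gami i.succ (S.dl 1 k) ((x k).g ω) (ptf s k ((x k).l.p.π ω)))
    have a2 := pb_push (pam ((x k).jn (l' k)).l (jK (x k) (l' k)) (cAs s c k)).p1
      (fun w => ¬ 2 ^ (2 * (1 - e / 2) * (S.F k).n) ≤ gami i.succ (S.dl 1 k) (((x k).jn (l' k)).g w)
        (ptf s k (((x k).jn (l' k)).l.p.π w)))
    have a3 := pb_push (fam3 ((x k).jn (l' k)).l (jK (x k) (l' k)) (cAs s c k)).p1
      (fun w => ¬ 2 ^ (2 * (1 - e / 2) * (S.F k).n) ≤ gami i.succ (S.dl 1 k) (((x k).jn (l' k)).g w.1)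
        (ptf s k (((x k).jn (l' k)).l.p.π w.1)))
    exact (a3.trans (a2.trans a1)).symm
  obtain ⟨Kt, hKt, ht⟩ := s.t.bd
  have hC0 : (0 : ℝ) ≤ nn (m + 1) D * (Cu D * Cm (m + 1) D) ^ 2 := by
    have := nn_one (m + 1) D
    positivity
  have hsub : S.Sub (fun k => nn (m + 1) D * (Cu D * Cm (m + 1) D) ^ 2 * (Kt k + 2) ^ (2 * D) * K' k) :=
    ((S.Sub_const hC0).mul (Sub_powN (hKt.add (S.Sub_const zero_le_two)) _)).mul hK'
  have hsum := hT'.add hz'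
  rw [add_zero] at hsum
  refine tendsto_of_tendsto_of_tendsto_of_le_of_le' tendsto_const_nhds hsum
    (Eventually.of_forall fun k => FSp.pb_nonneg _ _) ?_
  filter_upwards [g1_pdM s (l' := l') (c := c) hx.1, ht, hKt.1, hK'.1, hsub.eventually_le he] with k a1 a2 a3 a4 a5
  refine le_trans (FSp.pb_mono _ ?_) (pb_or _ _ _)
  intro w hw hE
  by_contra hcon
  rw [not_or, not_not, not_not] at hcon
  obtain ⟨hc1, hc2⟩ := hcon
  apply hE
  have hd := S.dl_pos 1 k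
  -- the two points
  have hw13 := (q13 ((x k).jn (l' k)).l (jK (x k) (l' k)) (cAs s c k)).supp w hw
  obtain ⟨hw1, hw2⟩ := pam_supp _ _ _ _ hw13
  have hrel := (pam_rel _ _ _ _ hw13).1.2
  obtain ⟨r1, r2, r3⟩ := cAs_close s c k (((x k).jn (l' k)).l.p.π w.2) (((x k).jn (l' k)).l.p.π w.1.1) hrel
  have hμ1 := ((x k).jn (l' k)).l.p.supp w.1.1 hw1
  have b1 := hc1 (s.t.v k (((x k).jn (l' k)).l.p.π w.1.1) 0) (by rw [one_mul]; exact r3)
  have b2 := gami_comp i.succ (g1 s x l' c k w) (a1 w hw) (S.dl 1 k) (S.dl 1 k) (Kt k + 2) hd hd.le (by linarith)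
    (pl (s.a.v k ((Lab3 s x l' c k).p.π w)) (s.x.v k ((Lab3 s x l' c k).p.π w))
      (s.t.v k (((x k).jn (l' k)).l.p.π w.1.1) 0)) (ptf s k (((x k).jn (l' k)).l.p.π w.1.1)) (fun j => by
      have := pl_diff (s.a.v k (((x k).jn (l' k)).l.p.π w.2)) (s.x.v k (((x k).jn (l' k)).l.p.π w.2))
        (s.a.v k (((x k).jn (l' k)).l.p.π w.1.1)) (s.x.v k (((x k).jn (l' k)).l.p.π w.1.1))
        (s.t.v k (((x k).jn (l' k)).l.p.π w.1.1) 0) (S.dl 1 k) (Kt k) hd.le (a2 _ hμ1 0) r1 r2 j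
      have e0 : |ptf s k (((x k).jn (l' k)).l.p.π w.1.1) j - pl (s.a.v k ((Lab3 s x l' c k).p.π w))
        (s.x.v k ((Lab3 s x l' c k).p.π w)) (s.t.v k (((x k).jn (l' k)).l.p.π w.1.1) 0) j| ≤
          (1 + Kt k) * S.dl 1 k := this
      linarith)
  have b3 : gami i.succ (S.dl 1 k) (g1 s x l' c k w) (ptf s k (((x k).jn (l' k)).l.p.π w.1.1)) ≤
      nn (m + 1) D * (Cu D * Cm (m + 1) D) ^ 2 * (Kt k + 2) ^ (2 * D) *
      (K' k * gami i.succ (S.dl 1 k) (g1 s x l' c k w) (ptf s k ((Lab3 s x l' c k).p.π w))) := by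
    have e5 : nn (m + 1) D * (Cu D * Cm (m + 1) D * (Kt k + 2) ^ D) ^ 2 =
        nn (m + 1) D * (Cu D * Cm (m + 1) D) ^ 2 * (Kt k + 2) ^ (2 * D) := by
      rw [mul_pow, ← pow_mul]
      ring
    rw [e5] at b2
    refine b2.trans (mul_le_mul_of_nonneg_left b1 ?_)
    have := nn_one (m + 1) D
    positivity
  set Y := gami i.succ (S.dl 1 k) (g1 s x l' c k w) (ptf s k ((Lab3 s x l' c k).p.π w)) with hY
  have hY0 : 0 ≤ Y := gami_nonneg _ _ (fun v => (a1 w hw).nonneg v) _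
  have b4 : (2 : ℝ) ^ (2 * (1 - e / 2) * (S.F k).n) ≤ 2 ^ (e * (S.F k).n) * Y := by
    refine hc2.trans (b3.trans ?_)
    rw [← mul_assoc]
    apply mul_le_mul_of_nonneg_right _ hY0
    linarith
  have e6 : (2 : ℝ) ^ (2 * (1 - e / 2) * (S.F k).n) = 2 ^ (e * (S.F k).n) * 2 ^ (2 * (1 - e) * (S.F k).n) := by
    rw [← Real.rpow_add (by norm_num)]
    congr 1
    ring
  rw [e6] at b4
  exact le_of_mul_le_mul_left b4 (by positivity)

/-- ZVEL, form of the first copy at the third point -/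
theorem zvel_far (h0 : 0 ≤ c) (hc : c ≤ c₀) (h1 : c₀ < 1) (hx : (gau s D).Opt (cA s c₀) (cB s) x)
    (hl' : IsKap s c l') (i : Fin m) (hz : Hz s i x) (e : ℝ) (he : 0 < e) :
    ∃ G : ∀ k, (Lab3 s x l' c k).T.Ω → Prop,
      Tendsto (fun k => (Lab3 s x l' c k).T.pb (fun ω => ¬ G k ω)) UF (𝓝 0) ∧
      ∀ᶠ k in UF, ∀ ω ω', (Lab3 s x l' c k).T.μ ω ≠ 0 → (Lab3 s x l' c k).T.μ ω' ≠ 0 → G k ω → G k ω' →
      g1 s x l' c k ω = g1 s x l' c k ω' →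
      (s.fin k).kP 1 ((Lab3 s x l' c k).p.π ω) ((Lab3 s x l' c k).p.π ω') →
      (s.fin k).kt 1 ((Lab3 s x l' c k).p.π ω) ((Lab3 s x l' c k).p.π ω') →
      (s.x.v k ((Lab3 s x l' c k).p.π ω) i - s.x.v k ((Lab3 s x l' c k).p.π ω') i) ^ 2 ≤
        2 ^ (2 * (D * (c₀ - c) + e) * (S.F k).n) * (2 ^ (-(2 * (1 - c) * (S.F k).n)) +
          ∑ j ∈ Finset.univ.erase i, (s.x.v k ((Lab3 s x l' c k).p.π ω) j - s.x.v k ((Lab3 s x l' c k).p.π ω') j) ^ 2) :=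
  zvel_ev s (fun k => (Lab3 s x l' c k).T) (fun k => (Lab3 s x l' c k).p) (g1 s x l' c) (g1_pdM s hx.1) i c
    (D * (c₀ - c)) (fun e he => g1_win s h0 hc h1 hx (DMc.mono hc hl'.dm) e he)
    (fun e he => g1_Hz s h0 (lt_of_le_of_lt hc h1) hx hl' i hz e he) e he

/-- the form of the third point is bounded along the line in the window -/
theorem zvel_third (h0 : 0 ≤ c₀) (h1 : c₀ < 1) (hx : (gau s D).Ad (cA s c₀) (cB s) x)
    (i : Fin m) (hz : Hz s i x) (l' : Lab S) (c : ℝ) (e : ℝ) (he : 0 < e) :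
    ∃ G : ∀ k, (Lab3 s x l' c k).T.Ω → Prop,
      Tendsto (fun k => (Lab3 s x l' c k).T.pb (fun ω => ¬ G k ω)) UF (𝓝 0) ∧
      ∀ᶠ k in UF, ∀ ω ω', (Lab3 s x l' c k).T.μ ω ≠ 0 → (Lab3 s x l' c k).T.μ ω' ≠ 0 → G k ω → G k ω' →
      g3 s x l' c k ω = g3 s x l' c k ω' →
      (s.fin k).kP 1 ((Lab3 s x l' c k).p.π ω) ((Lab3 s x l' c k).p.π ω') →
      (s.fin k).kt 1 ((Lab3 s x l' c k).p.π ω) ((Lab3 s x l' c k).p.π ω') →
      (s.x.v k ((Lab3 s x l' c k).p.π ω) i - s.x.v k ((Lab3 s x l' c k).p.π ω') i) ^ 2 ≤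
        2 ^ (2 * (0 + e) * (S.F k).n) * (2 ^ (-(2 * (1 - c₀) * (S.F k).n)) +
          ∑ j ∈ Finset.univ.erase i, (s.x.v k ((Lab3 s x l' c k).p.π ω) j - s.x.v k ((Lab3 s x l' c k).p.π ω') j) ^ 2) :=
  zvel_ext s (p := fun k => (x k).l.p) (A := fun k => (x k).g) (c := c₀) (β := 0) (e := e)
    (zvel_own s h0 h1 hx i hz e he)
    (fun k => (fam3 ((x k).jn (l' k)).l (jK (x k) (l' k)) (cAs s c k)).p2.comp ((x k).l.am (l' k)).p1)

end far

end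

end Pool.Agent.Helper48.LIP
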