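import Pool.Agent.Helper48.LIP.U3
import Pool.Agent.Helper93.LIP.Line

/-! LIP(A), ZVEL, finite part: two lines through the same cell along which a form is bounded have comparable velocities
if the derivative of the form in one direction is large. -/

set_option autoImplicit false

namespace Pool.Agent.Helper48.LIP

open Finset MvPolynomial Matrix Pool.Agent.Helper95.LF Pool.Agent.Helper3.LF Pool.Agent.Helper89.LX

noncomputable section

variable {N D : ℕ}

/-! ### the derivative in one direction -/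

/-- size of the derivative of the form in the direction `i` on the cell -/
def gami (i : Fin N) (r : ℝ) (A : Matrix (Mon N D) (Mon N D) ℝ) (p : Fin N → ℝ) : ℝ :=
  ∑ j : Fin N → Fin (D + 1), dd i (nodp D p r j) ⬝ᵥ (A *ᵥ dd i (nodp D p r j))

theorem gami_nonneg (i : Fin N) (r : ℝ) {A : Matrix (Mon N D) (Mon N D) ℝ}
    (h : ∀ x : Mon N D → ℝ, 0 ≤ x ⬝ᵥ (A *ᵥ x)) (p : Fin N → ℝ) : 0 ≤ gami i r A p :=
  Finset.sum_nonneg fun _ _ => h _

theorem gam_eq_sum (r : ℝ) (A : Matrix (Mon N D) (Mon N D) ℝ) (p : Fin N → ℝ) : gam r A p = ∑ i, gami i r A p := rfl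

theorem gami_le_gam (i : Fin N) (r : ℝ) {A : Matrix (Mon N D) (Mon N D) ℝ}
    (h : ∀ x : Mon N D → ℝ, 0 ≤ x ⬝ᵥ (A *ᵥ x)) (p : Fin N → ℝ) : gami i r A p ≤ gam r A p := by
  rw [gam_eq_sum]
  exact Finset.single_le_sum (f := fun i => gami i r A p) (fun _ _ => gami_nonneg _ _ h _) (Finset.mem_univ i)

/-- the value at the corner -/
theorem qf_dd_le (i : Fin N) (r : ℝ) {A : Matrix (Mon N D) (Mon N D) ℝ} (h : ∀ v, 0 ≤ qf A v) (p : Fin N → ℝ) :
    qf A (dd i p) ≤ gami i r A p := by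
  have h1 : nodp D p r (fun _ => 0) = p := by
    funext i
    unfold nodp nod
    simp
  have h2 : qf A (dd i (nodp D p r (fun _ => 0))) ≤ gami i r A p :=
    Finset.single_le_sum (f := fun j : Fin N → Fin (D + 1) => dd i (nodp D p r j) ⬝ᵥ (A *ᵥ dd i (nodp D p r j)))
      (fun j _ => h _) (Finset.mem_univ (fun _ : Fin N => (0 : Fin (D + 1))))
  rw [h1] at h2
  exact h2

theorem gami_rows (i : Fin N) (r : ℝ) (C : Matrix (Mon N D) (Mon N D) ℝ) (p : Fin N → ℝ) :
    gami i r (C.transpose * C) p = ∑ k, ph D (pderiv i (pol (C k))) r p := by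
  unfold gami ph
  rw [Finset.sum_comm (s := (Finset.univ : Finset (Mon N D)))]
  refine Finset.sum_congr rfl fun j _ => ?_
  rw [qf_rows]
  exact Finset.sum_congr rfl fun k _ => by rw [eval_pderiv_pol]

theorem gami_comp (i : Fin N) (A : Matrix (Mon N D) (Mon N D) ℝ) (hA : PdM A) (r r' K : ℝ) (hr : 0 < r)
    (hr' : 0 ≤ r') (hK : 1 ≤ K) (p p' : Fin N → ℝ) (hp : ∀ i, |p' i - p i| + r' ≤ K * r) :
    gami i r' A p' ≤ nn N D * (Cu D * Cm N D * K ^ D) ^ 2 * gami i r A p := by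
  obtain ⟨C, hC, -⟩ := exists_factor A hA
  rw [hC, gami_rows, gami_rows, Finset.mul_sum]
  exact Finset.sum_le_sum fun k _ => ph_comp _ (pderiv_tdeg _ (pol_deg _) i) r r' K hr hr' hK p p' hp

theorem gami_line (i : Fin N) (r : ℝ) (A : Matrix (Mon N D) (Mon N D) ℝ) (hA : PdM A) (a x : Fin N → ℝ) :
    ∃ f : Polynomial ℝ, f.natDegree ≤ 2 * D ∧ ∀ s : ℝ, f.eval s = gami i r A (fun k => a k + s * x k) := by
  classical
  obtain ⟨C, hC, -⟩ := exists_factor A hA
  refine ⟨∑ k, ∑ j : Fin N → Fin (D + 1),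
    (lin (fun i => a i + r * nod D (j i)) x (pderiv i (pol (C k)))) ^ 2, ?_, ?_⟩
  · refine Polynomial.natDegree_sum_le_of_forall_le _ _ fun k _ =>
      Polynomial.natDegree_sum_le_of_forall_le _ _ fun j _ => ?_
    refine Polynomial.natDegree_pow_le.trans ?_
    exact Nat.mul_le_mul_left 2 ((natDegree_lin _ _ _).trans (pderiv_tdeg _ (pol_deg _) i))
  · intro s
    rw [hC, gami_rows, Polynomial.eval_finsetSum]
    refine Finset.sum_congr rfl fun k _ => ?_
    rw [Polynomial.eval_finsetSum]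
    unfold ph
    refine Finset.sum_congr rfl fun j _ => ?_
    rw [Polynomial.eval_pow, eval_lin]
    have e1 : (fun k => a k + r * nod D ↑(j k) + s * x k) = nodp D (fun k => a k + s * x k) r j := by
      funext k
      unfold nodp
      ring
    rw [e1]

/-- a node of the cell -/
theorem gami_node (i : Fin N) (r : ℝ) (A : Matrix (Mon N D) (Mon N D) ℝ) (p : Fin N → ℝ) :
    ∃ j : Fin N → Fin (D + 1), gami i r A p ≤ nn N D * qf A (dd i (nodp D p r j)) := by
  classical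
  obtain ⟨j, -, hmax⟩ := Finset.exists_max_image (Finset.univ : Finset (Fin N → Fin (D + 1)))
    (fun j => qf A (dd i (nodp D p r j))) Finset.univ_nonempty
  refine ⟨j, ?_⟩
  unfold gami
  refine (Finset.sum_le_card_nsmul _ _ _ fun j' _ => hmax j' (Finset.mem_univ _)).trans (le_of_eq ?_)
  rw [nsmul_eq_mul, card_nodes]

theorem nodp_close (r : ℝ) (hr : 0 ≤ r) (p : Fin N → ℝ) (j : Fin N → Fin (D + 1)) (i : Fin N) :
    |nodp D p r j i - p i| ≤ r := by
  have e1 : nodp D p r j i - p i = r * nod D (j i) := by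
    unfold nodp
    ring
  rw [e1, abs_mul, abs_of_nonneg hr, abs_of_nonneg (nod_nonneg D _)]
  calc r * nod D (j i) ≤ r * 1 := mul_le_mul_of_nonneg_left (nod_le D _ (Nat.le_of_lt_succ (j i).2)) hr
    _ = r := mul_one _

/-! ### derivatives of forms at a point -/

theorem qf_sum_rows (C : Matrix (Mon N D) (Mon N D) ℝ) (v : Mon N D → ℝ) :
    qf (C.transpose * C) v = ∑ k, (C k ⬝ᵥ v) ^ 2 := qf_rows C v

/-- gradient -/
theorem grad_le {A : Matrix (Mon N D) (Mon N D) ℝ} (hA : PdM A) (r K : ℝ) (hr : 0 < r) (hK : 1 ≤ K)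
    (p y : Fin N → ℝ) (hy : ∀ i, |y i - p i| ≤ K * r) (i : Fin N) :
    r ^ 2 * qf A (dd i y) ≤ (Cm N D * K ^ (N * D + D)) ^ 2 * phi r A p := by
  obtain ⟨C, hC, -⟩ := exists_factor A hA
  rw [hC, phi_rows, qf_sum_rows, Finset.mul_sum, Finset.mul_sum]
  refine Finset.sum_le_sum fun k _ => ?_
  rw [← eval_pderiv_pol]
  exact der_le (pol (C k)) (pol_deg _) r K hr hK p y hy i

/-- the vector of the derivatives of the monomials along a line -/
def dir {m : ℕ} (Q : Fin (m + 1) → ℝ) (x : Fin m → ℝ) : Mon (m + 1) D → ℝ :=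
  ∑ i : Fin (m + 1), (Fin.cons 1 x : Fin (m + 1) → ℝ) i • dd i Q

/-- the derivative along the line is bounded if the form is bounded along a neighbouring line -/
theorem dir_le {m : ℕ} {A : Matrix (Mon (m + 1) D) (Mon (m + 1) D) ℝ} (hA : PdM A) (a x : Fin m → ℝ)
    (t r L B K : ℝ) (hr : 0 < r) (hL : 0 < L) (hB : 0 ≤ B) (hK : 1 ≤ K)
    (h : ∀ u, |u - t| ≤ L → phi r A (pl a x u) ≤ B) (Q : Fin (m + 1) → ℝ)
    (hQ : ∀ i, |Q i - pl a x t i| ≤ K * r) :
    L ^ 2 * qf A (dir Q x) ≤ Fintype.card (Mon (m + 1) D) * (Cu D * (Cu D * Cm (m + 1) D * K ^ D)) ^ 2 * B := by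
  obtain ⟨C, hC, -⟩ := exists_factor A hA
  have hCu := Cu_one D
  have hCm := Cm_one (m + 1) D
  have hrow : ∀ k, (L * (C k ⬝ᵥ dir Q x)) ^ 2 ≤ (Cu D * (Cu D * Cm (m + 1) D * K ^ D)) ^ 2 * B := by
    intro k
    set f : Polynomial ℝ := lin (fun i => Q i - t * (Fin.cons 1 x : Fin (m + 1) → ℝ) i)
      (Fin.cons 1 x : Fin (m + 1) → ℝ) (pol (C k)) with hf
    have hdeg : f.natDegree ≤ D := (natDegree_lin _ _ _).trans (pol_deg _)
    have hpt : ∀ u : ℝ, (fun i => Q i - t * (Fin.cons 1 x : Fin (m + 1) → ℝ) i + u * (Fin.cons 1 x : Fin (m + 1) → ℝ) i) =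
        fun i => Q i + (u - t) * (Fin.cons 1 x : Fin (m + 1) → ℝ) i := by
      intro u
      funext i
      ring
    have hval : ∀ u : ℝ, |u - t| ≤ L → |f.eval u| ≤ Cu D * Cm (m + 1) D * K ^ D * Real.sqrt B := by
      intro u hu
      have h1 : (f.eval u) ^ 2 ≤ (Cu D * Cm (m + 1) D * K ^ D) ^ 2 * ph D (pol (C k)) r (pl a x u) := by
        rw [hf, eval_lin, hpt]
        apply gro_le (pol (C k)) (pol_deg _) r K hr hK
        intro i
        have e1 : Q i + (u - t) * (Fin.cons 1 x : Fin (m + 1) → ℝ) i - pl a x u i = Q i - pl a x t i := by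
          rw [pl_line, pl_line]
          ring
        rw [e1]
        exact hQ i
      have h2 : ph D (pol (C k)) r (pl a x u) ≤ B := by
        refine le_trans ?_ (h u hu)
        rw [hC, phi_rows]
        exact Finset.single_le_sum (f := fun k => ph D (pol (C k)) r (pl a x u))
          (fun _ _ => ph_nonneg _ _ _) (Finset.mem_univ k)
      have h3 : (f.eval u) ^ 2 ≤ (Cu D * Cm (m + 1) D * K ^ D * Real.sqrt B) ^ 2 := by
        rw [mul_pow _ (Real.sqrt B), Real.sq_sqrt hB]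
        exact h1.trans (mul_le_mul_of_nonneg_left h2 (sq_nonneg _))
      exact abs_le_of_sq_le_sq h3 (by positivity)
    have h4 := uni_affine D f hdeg 1 t L 1 t (Cu D * Cm (m + 1) D * K ^ D * Real.sqrt B) hL le_rfl
      (by rw [sub_self, abs_zero]; positivity) (fun j hj => by
        apply hval
        rw [add_sub_cancel_left, abs_mul, abs_of_pos hL, abs_of_nonneg (nod_nonneg D j)]
        calc L * nod D j ≤ L * 1 := mul_le_mul_of_nonneg_left (nod_le D j hj) hL.le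
          _ = L := mul_one _)
    have h5 : (Polynomial.derivative^[1] f).eval t = C k ⬝ᵥ dir Q x := by
      rw [Function.iterate_one, hf, deriv_lin, Polynomial.eval_finsetSum]
      unfold dir
      rw [dotProduct_sum]
      refine Finset.sum_congr rfl fun i _ => ?_
      rw [Polynomial.eval_mul, Polynomial.eval_C, eval_lin, hpt, dotProduct_smul, smul_eq_mul, ← eval_pderiv_pol]
      congr 2
      congr 1
      funext j
      rw [sub_self, zero_mul, add_zero]
    rw [h5, pow_one, one_pow, mul_one] at h4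
    have h6 : (L * |C k ⬝ᵥ dir Q x|) ^ 2 ≤ (Cu D * (Cu D * Cm (m + 1) D * K ^ D * Real.sqrt B)) ^ 2 :=
      pow_le_pow_left₀ (by positivity) h4 2
    rw [mul_pow, sq_abs, ← mul_pow] at h6
    refine h6.trans (le_of_eq ?_)
    have h7 : (Real.sqrt B) ^ 2 = B := Real.sq_sqrt hB
    calc (Cu D * (Cu D * Cm (m + 1) D * K ^ D * Real.sqrt B)) ^ 2 =
        (Cu D * (Cu D * Cm (m + 1) D * K ^ D)) ^ 2 * (Real.sqrt B) ^ 2 := by ring
      _ = _ := by rw [h7]
  rw [hC, qf_sum_rows, Finset.mul_sum]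
  have h8 : ∀ k ∈ (Finset.univ : Finset (Mon (m + 1) D)), L ^ 2 * (C k ⬝ᵥ dir Q x) ^ 2 ≤
      (Cu D * (Cu D * Cm (m + 1) D * K ^ D)) ^ 2 * B := by
    intro k _
    have := hrow k
    rw [mul_pow] at this
    exact this
  refine (Finset.sum_le_card_nsmul _ _ _ h8).trans (le_of_eq ?_)
  rw [nsmul_eq_mul, Finset.card_univ]
  ring

/-- sums of vectors -/
theorem qf_sum_le {ι κ : Type} [Fintype ι] [Fintype κ] {A : Matrix ι ι ℝ} (hs : A.IsSymm) (h0 : ∀ v, 0 ≤ qf A v)
    (f : κ → ι → ℝ) : qf A (∑ k, f k) ≤ Fintype.card κ * ∑ k, qf A (f k) := by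
  have h1 : qf A (∑ k, f k) = ∑ k, ∑ l, f k ⬝ᵥ (A *ᵥ f l) := by
    unfold qf
    rw [sum_dotProduct]
    refine Finset.sum_congr rfl fun k _ => ?_
    rw [Matrix.mulVec_sum, dotProduct_sum]
  have h2 : ∀ k l, f k ⬝ᵥ (A *ᵥ f l) ≤ (qf A (f k) + qf A (f l)) / 2 := by
    intro k l
    have h3 := h0 (f k - f l)
    have h4 : f l ⬝ᵥ (A *ᵥ f k) = f k ⬝ᵥ (A *ᵥ f l) := by
      rw [dotProduct_mulVec, ← Matrix.mulVec_transpose, hs.eq, dotProduct_comm]
    unfold qf at h3 ⊢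
    rw [Matrix.mulVec_sub, sub_dotProduct, dotProduct_sub, dotProduct_sub, h4] at h3
    linarith
  rw [h1]
  have h5 : ∑ k, ∑ l, f k ⬝ᵥ (A *ᵥ f l) ≤ ∑ k, ∑ l, (qf A (f k) + qf A (f l)) / 2 :=
    Finset.sum_le_sum fun k _ => Finset.sum_le_sum fun l _ => h2 k l
  refine h5.trans (le_of_eq ?_)
  have h6 : ∀ k, ∑ l, (qf A (f k) + qf A (f l)) / 2 = (Fintype.card κ * qf A (f k) + ∑ l, qf A (f l)) / 2 := by
    intro k
    rw [← Finset.sum_div, Finset.sum_add_distrib, Finset.sum_const, Finset.card_univ, nsmul_eq_mul]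
  rw [Finset.sum_congr rfl (fun k _ => h6 k), ← Finset.sum_div, Finset.sum_add_distrib, Finset.sum_const,
    Finset.card_univ, nsmul_eq_mul, ← Finset.mul_sum]
  ring

theorem qf_smul_v {ι : Type} [Fintype ι] (A : Matrix ι ι ℝ) (c : ℝ) (x : ι → ℝ) : qf A (c • x) = c ^ 2 * qf A x := by
  unfold qf
  rw [Matrix.mulVec_smul, dotProduct_smul, smul_dotProduct, smul_eq_mul, smul_eq_mul]
  ring

/-- the constant -/
def Czv (m D : ℕ) : ℝ :=
  nn (m + 1) D * ((m + 2) * (2 * (Fintype.card (Mon (m + 1) D) * (Cu D * (Cu D * Cm (m + 1) D * 2 ^ D)) ^ 2) +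
    (Cm (m + 1) D * 2 ^ ((m + 1) * D + D)) ^ 2))

theorem Czv_nonneg (m D : ℕ) : 0 ≤ Czv m D := by
  have h1 := nn_one (m + 1) D
  have h2 := Cu_one D
  have h3 := Cm_one (m + 1) D
  unfold Czv
  positivity

/-- ZVEL, finite level -/
theorem zvel_fin {m : ℕ} {A : Matrix (Mon (m + 1) D) (Mon (m + 1) D) ℝ} (hA : PdM A) (i : Fin m)
    (a x a' x' : Fin m → ℝ) (t t' r L B b : ℝ) (hr : 0 < r) (hL : 0 < L) (hB : 0 ≤ B)
    (h : ∀ u, |u - t| ≤ L → phi r A (pl a x u) ≤ B) (h' : ∀ u, |u - t'| ≤ L → phi r A (pl a' x' u) ≤ B)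
    (hc : ∀ j, |pl a' x' t' j - pl a x t j| ≤ r) (hg : b ≤ gami i.succ r A (pl a x t)) :
    (x i - x' i) ^ 2 * b ≤ Czv m D * B * ((L⁻¹) ^ 2 + (r⁻¹) ^ 2 * ∑ j ∈ Finset.univ.erase i, (x j - x' j) ^ 2) := by
  classical
  have h1n := nn_one (m + 1) D
  have h2u := Cu_one D
  have h3m := Cm_one (m + 1) D
  obtain ⟨w, hw⟩ := gami_node i.succ r A (pl a x t)
  set Q : Fin (m + 1) → ℝ := nodp D (pl a x t) r w with hQd
  have hQ1 : ∀ j, |Q j - pl a x t j| ≤ r := fun j => nodp_close r hr.le _ w j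
  have hQ2 : ∀ j, |Q j - pl a' x' t' j| ≤ 2 * r := by
    intro j
    have e1 : Q j - pl a' x' t' j = (Q j - pl a x t j) - (pl a' x' t' j - pl a x t j) := by ring
    rw [e1]
    have e2 := abs_sub (Q j - pl a x t j) (pl a' x' t' j - pl a x t j)
    have e3 := hQ1 j
    have e4 := hc j
    linarith
  set K1 : ℝ := Fintype.card (Mon (m + 1) D) * (Cu D * (Cu D * Cm (m + 1) D * 2 ^ D)) ^ 2 with hK1
  set K2 : ℝ := (Cm (m + 1) D * 2 ^ ((m + 1) * D + D)) ^ 2 with hK2
  have hK1n : 0 ≤ K1 := by positivity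
  have hK2n : 0 ≤ K2 := by positivity
  -- the two directional derivatives
  have d1 : L ^ 2 * qf A (dir Q x) ≤ K1 * B :=
    dir_le hA a x t r L B 2 hr hL hB (by norm_num) h Q (fun j => (hQ1 j).trans (by linarith))
  have d2 : L ^ 2 * qf A (dir Q x') ≤ K1 * B :=
    dir_le hA a' x' t' r L B 2 hr hL hB (by norm_num) h' Q hQ2
  have d3 : ∀ j, r ^ 2 * qf A (dd j Q) ≤ K2 * B := by
    intro j
    refine (grad_le hA r 2 hr (by norm_num) (pl a x t) Q (fun j => (hQ1 j).trans (by linarith)) j).trans ?_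
    apply mul_le_mul_of_nonneg_left _ hK2n
    exact h t (by rw [sub_self, abs_zero]; exact hL.le)
  have q1 : qf A (dir Q x) ≤ K1 * B * (L⁻¹) ^ 2 := by
    have e1 : qf A (dir Q x) = (L ^ 2 * qf A (dir Q x)) * (L⁻¹) ^ 2 := by field_simp
    rw [e1]
    exact mul_le_mul_of_nonneg_right d1 (by positivity)
  have q2 : qf A (dir Q x') ≤ K1 * B * (L⁻¹) ^ 2 := by
    have e1 : qf A (dir Q x') = (L ^ 2 * qf A (dir Q x')) * (L⁻¹) ^ 2 := by field_simp
    rw [e1]
    exact mul_le_mul_of_nonneg_right d2 (by positivity)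
  have q3 : ∀ j, qf A (dd j Q) ≤ K2 * B * (r⁻¹) ^ 2 := by
    intro j
    have e1 : qf A (dd j Q) = (r ^ 2 * qf A (dd j Q)) * (r⁻¹) ^ 2 := by field_simp
    rw [e1]
    exact mul_le_mul_of_nonneg_right (d3 j) (by positivity)
  -- the identity
  set F : Option (Option (Fin m)) → (Mon (m + 1) D → ℝ) := fun o => match o with
    | none => dir Q x
    | some none => (-1 : ℝ) • dir Q x'
    | some (some j) => (if j = i then 0 else -(x j - x' j)) • dd j.succ Q with hF
  have hid : (x i - x' i) • dd i.succ Q = ∑ o, F o := by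
    rw [Fintype.sum_option, Fintype.sum_option]
    have e0 : F none = dir Q x := rfl
    have e1 : F (some none) = (-1 : ℝ) • dir Q x' := rfl
    have e2 : ∀ j, F (some (some j)) = (if j = i then 0 else -(x j - x' j)) • dd j.succ Q := fun j => rfl
    rw [e0, e1, Finset.sum_congr rfl (fun j _ => e2 j)]
    have e3 : (dir Q x : Mon (m + 1) D → ℝ) + (-1 : ℝ) • dir Q x' = ∑ j : Fin m, (x j - x' j) • dd j.succ Q := by
      unfold dir
      rw [Fin.sum_univ_succ, Fin.sum_univ_succ]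
      simp only [Fin.cons_zero, Fin.cons_succ]
      rw [smul_add, Finset.smul_sum]
      have e4 : (1 : ℝ) • (dd 0 Q : Mon (m + 1) D → ℝ) + ∑ j : Fin m, x j • dd j.succ Q +
          ((-1 : ℝ) • (1 : ℝ) • dd 0 Q + ∑ j : Fin m, (-1 : ℝ) • x' j • dd j.succ Q) =
          ∑ j : Fin m, x j • dd j.succ Q + ∑ j : Fin m, (-1 : ℝ) • x' j • dd j.succ Q := by
        rw [one_smul, neg_one_smul]
        abel
      rw [e4, ← Finset.sum_add_distrib]
      refine Finset.sum_congr rfl fun j _ => ?_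
      rw [neg_one_smul, sub_smul, sub_eq_add_neg]
    rw [← add_assoc, e3, ← Finset.sum_add_distrib]
    rw [Finset.sum_eq_single i]
    · rw [if_pos rfl, zero_smul, add_zero]
    · intro j _ hj
      rw [if_neg hj, neg_smul, add_neg_cancel]
    · intro hi
      exact absurd (Finset.mem_univ i) hi
  have hsum := qf_sum_le hA.1 (fun v => hA.nonneg v) F
  rw [← hid, qf_smul_v, Fintype.sum_option, Fintype.sum_option] at hsum
  have hcard : (Fintype.card (Option (Option (Fin m))) : ℝ) = m + 2 := by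
    rw [Fintype.card_option, Fintype.card_option, Fintype.card_fin]
    push_cast
    ring
  rw [hcard] at hsum
  have g0 : qf A (F none) ≤ K1 * B * (L⁻¹) ^ 2 := q1
  have g1 : qf A (F (some none)) ≤ K1 * B * (L⁻¹) ^ 2 := by
    have e1 : F (some none) = (-1 : ℝ) • dir Q x' := rfl
    have e2 : (-1 : ℝ) ^ 2 = 1 := by norm_num
    rw [e1, qf_smul_v, e2, one_mul]
    exact q2
  have g2 : ∑ j, qf A (F (some (some j))) ≤ K2 * B * (r⁻¹) ^ 2 * ∑ j ∈ Finset.univ.erase i, (x j - x' j) ^ 2 := by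
    have h0 : qf A (F (some (some i))) = 0 := by
      have e1 : F (some (some i)) = (if i = i then 0 else -(x i - x' i)) • dd i.succ Q := rfl
      rw [e1, if_pos rfl, zero_smul]
      unfold qf
      simp
    have h1 : ∑ j ∈ Finset.univ.erase i, qf A (F (some (some j))) = ∑ j, qf A (F (some (some j))) :=
      Finset.sum_erase (f := fun j => qf A (F (some (some j)))) Finset.univ h0
    rw [← h1, Finset.mul_sum]
    refine Finset.sum_le_sum fun j hj => ?_
    have hji : j ≠ i := Finset.ne_of_mem_erase hj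
    have e1 : F (some (some j)) = (if j = i then 0 else -(x j - x' j)) • dd j.succ Q := rfl
    rw [e1, if_neg hji, qf_smul_v, neg_sq, mul_comm]
    exact mul_le_mul_of_nonneg_right (q3 _) (sq_nonneg _)
  have hm2 : (0 : ℝ) ≤ m + 2 := by positivity
  have hS : 0 ≤ ∑ j ∈ Finset.univ.erase i, (x j - x' j) ^ 2 := Finset.sum_nonneg fun _ _ => sq_nonneg _
  have f1 : (x i - x' i) ^ 2 * qf A (dd i.succ Q) ≤
      (m + 2) * (2 * K1 + K2) * B * ((L⁻¹) ^ 2 + (r⁻¹) ^ 2 * ∑ j ∈ Finset.univ.erase i, (x j - x' j) ^ 2) := by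
    refine hsum.trans ?_
    have e1 : qf A (F none) + (qf A (F (some none)) + ∑ j, qf A (F (some (some j)))) ≤
        (2 * K1 + K2) * B * ((L⁻¹) ^ 2 + (r⁻¹) ^ 2 * ∑ j ∈ Finset.univ.erase i, (x j - x' j) ^ 2) := by
      have a1 : 0 ≤ B * (L⁻¹) ^ 2 := by positivity
      have a2 : 0 ≤ B * ((r⁻¹) ^ 2 * ∑ j ∈ Finset.univ.erase i, (x j - x' j) ^ 2) := by positivity
      have a3 : (2 * K1 + K2) * B * ((L⁻¹) ^ 2 + (r⁻¹) ^ 2 * ∑ j ∈ Finset.univ.erase i, (x j - x' j) ^ 2) =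
          2 * (K1 * B * (L⁻¹) ^ 2) + K2 * (B * (L⁻¹) ^ 2) +
          2 * K1 * (B * ((r⁻¹) ^ 2 * ∑ j ∈ Finset.univ.erase i, (x j - x' j) ^ 2)) +
          K2 * B * (r⁻¹) ^ 2 * ∑ j ∈ Finset.univ.erase i, (x j - x' j) ^ 2 := by ring
      rw [a3]
      have a4 := mul_nonneg hK2n a1
      have a5 := mul_nonneg (mul_nonneg zero_le_two hK1n) a2
      linarith
    calc _ ≤ (m + 2 : ℝ) * ((2 * K1 + K2) * B * ((L⁻¹) ^ 2 + (r⁻¹) ^ 2 * ∑ j ∈ Finset.univ.erase i, (x j - x' j) ^ 2)) :=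
          mul_le_mul_of_nonneg_left e1 hm2
      _ = _ := by ring
  have f2 : b ≤ nn (m + 1) D * qf A (dd i.succ Q) := hg.trans hw
  calc (x i - x' i) ^ 2 * b ≤ (x i - x' i) ^ 2 * (nn (m + 1) D * qf A (dd i.succ Q)) :=
        mul_le_mul_of_nonneg_left f2 (sq_nonneg _)
    _ = nn (m + 1) D * ((x i - x' i) ^ 2 * qf A (dd i.succ Q)) := by ring
    _ ≤ nn (m + 1) D * ((m + 2) * (2 * K1 + K2) * B *
        ((L⁻¹) ^ 2 + (r⁻¹) ^ 2 * ∑ j ∈ Finset.univ.erase i, (x j - x' j) ^ 2)) :=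
        mul_le_mul_of_nonneg_left f1 (by linarith)
    _ = _ := by
        unfold Czv
        ring

end

end Pool.Agent.Helper48.LIP
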