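import Pool.Agent.Helper14.MC.Cabs
import Pool.Agent.Helper59.EV.Cap

/-! VOLUME COUNT for forms of points `(t, P)`: the number of digits of `P` over a base which knows the form and the
height up to `2 ^ (-n)`. -/

set_option autoImplicit false

namespace Pool.Agent.Helper48.LIP

open Finset Filter Topology MvPolynomial MeasureTheory Matrix Pool.Agent.Helper69.RK
open Pool.Agent.Helper31.EC Pool.Agent.Helper31.EC.Sp Pool.Agent.Helper95.LF
open Pool.Agent.Helper3.LF Pool.Agent.Helper89.LX Pool.Agent.Helper40.EL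
open Pool.Agent.Helper59.EV (sum_split_le dl_sq_inv)
open Pool.Agent.Helper48.NS (GG cU cU_one one_le_GG GG_le_phi cJ_one cJ GG_comp exists_fam)

noncomputable section

/-- the point -/
def cpt {q : ℕ} (τ : ℝ) (P : Fin q → ℝ) : Fin (q + 1) → ℝ := Fin.cons τ P

theorem cpt_zero {q : ℕ} (τ : ℝ) (P : Fin q → ℝ) : cpt τ P 0 = τ := rfl

theorem cpt_succ {q : ℕ} (τ : ℝ) (P : Fin q → ℝ) (i : Fin q) : cpt τ P i.succ = P i := rfl

theorem cpt_close {q : ℕ} (τ τ' : ℝ) (P P' : Fin q → ℝ) (r : ℝ) (h0 : |τ' - τ| ≤ r) (h : ∀ i, |P' i - P i| ≤ r)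
    (i : Fin (q + 1)) : |cpt τ' P' i - cpt τ P i| + r ≤ 2 * r := by
  refine Fin.cases ?_ (fun j => ?_) i
  · rw [cpt_zero, cpt_zero]
    linarith
  · rw [cpt_succ, cpt_succ]
    have := h j
    linarith

/-- the exponent of the gradient determinant -/
def tex {S : Sp} {q D : ℕ} (y : S.VV q) (τ : ∀ k, (S.F k).Ω → ℝ)
    (A : ∀ k, (S.F k).Ω → Matrix (Mon (q + 1) D) (Mon (q + 1) D) ℝ) (k : ℕ) (ω : (S.F k).Ω) : ℝ :=
  Real.logb 2 (GG (S.dl 1 k) (A k ω) (cpt (τ k ω) (y.v k ω))) / (2 * (S.F k).n)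

section C

variable {S : Sp} {q D : ℕ} (y : S.VV q) (τ : ∀ k, (S.F k).Ω → ℝ)
    (A : ∀ k, (S.F k).Ω → Matrix (Mon (q + 1) D) (Mon (q + 1) D) ℝ)

theorem tex_nonneg (C : ℝ) (hA : ∀ᶠ k in UF, ∀ ω, (S.F k).μ ω ≠ 0 → Cpd (2 ^ (C * (S.F k).n)) (A k ω)) :
    ∀ᶠ k in UF, ∀ ω, (S.F k).μ ω ≠ 0 → 0 ≤ tex y τ A k ω := by
  filter_upwards [hA] with k hk ω hω
  have h1 := one_le_GG (S.dl 1 k) (hk ω hω).1 (hk ω hω).psd.2 (cpt (τ k ω) (y.v k ω))
  exact div_nonneg (Real.logb_nonneg (by norm_num) h1) (mul_nonneg (by norm_num) (S.F k).pos.le)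

theorem tex_up (C : ℝ) (hA : ∀ᶠ k in UF, ∀ ω, (S.F k).μ ω ≠ 0 → Cpd (2 ^ (C * (S.F k).n)) (A k ω)) :
    ∀ᶠ k in UF, ∀ ω, (S.F k).μ ω ≠ 0 → ∀ B : ℝ, 0 < B →
      cU q D * phi (S.dl 1 k) (A k ω) (cpt (τ k ω) (y.v k ω)) ≤ B →
      tex y τ A k ω ≤ q + q * (Real.logb 2 B / (S.F k).n) := by
  have hcU := cU_one q D
  filter_upwards [hA] with k hk ω hω B hB hB'
  have hn := (S.F k).pos
  have h1 := one_le_GG (S.dl 1 k) (hk ω hω).1 (hk ω hω).psd.2 (cpt (τ k ω) (y.v k ω))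
  have h2 := one_le_phi (A k ω) (hk ω hω).2.1 (S.dl 1 k) (cpt (τ k ω) (y.v k ω))
  have h3 := GG_le_phi (S.dl 1 k) (S.dl_pos 1 k) (dl_one_le S k) (A k ω) (hk ω hω).pdM _ h2
  rw [dl_sq_inv] at h3
  have h4 : cU q D * (2 ^ (2 * (S.F k).n) * phi (S.dl 1 k) (A k ω) (cpt (τ k ω) (y.v k ω))) ≤
      2 ^ (2 * (S.F k).n) * B := by
    have := mul_le_mul_of_nonneg_left hB' (show (0 : ℝ) ≤ 2 ^ (2 * (S.F k).n) by positivity)
    linarith
  have h5 : GG (S.dl 1 k) (A k ω) (cpt (τ k ω) (y.v k ω)) ≤ (2 ^ (2 * (S.F k).n) * B) ^ q := by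
    refine h3.trans (pow_le_pow_left₀ ?_ h4 q)
    have : (0 : ℝ) < 2 ^ (2 * (S.F k).n) := by positivity
    have h6 : 0 ≤ 2 ^ (2 * (S.F k).n) * phi (S.dl 1 k) (A k ω) (cpt (τ k ω) (y.v k ω)) :=
      mul_nonneg this.le (by linarith)
    exact mul_nonneg (by linarith) h6
  have h6 := Real.logb_le_logb_of_le (b := 2) (by norm_num) (by linarith) h5
  rw [Real.logb_pow, Real.logb_mul (by positivity) hB.ne', Real.logb_rpow (by norm_num) (by norm_num)] at h6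
  unfold tex
  rw [div_le_iff₀ (by positivity)]
  have e1 : (q + q * (Real.logb 2 B / (S.F k).n)) * (2 * (S.F k).n) = 2 * q * (S.F k).n + 2 * (q * Real.logb 2 B) := by
    field_simp
  rw [e1]
  have hBl : 0 ≤ q * Real.logb 2 B := by
    apply mul_nonneg (Nat.cast_nonneg q)
    apply Real.logb_nonneg (by norm_num)
    have : 1 * 1 ≤ cU q D * phi (S.dl 1 k) (A k ω) (cpt (τ k ω) (y.v k ω)) :=
      mul_le_mul hcU h2 zero_le_one (by linarith)
    linarith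
  linarith

theorem tex_bd (C : ℝ) (hA : ∀ᶠ k in UF, ∀ ω, (S.F k).μ ω ≠ 0 → Cpd (2 ^ (C * (S.F k).n)) (A k ω))
    (hτ : ∃ K : ℕ → ℝ, S.Sub K ∧ ∀ᶠ k in UF, ∀ ω, (S.F k).μ ω ≠ 0 → |τ k ω| ≤ K k) :
    ∀ᶠ k in UF, ∀ ω, (S.F k).μ ω ≠ 0 → tex y τ A k ω ≤ (C + 3) * q := by
  have hcU := cU_one q D
  obtain ⟨K1, hK1, hb⟩ := y.bd
  obtain ⟨K2, hK2, hb2⟩ := hτ
  have hnn := nn_one (q + 1) D
  have hsub : S.Sub (fun k => cU q D * (nn (q + 1) D * Fintype.card (Mon (q + 1) D) *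
      ((K1 k + K2 k) + 1) ^ (2 * D))) := by
    have h0 : (0 : ℝ) ≤ nn (q + 1) D * Fintype.card (Mon (q + 1) D) := by positivity
    exact (S.Sub_const (by linarith)).mul
      ((S.Sub_const h0).mul (Sub_pow' ((hK1.add hK2).add (S.Sub_const zero_le_one)) _))
  filter_upwards [tex_up y τ A C hA, hA, hb, hsub.eventually_le one_pos, hK1.1, hb2, hK2.1] with
    k h1 h2 h3 h4 h5 h3' h5' ω hω
  have hn := (S.F k).pos
  have h6 := phi_le (A k ω) (2 ^ (C * (S.F k).n)) (h2 ω hω).2.2 (by positivity) (S.dl 1 k) ((K1 k + K2 k) + 1)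
    (S.dl_pos 1 k).le (by linarith) (cpt (τ k ω) (y.v k ω))
    (fun i => by
      have a1 := dl_one_le S k
      refine Fin.cases ?_ (fun j => ?_) i
      · have := h3' ω hω
        rw [cpt_zero]
        linarith
      · have := h3 ω hω j
        rw [cpt_succ]
        linarith)
  have h7 := h1 ω hω (2 ^ (1 * (S.F k).n) * 2 ^ (C * (S.F k).n)) (by positivity) (by
    have h8 := mul_le_mul_of_nonneg_left h6 (show 0 ≤ cU q D by linarith)
    refine h8.trans ?_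
    have h9 : cU q D * (nn (q + 1) D * Fintype.card (Mon (q + 1) D) * ((K1 k + K2 k) + 1) ^ (2 * D)) ≤
        2 ^ (1 * (S.F k).n) := by
      linarith
    calc cU q D * (nn (q + 1) D * Fintype.card (Mon (q + 1) D) * ((K1 k + K2 k) + 1) ^ (2 * D) *
        2 ^ (C * (S.F k).n)) =
        (cU q D * (nn (q + 1) D * Fintype.card (Mon (q + 1) D) * ((K1 k + K2 k) + 1) ^ (2 * D))) *
          2 ^ (C * (S.F k).n) := by ring
      _ ≤ _ := mul_le_mul_of_nonneg_right h9 (by positivity))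
  rw [← Real.rpow_add (by norm_num), Real.logb_rpow (by norm_num) (by norm_num)] at h7
  have e2 : (1 * (S.F k).n + C * (S.F k).n) / (S.F k).n = 1 + C := by field_simp
  rw [e2] at h7
  refine h7.trans ?_
  have : (0 : ℝ) ≤ q := Nat.cast_nonneg q
  nlinarith

theorem tex_UB (C : ℝ) (hA : ∀ᶠ k in UF, ∀ ω, (S.F k).μ ω ≠ 0 → Cpd (2 ^ (C * (S.F k).n)) (A k ω))
    (hτ : ∃ K : ℕ → ℝ, S.Sub K ∧ ∀ᶠ k in UF, ∀ ω, (S.F k).μ ω ≠ 0 → |τ k ω| ≤ K k) :
    UB (fun k => ∑ ω, (S.F k).μ ω * tex y τ A k ω) := by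
  apply UB_of_nonneg_le (C := (C + 3) * q)
  · filter_upwards [tex_nonneg y τ A C hA] with k hk
    apply Finset.sum_nonneg
    intro ω _
    by_cases h0 : (S.F k).μ ω = 0
    · rw [h0, zero_mul]
    · exact mul_nonneg ((S.F k).nn ω) (hk ω h0)
  · filter_upwards [tex_bd y τ A C hA hτ] with k hk
    exact sum_mul_le _ _ hk

/-- COUNT IN REGULAR VOLUME AT KNOWN HEIGHT -/
theorem CNT_t (hD : 1 ≤ D) (C : ℝ) (hC : 0 ≤ C)
    (hA : ∀ᶠ k in UF, ∀ ω, (S.F k).μ ω ≠ 0 → Cpd (2 ^ (C * (S.F k).n)) (A k ω))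
    (hZ : ∀ᶠ k in UF, ∀ ω ω', (S.F k).μ ω ≠ 0 → (S.F k).μ ω' ≠ 0 → (S.F k).Z ω ω' →
      A k ω = A k ω' ∧ τ k ω = τ k ω')
    (hτ : ∃ K : ℕ → ℝ, S.Sub K ∧ ∀ᶠ k in UF, ∀ ω, (S.F k).μ ω ≠ 0 → |τ k ω| ≤ K k)
    (E : ∀ k, (S.F k).Ω → Prop) (hE : Typ E) (K0 : ℕ → ℝ) (hK0 : S.Sub K0)
    (hφE : ∀ᶠ k in UF, ∀ ω, (S.F k).μ ω ≠ 0 → E k ω → phi (S.dl 1 k) (A k ω) (cpt (τ k ω) (y.v k ω)) ≤ K0 k) :
    H (y.dg 1) ≤ q - ul (fun k => ∑ ω, (S.F k).μ ω * tex y τ A k ω) := by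
  have hcU := cU_one q D
  have hPd : ∀ᶠ k in UF, ∀ ω, (S.F k).μ ω ≠ 0 → PdM (A k ω) := by
    filter_upwards [hA] with k hk ω hω using (hk ω hω).pdM
  set M' : ℝ := (C + 3) * q with hM'
  have hM'0 : 0 ≤ M' := by positivity
  have hg0 := tex_nonneg y τ A C hA
  have hup := tex_up y τ A C hA
  have hgM := tex_bd y τ A C hA hτ
  set σ : ∀ k, (S.F k).Ω → ℝ := fun k ω => min (q : ℝ) (max 0 (tex y τ A k ω)) with hσd
  have hK0' : S.Sub (fun k => K0 k + 1) := hK0.add (S.Sub_const zero_le_one)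
  have hend := Pool.Agent.Helper14.MC.CNT_abs y 1 zero_le_one
    (fun k ω P => phi (S.dl 1 k) (A k ω) (cpt (τ k ω) P))
    (fun k ω P => GG (S.dl 1 k) (A k ω) (cpt (τ k ω) P)) ?_ ?_ ?_ E hE (fun k => K0 k + 1) hK0' σ ?_ ?_ ?_ ?_
  rotate_left
  · have hCu := Cu_one D
    have hCm := Cm_one (q + 1) D
    have hnn := nn_one (q + 1) D
    have hcJ := cJ_one q D
    refine ⟨fun k => nn (q + 1) D * (Cu D * Cm (q + 1) D * 2 ^ D) ^ 2 + cJ q D ^ q * 2 ^ (2 * D * q), ?_, ?_⟩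
    · exact S.Sub_const (by positivity)
    · filter_upwards [hPd] with k hk ω hω p p' hp
      have hδ := S.dl_pos 1 k
      have h1 := phi_comp (A k ω) (hk ω hω) (S.dl 1 k) (S.dl 1 k) 2 hδ hδ.le (by norm_num)
        (cpt (τ k ω) p) (cpt (τ k ω) p') (cpt_close _ _ _ _ _ (by rw [sub_self, abs_zero]; exact hδ.le) hp)
      have h2 := GG_comp (A k ω) (hk ω hω) (S.dl 1 k) (S.dl 1 k) 2 hδ hδ.le (by norm_num)
        (cpt (τ k ω) p') (cpt (τ k ω) p) (cpt_close _ _ _ _ _ (by rw [sub_self, abs_zero]; exact hδ.le) (by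
        intro i
        have := hp i
        rw [abs_sub_comm] at this
        exact this))
      have h3 := phi_nonneg (S.dl 1 k) (hk ω hω).nonneg (cpt (τ k ω) p)
      have h4 := one_le_GG (S.dl 1 k) (hk ω hω).1 (hk ω hω).nonneg (cpt (τ k ω) p')
      have h5 : 0 ≤ cJ q D ^ q * 2 ^ (2 * D * q) := by positivity
      have h6 : 0 ≤ nn (q + 1) D * (Cu D * Cm (q + 1) D * 2 ^ D) ^ 2 := by positivity
      constructor
      · refine h1.trans (mul_le_mul_of_nonneg_right ?_ h3)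
        linarith
      · refine h2.trans (mul_le_mul_of_nonneg_right ?_ (by linarith))
        linarith
  · refine ⟨|Pool.Agent.Helper38.NS.areaC (Fintype.card (Fin q ⊕ (Mon (q + 1) D × (Fin (q + 1) → Fin (D + 1))))) q D| + 1,
      by positivity, ?_⟩
    filter_upwards [hA] with k hk ω hω ρ g hρ hg
    obtain ⟨f, hf1, hf2, hf3⟩ := exists_fam hD (S.dl 1 k) (τ k ω) (A k ω) (hk ω hω).1 (hk ω hω).2.1
    have h1 := Pool.Agent.Helper38.NS.area D f hf1 ρ g hρ.le hg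
    refine (measure_mono ?_).trans (h1.trans ?_)
    · rintro P ⟨h2, h3⟩
      refine ⟨fun w => (hf2 P w).trans ?_, ?_⟩
      · have h4 := Real.sqrt_le_sqrt h2
        rwa [Real.sqrt_sq hρ.le] at h4
      · show g ^ 2 ≤ (Matrix.of fun a b => ∑ w, eval P (pderiv a (f w)) * eval P (pderiv b (f w))).det
        rw [hf3]
        exact h3
    · apply ENNReal.ofReal_le_ofReal
      apply div_le_div_of_nonneg_right _ hg.le
      apply mul_le_mul_of_nonneg_right _ (by positivity)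
      have := le_abs_self (Pool.Agent.Helper38.NS.areaC (Fintype.card (Fin q ⊕ (Mon (q + 1) D × (Fin (q + 1) → Fin (D + 1))))) q D)
      linarith
  · filter_upwards [hZ] with k hk ω ω' h1 h2 h3
    obtain ⟨e1, e2⟩ := hk ω ω' h1 h2 h3
    constructor
    · funext P
      rw [e1, e2]
    · funext P
      rw [e1, e2]
  · refine Eventually.of_forall fun k ω _ => ⟨le_min (Nat.cast_nonneg q) (le_max_left _ _), ?_⟩
    rw [mul_one]
    exact min_le_left _ _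
  · filter_upwards [hPd] with k hk ω hω
    have := one_le_GG (S.dl 1 k) (hk ω hω).1 (hk ω hω).nonneg (cpt (τ k ω) (y.v k ω))
    linarith
  · filter_upwards [hφE] with k hk ω hω hEω
    have := hk ω hω hEω
    linarith
  · filter_upwards [hA, hK0.1, hg0] with k hk h0 hg ω hω _
    have hn := (S.F k).pos
    have h1 := one_le_GG (S.dl 1 k) (hk ω hω).1 (hk ω hω).psd.2 (cpt (τ k ω) (y.v k ω))
    have h2 : σ k ω ≤ tex y τ A k ω := by
      rw [hσd]
      beta_reduce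
      rw [max_eq_right (hg ω hω)]
      exact min_le_right _ _
    have h3 : (2 : ℝ) ^ (2 * σ k ω * (S.F k).n) ≤ GG (S.dl 1 k) (A k ω) (cpt (τ k ω) (y.v k ω)) := by
      rw [← Real.le_logb_iff_rpow_le (by norm_num) (by linarith)]
      unfold tex at h2
      rw [le_div_iff₀ (by positivity)] at h2
      linarith
    refine h3.trans ?_
    have h4 : 0 < GG (S.dl 1 k) (A k ω) (cpt (τ k ω) (y.v k ω)) := by linarith
    nlinarith
  -- comparison
  rw [mul_one] at hend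
  refine hend.trans ?_
  have hσU : UB (fun k => ∑ ω, (S.F k).μ ω * σ k ω) := by
    apply UB_of_nonneg_le (C := q)
    · exact Eventually.of_forall fun k => Finset.sum_nonneg fun ω _ =>
        mul_nonneg ((S.F k).nn ω) (le_min (Nat.cast_nonneg q) (le_max_left _ _))
    · exact Eventually.of_forall fun k => sum_mul_le _ _ fun ω _ => min_le_left _ _
  have hgU := tex_UB y τ A C hA hτ
  set ee : ℕ → ℝ := fun k => q * (Real.logb 2 (cU q D * (K0 k + 1) + 2) / (S.F k).n) +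
    M' * mass (res (S.F k).μ (fun ω => ¬ E k ω)) with hee
  have hee0 : Tendsto ee UF (𝓝 0) := by
    have h1 : S.Sub (fun k => cU q D * (K0 k + 1)) := (S.Sub_const (by linarith)).mul hK0'
    have h2 := (h1.2.const_mul (q : ℝ)).add (hE.const_mul M')
    simpa using h2
  have hle : ∀ᶠ k in UF, ∑ ω, (S.F k).μ ω * tex y τ A k ω ≤ ∑ ω, (S.F k).μ ω * σ k ω + ee k := by
    filter_upwards [hup, hgM, hg0, hφE, hK0.1] with k h1 h2 h3 h4 h5
    have hn := (S.F k).pos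
    have hlog : 0 ≤ Real.logb 2 (cU q D * (K0 k + 1) + 2) / (S.F k).n := by
      apply div_nonneg _ hn.le
      apply Real.logb_nonneg (by norm_num)
      have : 0 ≤ cU q D * (K0 k + 1) := mul_nonneg (by linarith) (by linarith)
      linarith
    have h6 := sum_split_le (F := S.F k) (fun ω => tex y τ A k ω - σ k ω) (E k)
      (q * (Real.logb 2 (cU q D * (K0 k + 1) + 2) / (S.F k).n)) M' (mul_nonneg (Nat.cast_nonneg q) hlog) hM'0 (by
        intro ω hω hEω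
        have h7 := h1 ω hω (cU q D * (K0 k + 1) + 2) (by
          have : 0 ≤ cU q D * (K0 k + 1) := mul_nonneg (by linarith) (by linarith)
          linarith) (by
          have h8 := mul_le_mul_of_nonneg_left (h4 ω hω hEω) (show 0 ≤ cU q D by linarith)
          nlinarith)
        have h9 : σ k ω = min (q : ℝ) (tex y τ A k ω) := by
          rw [hσd]
          beta_reduce
          rw [max_eq_right (h3 ω hω)]
        rw [h9]
        rcases le_total (q : ℝ) (tex y τ A k ω) with h | h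
        · rw [min_eq_left h]
          linarith
        · rw [min_eq_right h, sub_self]
          exact mul_nonneg (Nat.cast_nonneg q) hlog) (by
        intro ω hω
        have h7 := h2 ω hω
        have h8 : 0 ≤ σ k ω := le_min (Nat.cast_nonneg q) (le_max_left _ _)
        linarith)
    have e3 : ∑ ω, (S.F k).μ ω * (tex y τ A k ω - σ k ω) =
        ∑ ω, (S.F k).μ ω * tex y τ A k ω - ∑ ω, (S.F k).μ ω * σ k ω := by
      rw [← Finset.sum_sub_distrib]
      exact Finset.sum_congr rfl fun ω _ => by ring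
    rw [e3] at h6
    rw [hee]
    beta_reduce
    linarith
  have h1 := ul_tendsto hσU
  have h2 := ul_tendsto hgU
  have h3 := h1.add hee0
  rw [add_zero] at h3
  have h4 := le_of_tendsto_of_tendsto h2 h3 hle
  linarith

end C

/-- a sequence of finite spaces over a base, as a space of the calculus -/
def csp (T : ℕ → FSp) (lim : Tendsto (fun k => (T k).n) UF atTop) (Z : ∀ k, Setoid (T k).Ω) : Sp where
  F := fun k => (T k).chg (Z k) 1 one_pos
  lim := by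
    have h1 : (fun k => ((T k).chg (Z k) 1 one_pos).n) = fun k => (T k).n := by
      funext k
      show 1 * (T k).n = _
      rw [one_mul]
    rw [h1]
    exact lim

section M

variable {S : Sp} (T : ℕ → FSp) (hn : ∀ k, (T k).n = (S.F k).n)

include hn in
theorem T_lim : Tendsto (fun k => (T k).n) UF atTop := by
  have h1 : (fun k => (T k).n) = fun k => (S.F k).n := funext hn
  rw [h1]
  exact S.lim

theorem csp_n (Z : ∀ k, Setoid (T k).Ω) (k : ℕ) : ((csp T (T_lim T hn) Z).F k).n = (S.F k).n := by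
  show 1 * (T k).n = _
  rw [one_mul, hn]

theorem csp_Sub (Z : ∀ k, Setoid (T k).Ω) {K : ℕ → ℝ} (hK : S.Sub K) : (csp T (T_lim T hn) Z).Sub K := by
  refine ⟨hK.1, ?_⟩
  have h1 : (fun k => Real.logb 2 (K k + 2) / ((csp T (T_lim T hn) Z).F k).n) =
      fun k => Real.logb 2 (K k + 2) / (S.F k).n := by
    funext k
    rw [csp_n T hn]
  rw [h1]
  exact hK.2

theorem csp_dl (Z : ∀ k, Setoid (T k).Ω) (r : ℝ) (k : ℕ) : (csp T (T_lim T hn) Z).dl r k = S.dl r k := by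
  unfold Sp.dl
  rw [csp_n T hn]

/-- a tame variable of the space, on the extension -/
def cvv (π : ∀ k, (T k).Ω → (S.F k).Ω) (hsupp : ∀ k ω, (T k).μ ω ≠ 0 → (S.F k).μ (π k ω) ≠ 0)
    (Z : ∀ k, Setoid (T k).Ω) {q : ℕ} (y : S.VV q) : (csp T (T_lim T hn) Z).VV q where
  v := fun k ω => y.v k (π k ω)
  bd := by
    obtain ⟨K, hK, hb⟩ := y.bd
    refine ⟨K, csp_Sub T hn Z hK, ?_⟩
    filter_upwards [hb] with k hk ω hω
    exact hk _ (hsupp k ω hω)

/-- entropies over the base -/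
theorem csp_rt (Z A : ∀ k, Setoid (T k).Ω) (k : ℕ) :
    (csp T (T_lim T hn) Z).rt A (csp T (T_lim T hn) Z).tr k = h (fc (A k)) (fc (Z k)) / (S.F k).n := by
  unfold Sp.rt
  rw [csp_n T hn, h_fc]
  congr 1
  show (T k).e (A k) (⊤ ⊓ ((T k).chg (Z k) 1 one_pos).Z) = _
  apply (T k).e_congr_right
  intro ω ω' _ _
  constructor
  · intro h1
    exact h1.2
  · intro h1
    exact ⟨trivial, h1⟩

include hn in
/-- VOLUME COUNT -/
theorem mcnt {q D : ℕ} (hD : 1 ≤ D) (s : Sys S q) (π : ∀ k, (T k).Ω → (S.F k).Ω)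
    (hsupp : ∀ k ω, (T k).μ ω ≠ 0 → (S.F k).μ (π k ω) ≠ 0) (V : ∀ k, Setoid (T k).Ω)
    (g : ∀ k, (T k).Ω → Matrix (Mon (q + 1) D) (Mon (q + 1) D) ℝ)
    (meas : ∀ᶠ k in UF, ∀ ω ω', (T k).μ ω ≠ 0 → (T k).μ ω' ≠ 0 → V k ω ω' → (T k).Z ω ω' → g k ω = g k ω')
    (C : ℝ) (hC : 0 ≤ C) (hg : ∀ᶠ k in UF, ∀ ω, (T k).μ ω ≠ 0 → Cpd (2 ^ (C * (S.F k).n)) (g k ω)) (a : ℝ)
    (hφ : ∀ e : ℝ, 0 < e → ∀ᶠ k in UF, (T k).pb (fun ω => ¬ phi (S.dl 1 k) (g k ω) (ptf s k (π k ω)) ≤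
      2 ^ ((2 * a + e) * (S.F k).n)) ≤ e) (e : ℝ) (he : 0 < e) :
    ∀ᶠ k in UF, h (fc (Setoid.comap (π k) ((s.fin k).kP 1))) (fc (V k) ⊔ fc (Setoid.comap (π k) ((s.fin k).kt 1))) ≤
      (q + q * a + e) * (S.F k).n -
        1 / 2 * ∑ ω, (T k).μ ω * Real.logb 2 (GG (S.dl 1 k) (g k ω) (ptf s k (π k ω))) := by
  classical
  have hS1 : ∀ᶠ k in UF, 1 ≤ (S.F k).n := S.lim.eventually (eventually_ge_atTop 1)
  -- the size of the form is at least one
  have ha : 0 ≤ a := by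
    by_contra hcon
    rw [not_le] at hcon
    have h1 : 0 < min (-a) (1 / 2) := lt_min (by linarith) (by norm_num)
    obtain ⟨k, h2, h3⟩ := ((hφ _ h1).and hg).exists
    have hn0 := (S.F k).pos
    have h4 : (T k).pb (fun _ => True) ≤ (T k).pb (fun ω => ¬ phi (S.dl 1 k) (g k ω) (ptf s k (π k ω)) ≤
        2 ^ ((2 * a + min (-a) (1 / 2)) * (S.F k).n)) := by
      apply (T k).pb_mono
      intro ω hω _
      rw [not_le]
      have h5 := one_le_phi (g k ω) (h3 ω hω).2.1 (S.dl 1 k) (ptf s k (π k ω))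
      refine lt_of_lt_of_le ?_ h5
      apply Real.rpow_lt_one_of_one_lt_of_neg (by norm_num)
      have h6 : 2 * a + min (-a) (1 / 2) < 0 := by
        have := min_le_left (-a) (1 / 2)
        linarith
      exact mul_neg_of_neg_of_pos h6 hn0
    have h5 := (T k).pb_add_compl (fun _ => True)
    have h6 : (T k).pb (fun ω => ¬ True) ≤ 0 := by
      have h7 : ∀ ω, res (T k).μ (fun _ => ¬ True) ω = 0 := by
        intro ω
        unfold res
        rw [if_neg (by simp)]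
      show ∑ ω, res (T k).μ (fun _ => ¬ True) ω ≤ 0
      rw [Finset.sum_congr rfl (fun ω _ => h7 ω)]
      simp
    have h8 := min_le_right (-a) (1 / 2)
    linarith
  set e' : ℝ := e / (2 * (q + 1)) with he'
  have he'0 : 0 < e' := by positivity
  set Z : ∀ k, Setoid (T k).Ω := fun k => V k ⊓ Setoid.comap (π k) ((s.fin k).kt 1) with hZd
  set X : Sp := csp T (T_lim T hn) Z with hX
  have hXn : ∀ k, (X.F k).n = (S.F k).n := csp_n T hn Z
  have hXd : ∀ k, X.dl 1 k = S.dl 1 k := csp_dl T hn Z 1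
  set y : X.VV q := cvv T hn π hsupp Z s.P with hy
  set τ : ∀ k, (T k).Ω → ℝ := fun k ω => ⌊s.t.v k (π k ω) 0 / S.dl 1 k⌋ * S.dl 1 k with hτd
  have hτ1 : ∀ k ω, |τ k ω - s.t.v k (π k ω) 0| ≤ S.dl 1 k := by
    intro k ω
    have hδ := S.dl_pos 1 k
    have f1 := Int.floor_le (s.t.v k (π k ω) 0 / S.dl 1 k)
    have f2 := Int.lt_floor_add_one (s.t.v k (π k ω) 0 / S.dl 1 k)
    rw [le_div_iff₀ hδ] at f1
    rw [div_lt_iff₀ hδ] at f2
    rw [hτd]
    beta_reduce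
    rw [abs_le]
    constructor <;> nlinarith
  set lam : ℕ → ℝ := fun k => 2 ^ ((2 * a + e') * (S.F k).n) with hlam
  have hlam0 : ∀ k, 0 < lam k := fun k => by positivity
  have hlam1 : ∀ k, 1 ≤ lam k := by
    intro k
    apply Real.one_le_rpow (by norm_num)
    have := (S.F k).pos
    positivity
  set A : ∀ k, (T k).Ω → Matrix (Mon (q + 1) D) (Mon (q + 1) D) ℝ := fun k ω => 1 + (lam k)⁻¹ • g k ω with hAd
  have hqA : ∀ k ω v, v ⬝ᵥ (A k ω *ᵥ v) = v ⬝ᵥ v + (lam k)⁻¹ * (v ⬝ᵥ (g k ω *ᵥ v)) := by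
    intro k ω v
    rw [hAd]
    beta_reduce
    rw [dv_add, dv_smul, Matrix.one_mulVec]
  have hsy : ∀ᶠ k in UF, ∀ ω, (T k).μ ω ≠ 0 → (A k ω).IsSymm := by
    filter_upwards [hg] with k hk ω hω
    have h1 := (hk ω hω).1
    show (1 + (lam k)⁻¹ • g k ω).transpose = _
    rw [Matrix.transpose_add, Matrix.transpose_smul, Matrix.transpose_one, h1.eq]
  have hcpd' : ∀ᶠ k in UF, ∀ ω, (T k).μ ω ≠ 0 → Cpd (2 ^ ((C + 1) * (S.F k).n)) (A k ω) := by
    filter_upwards [hg, hsy, hS1] with k hk hk2 hk1 ω hω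
    have h1 := hk ω hω
    refine ⟨hk2 ω hω, fun v => ?_, fun v => ?_⟩
    · show v ⬝ᵥ v ≤ v ⬝ᵥ (A k ω *ᵥ v)
      rw [hqA]
      have h2 : 0 ≤ v ⬝ᵥ (g k ω *ᵥ v) := h1.psd.2 v
      have h3 : 0 ≤ (lam k)⁻¹ * (v ⬝ᵥ (g k ω *ᵥ v)) := mul_nonneg (inv_nonneg.mpr (hlam0 k).le) h2
      linarith
    · show v ⬝ᵥ (A k ω *ᵥ v) ≤ _ * (v ⬝ᵥ v)
      rw [hqA]
      have h2 : v ⬝ᵥ (g k ω *ᵥ v) ≤ 2 ^ (C * (S.F k).n) * (v ⬝ᵥ v) := h1.2.2 v
      have h3 : 0 ≤ v ⬝ᵥ (g k ω *ᵥ v) := h1.psd.2 v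
      have h4 : (lam k)⁻¹ ≤ 1 := inv_le_one_of_one_le₀ (hlam1 k)
      have h5 : (lam k)⁻¹ * (v ⬝ᵥ (g k ω *ᵥ v)) ≤ 1 * (v ⬝ᵥ (g k ω *ᵥ v)) := mul_le_mul_of_nonneg_right h4 h3
      have h6 := dot_self_nonneg v
      have h7 : (1 : ℝ) ≤ 2 ^ (C * (S.F k).n) := Real.one_le_rpow (by norm_num) (by positivity)
      have h8 : (2 : ℝ) ≤ 2 ^ (S.F k).n := by
        calc (2 : ℝ) = 2 ^ (1 : ℝ) := (Real.rpow_one 2).symm
          _ ≤ _ := Real.rpow_le_rpow_of_exponent_le (by norm_num) hk1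
      have h9 : (1 + 2 ^ (C * (S.F k).n) : ℝ) ≤ 2 ^ ((C + 1) * (S.F k).n) := by
        rw [add_mul, one_mul, Real.rpow_add (by norm_num)]
        nlinarith
      nlinarith
  have hcpd : ∀ᶠ k in UF, ∀ ω, (X.F k).μ ω ≠ 0 → Cpd (2 ^ ((C + 1) * (X.F k).n)) (A k ω) := by
    filter_upwards [hcpd'] with k hk ω hω
    rw [hXn]
    exact hk ω hω
  have hbase : ∀ᶠ k in UF, ∀ ω ω', (X.F k).μ ω ≠ 0 → (X.F k).μ ω' ≠ 0 → (X.F k).Z ω ω' →
      A k ω = A k ω' ∧ τ k ω = τ k ω' := by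
    filter_upwards [meas] with k hk ω ω' h1 h2 h3
    have h4 : (V k ⊓ Setoid.comap (π k) ((s.fin k).kt 1)) ω ω' := h3.1
    have h5 : (T k).Z ω ω' := h3.2
    have h6 := hk ω ω' h1 h2 h4.1 h5
    have h7 : Sp.cell (S.dl 1 k) (s.t.v k (π k ω)) = Sp.cell (S.dl 1 k) (s.t.v k (π k ω')) := h4.2
    have h8 := congrFun h7 0
    constructor
    · rw [hAd]
      beta_reduce
      rw [h6]
    · rw [hτd]
      beta_reduce
      have h9 : ⌊s.t.v k (π k ω) 0 / S.dl 1 k⌋ = ⌊s.t.v k (π k ω') 0 / S.dl 1 k⌋ := h8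
      rw [h9]
  have hτt : ∃ K : ℕ → ℝ, X.Sub K ∧ ∀ᶠ k in UF, ∀ ω, (X.F k).μ ω ≠ 0 → |τ k ω| ≤ K k := by
    obtain ⟨K, hK, hb⟩ := s.t.bd
    refine ⟨fun k => K k + 1, csp_Sub T hn Z (hK.add (S.Sub_const zero_le_one)), ?_⟩
    filter_upwards [hb] with k hk ω hω
    have h1 := hk _ (hsupp k ω hω) 0
    have h2 := hτ1 k ω
    have h3 := dl_one_le S k
    have h4 := abs_add_le (τ k ω - s.t.v k (π k ω) 0) (s.t.v k (π k ω) 0)
    rw [sub_add_cancel] at h4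
    linarith
  have hpt : ∀ k ω i, |cpt (τ k ω) (y.v k ω) i - ptf s k (π k ω) i| + S.dl 1 k ≤ 2 * S.dl 1 k := by
    intro k ω
    exact cpt_close _ _ _ _ _ (hτ1 k ω) (fun i => by
      have h1 : y.v k ω i - (fun i => s.a.v k (π k ω) i + s.t.v k (π k ω) 0 * s.x.v k (π k ω) i) i = 0 := by
        have h2 : y.v k ω i = s.a.v k (π k ω) i + s.t.v k (π k ω) 0 * s.x.v k (π k ω) i := rfl
        rw [h2]
        ring
      rw [h1, abs_zero]
      exact (S.dl_pos 1 k).le)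
  have hpt' : ∀ k ω i, |ptf s k (π k ω) i - cpt (τ k ω) (y.v k ω) i| + S.dl 1 k ≤ 2 * S.dl 1 k := by
    intro k ω i
    rw [abs_sub_comm]
    exact hpt k ω i
  set E : ∀ k, (T k).Ω → Prop := fun k ω => phi (S.dl 1 k) (g k ω) (ptf s k (π k ω)) ≤ lam k with hEd
  have hE : Typ (S := X) E := by
    show Tendsto (fun k => (T k).pb (fun ω => ¬ E k ω)) UF (𝓝 0)
    rw [Metric.tendsto_nhds]
    intro η hη
    have h1 : 0 < min (η / 2) e' := lt_min (by linarith) he'0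
    filter_upwards [hφ _ h1] with k hk
    rw [Real.dist_eq, sub_zero, abs_of_nonneg (FSp.pb_nonneg _ _)]
    have h2 : (T k).pb (fun ω => ¬ E k ω) ≤ (T k).pb (fun ω => ¬ phi (S.dl 1 k) (g k ω) (ptf s k (π k ω)) ≤
        2 ^ ((2 * a + min (η / 2) e') * (S.F k).n)) := by
      apply (T k).pb_mono
      intro ω _ h3 h4
      apply h3
      refine h4.trans ?_
      apply Real.rpow_le_rpow_of_exponent_le (by norm_num)
      apply mul_le_mul_of_nonneg_right _ (S.F k).pos.le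
      have := min_le_right (η / 2) e'
      linarith
    have := min_le_left (η / 2) e'
    linarith
  obtain ⟨K1, hK1, hφ1⟩ := (gau s D).one
  have hCu := Cu_one D
  have hCm := Cm_one (q + 1) D
  have hnn := nn_one (q + 1) D
  have hcJ := cJ_one q D
  set Kc : ℝ := nn (q + 1) D * (Cu D * Cm (q + 1) D * 2 ^ D) ^ 2 with hKc
  have hKc0 : 0 ≤ Kc := by positivity
  have hmain := CNT_t y τ A hD (C + 1) (by linarith) hcpd hbase hτt E hE (fun k => Kc * (K1 k + 1))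
    (csp_Sub T hn Z ((S.Sub_const hKc0).mul (hK1.add (S.Sub_const zero_le_one)))) (by
      filter_upwards [hg, hφ1, hcpd] with k h1 h2 h3 ω hω hEω
      rw [hXd]
      have h4 := phi_comp (A k ω) (h3 ω hω).pdM (S.dl 1 k) (S.dl 1 k) 2 (S.dl_pos 1 k) (S.dl_pos 1 k).le
        (by norm_num) (ptf s k (π k ω)) (cpt (τ k ω) (y.v k ω)) (hpt k ω)
      refine h4.trans (mul_le_mul_of_nonneg_left ?_ hKc0)
      rw [hAd]
      beta_reduce
      rw [phi_add, phi_smul]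
      have h5 : phi (S.dl 1 k) (1 : Matrix (Mon (q + 1) D) (Mon (q + 1) D) ℝ) (ptf s k (π k ω)) ≤ K1 k :=
        h2 _ (hsupp k ω hω)
      have h6 := mul_le_mul_of_nonneg_left hEω (inv_nonneg.mpr (hlam0 k).le)
      rw [inv_mul_cancel₀ (hlam0 k).ne'] at h6
      linarith)
  -- from limits to the finite level
  have hUt := tex_UB y τ A (C + 1) hcpd hτt
  set fy : ℕ → ℝ := X.rt (fun k => Setoid.ker (y.cellv 1 k)) X.tr with hfy
  have hHy : H (y.dg 1) = ul fy := Sp.H_io (y.bdd 1)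
  have hUBy : UB fy := Sp.UB_rt (y.bdd 1).toInf _
  have hfyk : ∀ k, fy k = h (fc (Setoid.comap (π k) ((s.fin k).kP 1)))
      (fc (V k) ⊔ fc (Setoid.comap (π k) ((s.fin k).kt 1))) / (S.F k).n := by
    intro k
    have h1 := csp_rt T hn Z (fun k => Setoid.ker (y.cellv 1 k)) k
    have h2 : Setoid.ker (y.cellv 1 k) = Setoid.comap (π k) ((s.fin k).kP 1) := by
      ext ω ω'
      show Sp.cell (X.dl 1 k) (y.v k ω) = Sp.cell (X.dl 1 k) (y.v k ω') ↔
        Sp.cell (S.dl 1 k) (s.P.v k (π k ω)) = Sp.cell (S.dl 1 k) (s.P.v k (π k ω'))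
      rw [hXd]
      exact Iff.rfl
    have h3 : fc (F := T k) (Setoid.ker (y.cellv 1 k)) = fc (F := T k) (Setoid.comap (π k) ((s.fin k).kP 1)) :=
      congrArg (fc (F := T k)) h2
    exact h1.trans (congrArg (fun w : FL (T k) => h w (fc (F := T k) (Z k)) / (S.F k).n) h3)
  rw [hHy] at hmain
  have h1 : ul (fun k => fy k + ∑ ω, (X.F k).μ ω * tex y τ A k ω) ≤ q := by
    rw [ul_add hUBy hUt]
    linarith
  have h2 := ul_tendsto (hUBy.add hUt)
  have h3 := h2.eventually (gt_mem_nhds (show ul (fun k => fy k + ∑ ω, (X.F k).μ ω * tex y τ A k ω) < q + e / 4 by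
    linarith))
  have h4 := S.div_n_tendsto (Real.logb 2 (cJ q D ^ q * 2 ^ (2 * D * q)))
  have h5 := h4.eventually (gt_mem_nhds (show (0 : ℝ) < e / 2 by linarith))
  filter_upwards [h3, h5, hg, hcpd'] with k h6 h7 h8 h9
  have hn0 := (S.F k).pos
  rw [hfyk] at h6
  set hh := h (fc (Setoid.comap (π k) ((s.fin k).kP 1))) (fc (V k) ⊔ fc (Setoid.comap (π k) ((s.fin k).kt 1))) with hhd
  have hkJ : 0 < cJ q D ^ q * 2 ^ (2 * D * q) := by positivity
  -- comparison of the determinants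
  have h10 : ∑ ω, (T k).μ ω * (Real.logb 2 (GG (S.dl 1 k) (g k ω) (ptf s k (π k ω))) -
      2 * (S.F k).n * tex y τ A k ω) ≤ Real.logb 2 (cJ q D ^ q * 2 ^ (2 * D * q)) + q * ((2 * a + e') * (S.F k).n) := by
    apply sum_mul_le
    intro ω hω
    have a1 := GG_comp (g k ω) (h8 ω hω).pdM (S.dl 1 k) (S.dl 1 k) 2 (S.dl_pos 1 k) (S.dl_pos 1 k).le
      (by norm_num) (cpt (τ k ω) (y.v k ω)) (ptf s k (π k ω)) (hpt' k ω)
    have a2 := Pool.Agent.Helper48.NS.GG_scale (S.dl 1 k) (A k ω) (g k ω) (h9 ω hω).1 (h9 ω hω).psd.2 (h8 ω hω).1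
      (h8 ω hω).psd.2 (cpt (τ k ω) (y.v k ω)) (lam k) (hlam1 k) (by
        intro v
        rw [hqA, mul_add, ← mul_assoc, mul_inv_cancel₀ (hlam0 k).ne', one_mul]
        have := mul_nonneg (hlam0 k).le (dot_self_nonneg v)
        linarith)
    have a3 := one_le_GG (S.dl 1 k) (h8 ω hω).1 (h8 ω hω).psd.2 (ptf s k (π k ω))
    have a4 := one_le_GG (S.dl 1 k) (h9 ω hω).1 (h9 ω hω).psd.2 (cpt (τ k ω) (y.v k ω))
    have a5 : GG (S.dl 1 k) (g k ω) (ptf s k (π k ω)) ≤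
        cJ q D ^ q * 2 ^ (2 * D * q) * (lam k ^ q * GG (S.dl 1 k) (A k ω) (cpt (τ k ω) (y.v k ω))) :=
      a1.trans (mul_le_mul_of_nonneg_left a2 hkJ.le)
    have a6 := Real.logb_le_logb_of_le (b := 2) (by norm_num) (by linarith) a5
    have a7 : 0 < GG (S.dl 1 k) (A k ω) (cpt (τ k ω) (y.v k ω)) := by linarith
    have a8 := hlam0 k
    have a8q : lam k ^ q ≠ 0 := (pow_pos a8 q).ne'
    have a8l : Real.logb 2 (lam k) = (2 * a + e') * (S.F k).n := Real.logb_rpow (by norm_num) (by norm_num)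
    rw [Real.logb_mul hkJ.ne' (mul_ne_zero a8q a7.ne'), Real.logb_mul a8q a7.ne', Real.logb_pow, a8l] at a6
    have a9 : tex y τ A k ω = Real.logb 2 (GG (S.dl 1 k) (A k ω) (cpt (τ k ω) (y.v k ω))) / (2 * (S.F k).n) := by
      unfold tex
      rw [hXn, hXd]
    rw [a9]
    have a10 : 2 * (S.F k).n * (Real.logb 2 (GG (S.dl 1 k) (A k ω) (cpt (τ k ω) (y.v k ω))) / (2 * (S.F k).n)) =
        Real.logb 2 (GG (S.dl 1 k) (A k ω) (cpt (τ k ω) (y.v k ω))) := by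
      field_simp
    rw [a10]
    linarith
  have h11 : ∑ ω, (T k).μ ω * (Real.logb 2 (GG (S.dl 1 k) (g k ω) (ptf s k (π k ω))) -
      2 * (S.F k).n * tex y τ A k ω) = ∑ ω, (T k).μ ω * Real.logb 2 (GG (S.dl 1 k) (g k ω) (ptf s k (π k ω))) -
        2 * (S.F k).n * ∑ ω, (T k).μ ω * tex y τ A k ω := by
    rw [Finset.mul_sum, ← Finset.sum_sub_distrib]
    exact Finset.sum_congr rfl fun ω _ => by ring
  rw [h11] at h10
  set G := ∑ ω, (T k).μ ω * Real.logb 2 (GG (S.dl 1 k) (g k ω) (ptf s k (π k ω))) with hG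
  set U := ∑ ω, (T k).μ ω * tex y τ A k ω with hU
  have h12 : hh / (S.F k).n + U < q + e / 4 := h6
  have h13 : hh < (q + e / 4 - U) * (S.F k).n := by
    rw [← div_lt_iff₀ hn0]
    linarith
  have h14 : Real.logb 2 (cJ q D ^ q * 2 ^ (2 * D * q)) < e / 2 * (S.F k).n := by
    rw [← div_lt_iff₀ hn0]
    exact h7
  have h15 : q * e' ≤ e / 2 := by
    rw [he']
    have : (q : ℝ) * (e / (2 * (q + 1))) = (e / 2) * (q / (q + 1)) := by
      field_simp
    rw [this]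
    have h16 : (q : ℝ) / (q + 1) ≤ 1 := by
      rw [div_le_one (by positivity)]
      linarith
    nlinarith
  have h16 : q * ((2 * a + e') * (S.F k).n) ≤ (2 * (q * a) + e / 2) * (S.F k).n := by
    have := mul_le_mul_of_nonneg_right h15 hn0.le
    nlinarith
  nlinarith

end M

end

end Pool.Agent.Helper48.LIP
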