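import Pool.Agent.Helper48.LIP.R2

/-! LIP, first step: the labels `kappa_(c₀)` at two heights of a larger window `c'`. If the mutual information beyond the
first label is small, their forms agree, and `H(c', σ - C (e + D (c₀ - c')))` holds. (R^4, case A, LIP(A) step 1) -/

set_option autoImplicit false

namespace Pool.Agent.Helper48.LIP

open Finset Filter Topology Matrix Pool.Agent.Helper69.RK Pool.Agent.Helper31.EC Pool.Agent.Helper40.EL
open Pool.Agent.Helper89.LX Pool.Agent.Helper3.LF Pool.Agent.Helper48.NS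
open Pool.Agent.Helper95.LF (PdM)

noncomputable section

variable {S : Sp} {m : ℕ} (s : Sys S m)

/-- THE SIZE OF THE FORM AT THE FAR POINT, sharp form -/
theorem far_phi' {D : ℕ} {c₀ c' : ℝ} (h0 : 0 ≤ c₀) (h1 : c₀ < 1) {X : ∀ k, FD (S.F k) (Mon (m + 1) D)}
    (hX : (gau s D).Ad (cA s c₀) (cB s) X) (K : ∀ k, Setoid (X k).l.T.Ω) (hc : c' ≤ c₀) (η : ℝ) (hη : 0 < η) :
    ∀ᶠ k in UF, (pam (X k).l (K k) (cAs s c' k)).sp.pb
      (fun w => ¬ sph s D k ((X k).l.p.π w.2) ((X k).g w.1) ≤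
        2 ^ (((2 * D : ℕ) * (c₀ - c') + η) * (S.F k).n)) ≤ η := by
  have hDM : DMc s c₀ (lb X) := Gau.Ad.dm (gau s D) hX
  have hcpd : ∀ᶠ k in UF, ∀ ω, (X k).l.T.μ ω ≠ 0 → Cpd ((gau s D).cp k) ((X k).g ω) := by
    filter_upwards [hX 1 one_pos] with k hk ω hω
    exact (hk.2.2.1 ω hω).1
  obtain ⟨K1, hK1, hT1⟩ := win_phi (s := s) h0 h1 (l := lb X) hDM (fun k => (X k).g)
    (by filter_upwards [hcpd] with k hk ω hω using (hk ω hω).pdM)
    (Eventually.of_forall fun k ω ω' a b c d => ((X k).meas ω ω' a b c d).1)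
    (c₀ - c') (by linarith) (fun _ => 1) (S.Sub_const zero_le_one)
  obtain ⟨K2, hK2, hT2⟩ := ad_sub hX
  obtain ⟨Kt, hKt, ht⟩ := s.t.bd
  have hT := typ_and hT1 hT2
  have hC0 : (0 : ℝ) ≤ nn (m + 1) D * (Cu D * Cm (m + 1) D) ^ 2 := by
    have := nn_one (m + 1) D
    positivity
  have hsub : S.Sub (fun k => nn (m + 1) D * (Cu D * Cm (m + 1) D) ^ 2 * (Kt k + 2) ^ (2 * D) * (K1 k * K2 k)) :=
    ((S.Sub_const hC0).mul (Sub_powN (hKt.add (S.Sub_const zero_le_two)) _)).mul (hK1.mul hK2)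
  have hT' : Tendsto (fun k => (X k).l.T.pb (fun ω => ¬ ((∀ r, |r - s.t.v k ((X k).l.p.π ω) 0| ≤
      1 * S.dl (c₀ - (c₀ - c')) k → phi (S.dl 1 k) ((X k).g ω) (pl (s.a.v k ((X k).l.p.π ω))
      (s.x.v k ((X k).l.p.π ω)) r) ≤ K1 k * 2 ^ ((2 * D : ℕ) * (c₀ - c') * (S.F k).n) *
      sph s D k ((X k).l.p.π ω) ((X k).g ω)) ∧ sph s D k ((X k).l.p.π ω) ((X k).g ω) ≤ K2 k))) UF (𝓝 0) := hT
  filter_upwards [hT'.eventually (gt_mem_nhds hη), hcpd, ht, hKt.1, hK1.1, hK2.1,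
    hsub.eventually_le hη] with k a1 a2 a3 a4 a5 a6 a7
  have hn := (S.F k).pos
  have hd := S.dl_pos 1 k
  refine le_trans ?_ a1.le
  rw [← pb_push (pam (X k).l (K k) (cAs s c' k)).p1]
  apply FSp.pb_mono
  intro w hw hbad hE
  apply hbad
  obtain ⟨hE1, hE2⟩ := hE
  obtain ⟨w1, w2⟩ := w
  obtain ⟨hw1, hw2⟩ := pam_supp _ _ _ _ hw
  have hrel := (pam_rel _ _ _ _ hw).1.2
  obtain ⟨r1, r2, r3⟩ := cAs_close s c' k ((X k).l.p.π w1) ((X k).l.p.π w2) ((cAs s c' k).symm hrel)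
  have hμ2 := (X k).l.p.supp w2 hw2
  have hA := (a2 w1 hw1).pdM
  have e1 := hE1 (s.t.v k ((X k).l.p.π w2) 0) (by
    have : c₀ - (c₀ - c') = c' := by ring
    rw [one_mul, this]
    exact r3)
  have e2 := phi_comp ((X k).g w1) hA (S.dl 1 k) (S.dl 1 k) (Kt k + 2) hd hd.le (by linarith)
    (pl (s.a.v k ((X k).l.p.π w1)) (s.x.v k ((X k).l.p.π w1)) (s.t.v k ((X k).l.p.π w2) 0))
    (pl (s.a.v k ((X k).l.p.π w2)) (s.x.v k ((X k).l.p.π w2)) (s.t.v k ((X k).l.p.π w2) 0)) (fun i => by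
      have := pl_diff (s.a.v k ((X k).l.p.π w1)) (s.x.v k ((X k).l.p.π w1)) (s.a.v k ((X k).l.p.π w2))
        (s.x.v k ((X k).l.p.π w2)) (s.t.v k ((X k).l.p.π w2) 0) (S.dl 1 k) (Kt k) hd.le (a3 _ hμ2 0) r1 r2 i
      linarith)
  have e3 : sph s D k ((X k).l.p.π w2) ((X k).g w1) ≤ nn (m + 1) D * (Cu D * Cm (m + 1) D * (Kt k + 2) ^ D) ^ 2 *
      phi (S.dl 1 k) ((X k).g w1) (pl (s.a.v k ((X k).l.p.π w1)) (s.x.v k ((X k).l.p.π w1))
        (s.t.v k ((X k).l.p.π w2) 0)) := e2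
  have e4 : phi (S.dl 1 k) ((X k).g w1) (pl (s.a.v k ((X k).l.p.π w1)) (s.x.v k ((X k).l.p.π w1))
        (s.t.v k ((X k).l.p.π w2) 0)) ≤ K1 k * 2 ^ ((2 * D : ℕ) * (c₀ - c') * (S.F k).n) * K2 k :=
    e1.trans (mul_le_mul_of_nonneg_left hE2 (by positivity))
  have e5 : nn (m + 1) D * (Cu D * Cm (m + 1) D * (Kt k + 2) ^ D) ^ 2 =
      nn (m + 1) D * (Cu D * Cm (m + 1) D) ^ 2 * (Kt k + 2) ^ (2 * D) := by
    rw [mul_pow, ← pow_mul]
    ring
  have e6 : 0 ≤ nn (m + 1) D * (Cu D * Cm (m + 1) D) ^ 2 * (Kt k + 2) ^ (2 * D) := by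
    have := nn_one (m + 1) D
    positivity
  rw [e5] at e3
  have e7 := e3.trans (mul_le_mul_of_nonneg_left e4 e6)
  refine e7.trans ?_
  rw [add_mul, Real.rpow_add (by norm_num), mul_comm ((2 : ℝ) ^ ((2 * D : ℕ) * (c₀ - c') * (S.F k).n))]
  have e10 : nn (m + 1) D * (Cu D * Cm (m + 1) D) ^ 2 * (Kt k + 2) ^ (2 * D) *
      (K1 k * 2 ^ ((2 * D : ℕ) * (c₀ - c') * (S.F k).n) * K2 k) =
      (nn (m + 1) D * (Cu D * Cm (m + 1) D) ^ 2 * (Kt k + 2) ^ (2 * D) * (K1 k * K2 k)) *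
        2 ^ ((2 * D : ℕ) * (c₀ - c') * (S.F k).n) := by ring
  rw [e10]
  exact mul_le_mul_of_nonneg_right (by linarith) (by positivity)

theorem pin_cond {L : Type*} [PM L] {κ κ' T Y a : L} (hind : I κ T Y = 0) (hY : Y ≤ a ⊔ κ') (ha : a ≤ T)
    (hκ : κ' ≤ T) : I κ T κ' = I κ a κ' := by
  have h1 : I κ (a ⊔ T) κ' = I κ a κ' + I κ T (a ⊔ κ') := I_chain_right _ _ _ _
  rw [sup_eq_right.mpr ha] at h1
  have h2 : I κ T (a ⊔ κ') = 0 := I_zero_cond hind hY ((sup_le ha hκ).trans le_sup_left) le_sup_left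
  linarith

section
variable {ι : Type}

/-- mutual information of the two labels beyond the second one, in bits -/
def pin (x : ∀ k, FD (S.F k) ι) (l' : Lab S) (c : ℝ) (k : ℕ) : ℝ :=
  I ((pam ((x k).jn (l' k)).l (jK (x k) (l' k)) (cAs s c k)).p1.map ((x k).jn (l' k)).l.v)
    (pam ((x k).jn (l' k)).l (jK (x k) (l' k)) (cAs s c k)).p2.top
    ((pam ((x k).jn (l' k)).l (jK (x k) (l' k)) (cAs s c k)).p2.map ((x k).jn (l' k)).l.v)

/-- it is the information of the first label about the line (and the coarse height) given the second one -/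
theorem pin_eq (x : ∀ k, FD (S.F k) ι) (l' : Lab S) (c : ℝ) (k : ℕ) : pin s x l' c k =
    I ((pam ((x k).jn (l' k)).l (jK (x k) (l' k)) (cAs s c k)).p1.map ((x k).jn (l' k)).l.v)
    ((pam ((x k).jn (l' k)).l (jK (x k) (l' k)) (cAs s c k)).p2.map (((x k).jn (l' k)).l.p.map (cA s c k)))
    ((pam ((x k).jn (l' k)).l (jK (x k) (l' k)) (cAs s c k)).p2.map ((x k).jn (l' k)).l.v) := by
  set X := (x k).jn (l' k) with hX
  set P := pam X.l (jK (x k) (l' k)) (cAs s c k) with hP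
  have h1 := P.indep X.l.v (fc (⊥ : Setoid X.l.T.Ω))
  have htop : P.p2.top = P.p2.map (fc (⊥ : Setoid X.l.T.Ω)) := by
    rw [P.p2.map_fc]
    rfl
  rw [← htop, P.common] at h1
  apply pin_cond h1
  · refine (P.p2.map_mono (pam_ker X.l (jK (x k) (l' k)) (cAs s c k))).trans ?_
    rw [P.p2.map_sup, sup_comm]
    exact sup_le_sup_left (P.p2.map_mono (fc_mono (jK_le (x k) (l' k)))) _
  · exact P.p2.map_le_top _
  · exact P.p2.map_le_top _

theorem pin_nonneg (x : ∀ k, FD (S.F k) ι) (l' : Lab S) (c : ℝ) (k : ℕ) : 0 ≤ pin s x l' c k := I_nonneg _ _ _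

theorem pin_le (x : ∀ k, FD (S.F k) ι) (l' : Lab S) (c : ℝ) (k : ℕ) : pin s x l' c k ≤ H (cA s c k) := by
  rw [pin_eq]
  refine (I_le_h_right _ _ _).trans ((h_le_H _ _).trans (le_of_eq ?_))
  rw [FPj.H_map, FPj.H_map]

theorem pin_UB (x : ∀ k, FD (S.F k) ι) (l' : Lab S) (c : ℝ) : UB (fun k => pin s x l' c k / (S.F k).n) := by
  refine UB.sandwich (UB_const 0) (cA_Bd s c) ?_ ?_
  · exact Eventually.of_forall fun k => div_nonneg (pin_nonneg s x l' c k) (S.F k).pos.le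
  · exact Eventually.of_forall fun k => div_le_div_of_nonneg_right (pin_le s x l' c k) (S.F k).pos.le

theorem jn_IsMax {A B : Part S} (hA : A.Bd) {x : ∀ k, FD (S.F k) ι} (hx : Lab.IsMax (fun k => (x k).l) A B) {l : Lab S}
    (hl : l.DM A B) : Lab.IsMax (fun k => ((x k).jn (l k)).l) A B := by
  have h1 : Lab.DM (fun k => ((x k).jn (l k)).l) A B := Lab.DM.join hx.1 hl
  refine ⟨h1, fun l' hl' => (hx.2 l' hl').trans ?_⟩
  apply ul_mono (hx.1.ub hA) (h1.ub hA)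
  refine Eventually.of_forall fun k => div_le_div_of_nonneg_right ?_ (S.F k).pos.le
  exact (x k).l.join_info_ge_left (l k)

end

variable {D : ℕ}

/-- the form of the first point is not much larger than the form of the second point -/
theorem pair_le (hD : 1 ≤ D) {c₀ c' : ℝ} (h0 : 0 ≤ c') (hc : c' < c₀) (h1 : c₀ < 1)
    {x : ∀ k, FD (S.F k) (Mon (m + 1) D)} (hx : IsCan s D c₀ x) {l' : Lab S} (hl : l'.DM (cA s c₀) (cB s))
    (e : ℝ) (he : 0 < e) (he1 : e ≤ D * (1 - c₀)) :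
    e * ul (fun k => (pam ((x k).jn (l' k)).l (jK (x k) (l' k)) (cAs s c' k)).sp.pb (fun w => ¬ ∀ v,
      qf (((x k).jn (l' k)).g w.1) v ≤
        2 ^ (2 * (e + D * (c₀ - c')) * (S.F k).n) * qf (((x k).jn (l' k)).g w.2) v)) ≤
      D * ul (fun k => pin s x l' c' k / (S.F k).n) := by
  set X : ∀ k, FD (S.F k) (Mon (m + 1) D) := fun k => (x k).jn (l' k) with hX
  have hcan : IsCan s D c₀ X := ⟨Gau.Opt.jn _ hx.1 hl, jn_IsMax (cA_Bd s c₀) hx.2 hl⟩
  have hcpd : ∀ᶠ k in UF, ∀ ω, (X k).l.T.μ ω ≠ 0 → Cpd ((gau s D).cp k) ((X k).g ω) := by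
    filter_upwards [hcan.1.1 1 one_pos] with k hk ω hω
    exact (hk.2.2.1 ω hω).1
  have h2 := r2 s hD (h0.trans hc.le) h1 hcan (fun k => (pam (X k).l (jK (x k) (l' k)) (cAs s c' k)).sp)
    (fun k => (pam (X k).l (jK (x k) (l' k)) (cAs s c' k)).p2) (fun k => rfl)
    (fun k => Setoid.comap (pam (X k).l (jK (x k) (l' k)) (cAs s c' k)).p1.π (X k).l.V)
    (fun k w => (X k).g w.1) (fun k w w' h h' hV _ hZ =>
      ((X k).meas _ _ ((pam (X k).l (jK (x k) (l' k)) (cAs s c' k)).p1.supp w h)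
        ((pam (X k).l (jK (x k) (l' k)) (cAs s c' k)).p1.supp w' h') hV hZ).1)
    (by
      filter_upwards [hcpd] with k hk w hw
      have := hk _ ((pam (X k).l (jK (x k) (l' k)) (cAs s c' k)).p1.supp w hw)
      exact ⟨this.1, this.psd.2⟩)
    (D * (c₀ - c')) e he he1 (fun η hη => by
      filter_upwards [far_phi' s (h0.trans hc.le) h1 hcan.1.1 (fun k => jK (x k) (l' k)) hc.le η hη] with k hk
      have e1 : 2 * (D * (c₀ - c')) + η = (2 * D : ℕ) * (c₀ - c') + η := by push_cast; ring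
      rw [e1]
      exact hk)
    (pin_UB s x l' c')
  exact h2

/-- LIP, FIRST STEP: small mutual information of two labels gives a larger window -/
theorem lip1 (m D : ℕ) : ∃ Cc : ℝ, 0 ≤ Cc ∧ ∀ {S : Sp} (s : Sys S m), 1 ≤ D → Pool.Agent.Helper42.NS.RobH s →
    ∀ {c₀ c' : ℝ}, 0 ≤ c' → c' < c₀ → c₀ < 1 → ∀ {x : ∀ k, FD (S.F k) (Mon (m + 1) D)}, IsCan s D c₀ x →
    ∀ {l' : Lab S}, IsKap s c' l' → ∀ {σ : ℝ}, Hf s D c₀ σ → ∀ e : ℝ, 0 < e → e ≤ D * (1 - c₀) →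
    4 * D * ul (fun k => pin s x l' c' k / (S.F k).n) < e → Hf s D c' (σ - Cc * (e + D * (c₀ - c'))) := by
  obtain ⟨Cc, hCc, hlab⟩ := nj_label (Mon (m + 1) D)
  refine ⟨Cc, hCc, ?_⟩
  intro S s hD hR c₀ c' h0 hc h1 x hx l' hl' σ hσ e he he1 hp
  have hDM : l'.DM (cA s c₀) (cB s) := DMc.mono hc.le hl'.dm
  set P := fun k => (pam ((x k).jn (l' k)).l (jK (x k) (l' k)) (cAs s c' k)) with hP
  set bad : ∀ k, (P k).sp.Ω → Prop := fun k w => ¬ ∀ v, qf (((x k).jn (l' k)).g w.1) v ≤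
        2 ^ (2 * (e + D * (c₀ - c')) * (S.F k).n) * qf (((x k).jn (l' k)).g w.2) v with hbad
  have h2 := pair_le s hD h0 hc h1 hx hDM e he he1
  have hDr : (1 : ℝ) ≤ D := by exact_mod_cast hD
  have hlt : ul (fun k => (P k).sp.pb (bad k)) < 1 / 4 := by
    by_contra hcon
    rw [not_lt] at hcon
    have h3 : e * (1 / 4) ≤ e * ul (fun k => (P k).sp.pb (bad k)) := mul_le_mul_of_nonneg_left hcon he.le
    have h4 : e * ul (fun k => (P k).sp.pb (bad k)) ≤ D * ul (fun k => pin s x l' c' k / (S.F k).n) := h2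
    nlinarith
  have hUb : UB (fun k => (P k).sp.pb (bad k)) :=
    UB_of_nonneg_le (C := 1) (Eventually.of_forall fun k => FSp.pb_nonneg _ _)
      (Eventually.of_forall fun k => FSp.pb_le_one _ _)
  have hev := eventually_lt_of_ul_lt hUb hlt
  have hnear : ∀ᶠ k in UF, 1 / 2 ≤ (P k).sp.pb (fun w => Nr (2 * (e + D * (c₀ - c')) * (S.F k).n)
      (((x k).jn (l' k)).g w.1) (((x k).jn (l' k)).g w.2)) := by
    filter_upwards [hev] with k hk
    have a1 := FAm.swap_pb (P k) rfl (bad k)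
    have a2 := (P k).sp.pb_add_compl (fun w => Nr (2 * (e + D * (c₀ - c')) * (S.F k).n)
      (((x k).jn (l' k)).g w.1) (((x k).jn (l' k)).g w.2))
    have a3 : (P k).sp.pb (fun w => ¬ Nr (2 * (e + D * (c₀ - c')) * (S.F k).n)
      (((x k).jn (l' k)).g w.1) (((x k).jn (l' k)).g w.2)) ≤
        (P k).sp.pb (fun w => bad k w ∨ bad k (w.2, w.1)) := by
      apply FSp.pb_mono
      intro w _ hw
      by_cases hb : bad k w
      · exact Or.inl hb
      · right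
        intro hb'
        apply hw
        rw [hbad] at hb
        simp only [not_not] at hb
        exact ⟨hb, hb'⟩
    have a4 := pb_or (P k).sp (bad k) (fun w => bad k (w.2, w.1))
    have a5 : (P k).sp.pb (fun w => bad k (w.2, w.1)) = (P k).sp.pb (bad k) := a1
    linarith
  obtain ⟨l, E, hE, y, hy, hy'⟩ := hlab (gau s D) (fun k ω M N c _ h => sph_mono s D k ω M N c h) (sga s D)
    (fun k ω M N c _ h => sga_mono s D k ω M N c h) (cA_Bd s c') (fun p E => cA_im_Bd s c' p E) (cAs s c')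
    (cAs_eq s c') hx.1 hl' hDM (2 * σ) (fun e he => by
      have h3 := hσ.opt hx.1 (e / 2) (by linarith)
      refine h3.congr fun k => ?_
      congr 1
      funext ω
      congr 2
      ring_nf) (2 * (e + D * (c₀ - c'))) (by
      have : 0 ≤ D * (c₀ - c') := mul_nonneg (by linarith) (by linarith)
      linarith) hnear
  rw [← hR.Hf_im l.pj E hE]
  refine ⟨y, hy, fun e' he' => ?_⟩
  have h3 := hy' (2 * e') (by linarith)
  refine h3.congr fun k => ?_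
  show (y k).l.T.pb (fun ω => ¬ 2 ^ ((2 * σ - Cc * (2 * (e + D * (c₀ - c'))) - 2 * e') * (S.F k).n) ≤
      sga s D k ((y k).l.p.π ω) ((y k).g ω)) =
    (y k).l.T.pb (fun ω => ¬ 2 ^ (2 * (σ - Cc * (e + D * (c₀ - c')) - e') * (S.F k).n) ≤
      sga s D k ((y k).l.p.π ω) ((y k).g ω))
  congr 1
  funext ω
  congr 2
  ring_nf

end

end Pool.Agent.Helper48.LIP
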