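import Pool.Agent.Helper48.LIP.Njp
import Pool.Agent.Helper48.LIP.Lip1

/-! THEOREM COST on events, and LIP step 1 on events of positive probability of extensions (55c, (2.2)). -/

set_option autoImplicit false

namespace Pool.Agent.Helper48.LIP

open Finset Filter Topology Matrix Pool.Agent.Helper69.RK Pool.Agent.Helper31.EC Pool.Agent.Helper40.EL
open Pool.Agent.Helper89.LX Pool.Agent.Helper3.LF Pool.Agent.Helper48.NS
open Pool.Agent.Helper95.LF (PdM)

noncomputable section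

/-- the partition `V` on the event `E`, trivial off the event -/
def onE {Ω : Type} (E : Ω → Prop) (V : Setoid Ω) : Setoid Ω where
  r ω ω' := (E ω ↔ E ω') ∧ (E ω → V ω ω')
  iseqv := ⟨fun ω => ⟨Iff.rfl, fun _ => V.refl ω⟩,
    fun h => ⟨h.1.symm, fun h' => V.symm (h.2 (h.1.mpr h'))⟩,
    fun h h' => ⟨h.1.trans h'.1, fun a => V.trans (h.2 a) (h'.2 (h.1.mp a))⟩⟩

theorem onE_I {F : FSp} (E : F.Ω → Prop) (V : Setoid F.Ω) (y z : FL F) :
    I (fc (onE E V)) y z ≤ F.pb E * I (F.rmap E (fc V)) (F.rmap E y) (F.rmap E z) + 1 := by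
  have h1 := (F.I_rsplit E (fc (onE E V)) y z).2
  have h2 : F.pb E * I (F.rmap E (fc (onE E V))) (F.rmap E y) (F.rmap E z) ≤
      F.pb E * I (F.rmap E (fc V)) (F.rmap E y) (F.rmap E z) := by
    by_cases h0 : F.pb E = 0
    · rw [h0, zero_mul, zero_mul]
    · refine mul_le_mul_of_nonneg_left (I_mono_left ?_) (F.pb_nonneg E)
      refine le_trans ?_ le_sup_left
      rw [F.rmap_fc, F.rmap_fc]
      apply fc_le
      intro ω ω' hω hω' _ hV
      have a1 := (F.rest_supp E ω hω).2 h0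
      have a2 := (F.rest_supp E ω' hω').2 h0
      exact ⟨⟨fun _ => a2, fun _ => a1⟩, fun _ => hV⟩
  have h3 : (1 - F.pb E) * I (F.rmap (fun ω => ¬ E ω) (fc (onE E V))) (F.rmap (fun ω => ¬ E ω) y)
      (F.rmap (fun ω => ¬ E ω) z) = 0 := by
    by_cases h0 : F.pb (fun ω => ¬ E ω) = 0
    · have h4 := F.pb_add_compl E
      have h5 : 1 - F.pb E = 0 := by linarith
      rw [h5, zero_mul]
    · rw [I_zero_of_le_left, mul_zero]
      refine le_trans ?_ bot_le
      rw [F.rmap_fc]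
      apply fc_le
      intro ω ω' hω hω' _ _
      have a1 := (F.rest_supp (fun ω => ¬ E ω) ω hω).2 h0
      have a2 := (F.rest_supp (fun ω => ¬ E ω) ω' hω').2 h0
      exact ⟨⟨fun h => absurd h a1, fun h => absurd h a2⟩, fun h => absurd h a1⟩
  linarith

section R2e

variable {S : Sp} {m D : ℕ} (s : Sys S m)

/-- (R'') ON EVENTS -/
theorem r2e (hD : 1 ≤ D) {c : ℝ} (h0 : 0 ≤ c) (h1 : c < 1) {x : ∀ k, FD (S.F k) (Mon (m + 1) D)}
    (hx : IsCan s D c x) (T' : ℕ → FSp) (r : ∀ k, FPj (T' k) (x k).l.T) (hn : ∀ k, (T' k).n = (x k).l.T.n)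
    (V' : ∀ k, Setoid (T' k).Ω) (E : ∀ k, (T' k).Ω → Prop)
    (g : ∀ k, (T' k).Ω → Matrix (Mon (m + 1) D) (Mon (m + 1) D) ℝ)
    (meas : ∀ k ω ω', (T' k).μ ω ≠ 0 → (T' k).μ ω' ≠ 0 → E k ω → E k ω' → V' k ω ω' →
      (x k).l.V ((r k).π ω) ((r k).π ω') → (T' k).Z ω ω' → g k ω = g k ω')
    (hg : ∀ᶠ k in UF, ∀ ω, (T' k).μ ω ≠ 0 → E k ω → (g k ω).IsSymm ∧ ∀ v, 0 ≤ qf (g k ω) v) (b e : ℝ) (he : 0 < e)
    (he1 : e ≤ D * (1 - c))
    (hb : ∀ η : ℝ, 0 < η → ∀ᶠ k in UF, (T' k).pb (fun ω => E k ω ∧ ¬ sph s D k ((x k).l.p.π ((r k).π ω)) (g k ω) ≤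
      2 ^ ((2 * b + η) * (S.F k).n)) ≤ η)
    (p : ℝ) (hp : ∀ᶠ k in UF, I ((T' k).rmap (E k) (fc (V' k))) ((T' k).rmap (E k) (r k).top)
      ((T' k).rmap (E k) ((r k).map (x k).l.v)) ≤ p * (S.F k).n) :
    e * ul (fun k => (T' k).pb (fun ω => E k ω ∧ ¬ ∀ v, qf (g k ω) v ≤
      2 ^ (2 * (e + b) * (S.F k).n) * qf ((x k).g ((r k).π ω)) v)) ≤
      D * (ul (fun k => (T' k).pb (E k)) * p) := by
  classical
  set g' : ∀ k, (T' k).Ω → Matrix (Mon (m + 1) D) (Mon (m + 1) D) ℝ := fun k ω => if E k ω then g k ω else 0 with hg'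
  have hI : ∀ᶠ k in UF, I (fc (onE (E k) (V' k))) (r k).top ((r k).map (x k).l.v) / (S.F k).n ≤
      (T' k).pb (E k) * p + 1 / (S.F k).n := by
    filter_upwards [hp] with k hk
    have hn0 := (S.F k).pos
    have a1 := onE_I (E k) (V' k) (r k).top ((r k).map (x k).l.v)
    have a2 := mul_le_mul_of_nonneg_left hk ((T' k).pb_nonneg (E k))
    rw [div_le_iff₀ hn0, add_mul, one_div, inv_mul_cancel₀ hn0.ne']
    calc _ ≤ _ := a1
      _ ≤ _ := by rw [mul_assoc]; linarith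
  have hUE : UB (fun k => (T' k).pb (E k)) :=
    UB_of_nonneg_le (C := 1) (Eventually.of_forall fun k => FSp.pb_nonneg _ _)
      (Eventually.of_forall fun k => FSp.pb_le_one _ _)
  have hU2 : UB (fun k => (T' k).pb (E k) * p + 1 / (S.F k).n) :=
    (hUE.mul (UB_const p)).add (UB_of_tendsto (S.div_n_tendsto 1))
  have hU : UB (fun k => I (fc (onE (E k) (V' k))) (r k).top ((r k).map (x k).l.v) / (S.F k).n) := by
    refine UB.sandwich (UB_const 0) hU2 ?_ hI
    exact Eventually.of_forall fun k => div_nonneg (I_nonneg _ _ _) (S.F k).pos.le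
  have h2 := r2 s hD h0 h1 hx T' r hn (fun k => onE (E k) (V' k)) g'
    (fun k ω ω' h h' hV hl hZ => by
      show (if E k ω then g k ω else 0) = if E k ω' then g k ω' else 0
      by_cases hE : E k ω
      · have hE' := hV.1.mp hE
        rw [if_pos hE, if_pos hE']
        exact meas k ω ω' h h' hE hE' (hV.2 hE) hl hZ
      · have hE' : ¬ E k ω' := fun h => hE (hV.1.mpr h)
        rw [if_neg hE, if_neg hE'])
    (by
      filter_upwards [hg] with k hk ω hω
      show (if E k ω then g k ω else 0).IsSymm ∧ ∀ v, 0 ≤ qf (if E k ω then g k ω else 0) v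
      by_cases hE : E k ω
      · rw [if_pos hE]
        exact hk ω hω hE
      · rw [if_neg hE]
        refine ⟨Matrix.isSymm_zero, fun v => ?_⟩
        unfold qf
        rw [Matrix.zero_mulVec, dotProduct_zero]) b e he he1
    (fun η hη => by
      filter_upwards [hb η hη] with k hk
      refine le_trans (FSp.pb_mono _ ?_) hk
      intro ω _ hbad
      by_cases hE : E k ω
      · refine ⟨hE, fun h => hbad ?_⟩
        have e1 : g' k ω = g k ω := if_pos hE
        rw [e1]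
        exact h
      · exfalso
        apply hbad
        have e1 : g' k ω = 0 := if_neg hE
        rw [e1]
        have e2 : sph s D k ((x k).l.p.π ((r k).π ω)) (0 : Matrix (Mon (m + 1) D) (Mon (m + 1) D) ℝ) ≤
            0 * sph s D k ((x k).l.p.π ((r k).π ω)) 1 := by
          apply sph_mono
          intro v
          unfold qf
          rw [Matrix.zero_mulVec, dotProduct_zero, zero_mul]
        rw [zero_mul] at e2
        exact e2.trans (by positivity)) hU
  have h3 : ul (fun k => I (fc (onE (E k) (V' k))) (r k).top ((r k).map (x k).l.v) / (S.F k).n) ≤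
      ul (fun k => (T' k).pb (E k)) * p := by
    refine (ul_mono hU hU2 hI).trans (le_of_eq ?_)
    rw [ul_add (hUE.mul (UB_const p)) (UB_of_tendsto (S.div_n_tendsto 1)), ul_mul hUE (UB_const p), ul_const,
      ul_eq (S.div_n_tendsto 1), add_zero]
  have h4 : e * ul (fun k => (T' k).pb (fun ω => E k ω ∧ ¬ ∀ v, qf (g k ω) v ≤
      2 ^ (2 * (e + b) * (S.F k).n) * qf ((x k).g ((r k).π ω)) v)) ≤ e * ul (fun k => (T' k).pb (fun ω => ¬ ∀ v,
      qf (g' k ω) v ≤ 2 ^ (2 * (e + b) * (S.F k).n) * qf ((x k).g ((r k).π ω)) v)) := by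
    apply mul_le_mul_of_nonneg_left _ he.le
    apply ul_mono
    · exact UB_of_nonneg_le (C := 1) (Eventually.of_forall fun k => FSp.pb_nonneg _ _)
        (Eventually.of_forall fun k => FSp.pb_le_one _ _)
    · exact UB_of_nonneg_le (C := 1) (Eventually.of_forall fun k => FSp.pb_nonneg _ _)
        (Eventually.of_forall fun k => FSp.pb_le_one _ _)
    · refine Eventually.of_forall fun k => FSp.pb_mono _ ?_
      intro ω _ h
      have e1 : g' k ω = g k ω := if_pos h.1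
      rw [e1]
      exact h.2
  have hDr : (0 : ℝ) ≤ D := Nat.cast_nonneg D
  exact (h4.trans h2).trans (mul_le_mul_of_nonneg_left h3 hDr)

end R2e

section pairs

variable {ι : Type} {S : Sp} {m : ℕ} (s : Sys S m)

/-- on the event `E` of an extension of the space of pairs: information of the label at the first line about everything
at the second line, given the label at the second line -/
def pinE (x : ∀ k, FD (S.F k) ι) (l' : Lab S) (c : ℝ) (T : ℕ → FSp)
    (q : ∀ k, FPj (T k) (pam ((x k).jn (l' k)).l (jK (x k) (l' k)) (cAs s c k)).sp) (E : ∀ k, (T k).Ω → Prop)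
    (k : ℕ) : ℝ :=
  I ((T k).rmap (E k) ((q k).map ((pam ((x k).jn (l' k)).l (jK (x k) (l' k)) (cAs s c k)).p1.map ((x k).jn (l' k)).l.v)))
    ((T k).rmap (E k) ((q k).map (pam ((x k).jn (l' k)).l (jK (x k) (l' k)) (cAs s c k)).p2.top))
    ((T k).rmap (E k) ((q k).map ((pam ((x k).jn (l' k)).l (jK (x k) (l' k)) (cAs s c k)).p2.map ((x k).jn (l' k)).l.v)))

/-- the same with the two lines exchanged -/
def pinE' (x : ∀ k, FD (S.F k) ι) (l' : Lab S) (c : ℝ) (T : ℕ → FSp)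
    (q : ∀ k, FPj (T k) (pam ((x k).jn (l' k)).l (jK (x k) (l' k)) (cAs s c k)).sp) (E : ∀ k, (T k).Ω → Prop)
    (k : ℕ) : ℝ :=
  I ((T k).rmap (E k) ((q k).map ((pam ((x k).jn (l' k)).l (jK (x k) (l' k)) (cAs s c k)).p2.map ((x k).jn (l' k)).l.v)))
    ((T k).rmap (E k) ((q k).map (pam ((x k).jn (l' k)).l (jK (x k) (l' k)) (cAs s c k)).p1.top))
    ((T k).rmap (E k) ((q k).map ((pam ((x k).jn (l' k)).l (jK (x k) (l' k)) (cAs s c k)).p1.map ((x k).jn (l' k)).l.v)))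

variable {D : ℕ}

/-- on an event, the form of the first point is not much larger than the form of the second point -/
theorem pair_le_ev (hD : 1 ≤ D) {c₀ c' : ℝ} (h0 : 0 ≤ c') (hc : c' < c₀) (h1 : c₀ < 1)
    {x : ∀ k, FD (S.F k) (Mon (m + 1) D)} (hx : IsCan s D c₀ x) {l' : Lab S} (hl : l'.DM (cA s c₀) (cB s))
    (T : ℕ → FSp) (q : ∀ k, FPj (T k) (pam ((x k).jn (l' k)).l (jK (x k) (l' k)) (cAs s c' k)).sp)
    (hn : ∀ k, (T k).n = (S.F k).n) (E : ∀ k, (T k).Ω → Prop) (e : ℝ) (he : 0 < e) (he1 : e ≤ D * (1 - c₀))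
    (p : ℝ) (hp : ∀ᶠ k in UF, pinE s x l' c' T q E k ≤ p * (S.F k).n) :
    e * ul (fun k => (T k).pb (fun ω => E k ω ∧ ¬ ∀ v,
      qf (((x k).jn (l' k)).g ((q k).π ω).1) v ≤
        2 ^ (2 * (e + D * (c₀ - c')) * (S.F k).n) * qf (((x k).jn (l' k)).g ((q k).π ω).2) v)) ≤
      D * (ul (fun k => (T k).pb (E k)) * p) := by
  set X : ∀ k, FD (S.F k) (Mon (m + 1) D) := fun k => (x k).jn (l' k) with hX
  have hcan : IsCan s D c₀ X := ⟨Gau.Opt.jn _ hx.1 hl, jn_IsMax (cA_Bd s c₀) hx.2 hl⟩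
  have hcpd : ∀ᶠ k in UF, ∀ ω, (X k).l.T.μ ω ≠ 0 → Cpd ((gau s D).cp k) ((X k).g ω) := by
    filter_upwards [hcan.1.1 1 one_pos] with k hk ω hω
    exact (hk.2.2.1 ω hω).1
  have h2 := r2e s hD (h0.trans hc.le) h1 hcan T
    (fun k => (q k).comp (pam (X k).l (jK (x k) (l' k)) (cAs s c' k)).p2)
    (fun k => (hn k).trans (X k).l.hn.symm)
    (fun k => Setoid.comap (fun ω => (pam (X k).l (jK (x k) (l' k)) (cAs s c' k)).p1.π ((q k).π ω)) (X k).l.V) E
    (fun k ω => (X k).g ((q k).π ω).1) (fun k ω ω' h h' _ _ hV _ hZ =>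
      ((X k).meas _ _ ((pam (X k).l (jK (x k) (l' k)) (cAs s c' k)).p1.supp _ ((q k).supp ω h))
        ((pam (X k).l (jK (x k) (l' k)) (cAs s c' k)).p1.supp _ ((q k).supp ω' h')) hV
        (((pam (X k).l (jK (x k) (l' k)) (cAs s c' k)).p1.hZ _ _ ((q k).supp ω h) ((q k).supp ω' h')).mp
          (((q k).hZ ω ω' h h').mp hZ))).1)
    (by
      filter_upwards [hcpd] with k hk ω hω _
      have := hk _ ((pam (X k).l (jK (x k) (l' k)) (cAs s c' k)).p1.supp _ ((q k).supp ω hω))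
      exact ⟨this.1, this.psd.2⟩)
    (D * (c₀ - c')) e he he1 (fun η hη => by
      filter_upwards [far_phi' s (h0.trans hc.le) h1 hcan.1.1 (fun k => jK (x k) (l' k)) hc.le η hη] with k hk
      have e1 : 2 * (D * (c₀ - c')) + η = (2 * D : ℕ) * (c₀ - c') + η := by push_cast; ring
      rw [e1]
      rw [← pb_push (q k)] at hk
      exact (FSp.pb_mono _ (fun ω _ h => h.2)).trans hk)
    p hp
  exact h2

/-- on an event, the form of the second point is not much larger than the form of the first point -/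
theorem pair_le_ev' (hD : 1 ≤ D) {c₀ c' : ℝ} (h0 : 0 ≤ c') (hc : c' < c₀) (h1 : c₀ < 1)
    {x : ∀ k, FD (S.F k) (Mon (m + 1) D)} (hx : IsCan s D c₀ x) {l' : Lab S} (hl : l'.DM (cA s c₀) (cB s))
    (T : ℕ → FSp) (q : ∀ k, FPj (T k) (pam ((x k).jn (l' k)).l (jK (x k) (l' k)) (cAs s c' k)).sp)
    (hn : ∀ k, (T k).n = (S.F k).n) (E : ∀ k, (T k).Ω → Prop) (e : ℝ) (he : 0 < e) (he1 : e ≤ D * (1 - c₀))
    (p : ℝ) (hp : ∀ᶠ k in UF, pinE' s x l' c' T q E k ≤ p * (S.F k).n) :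
    e * ul (fun k => (T k).pb (fun ω => E k ω ∧ ¬ ∀ v,
      qf (((x k).jn (l' k)).g ((q k).π ω).2) v ≤
        2 ^ (2 * (e + D * (c₀ - c')) * (S.F k).n) * qf (((x k).jn (l' k)).g ((q k).π ω).1) v)) ≤
      D * (ul (fun k => (T k).pb (E k)) * p) := by
  set X : ∀ k, FD (S.F k) (Mon (m + 1) D) := fun k => (x k).jn (l' k) with hX
  have hcan : IsCan s D c₀ X := ⟨Gau.Opt.jn _ hx.1 hl, jn_IsMax (cA_Bd s c₀) hx.2 hl⟩
  have hcpd : ∀ᶠ k in UF, ∀ ω, (X k).l.T.μ ω ≠ 0 → Cpd ((gau s D).cp k) ((X k).g ω) := by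
    filter_upwards [hcan.1.1 1 one_pos] with k hk ω hω
    exact (hk.2.2.1 ω hω).1
  have h2 := r2e s hD (h0.trans hc.le) h1 hcan T
    (fun k => (q k).comp (pam (X k).l (jK (x k) (l' k)) (cAs s c' k)).p1)
    (fun k => (hn k).trans (X k).l.hn.symm)
    (fun k => Setoid.comap (fun ω => (pam (X k).l (jK (x k) (l' k)) (cAs s c' k)).p2.π ((q k).π ω)) (X k).l.V) E
    (fun k ω => (X k).g ((q k).π ω).2) (fun k ω ω' h h' _ _ hV _ hZ =>
      ((X k).meas _ _ ((pam (X k).l (jK (x k) (l' k)) (cAs s c' k)).p2.supp _ ((q k).supp ω h))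
        ((pam (X k).l (jK (x k) (l' k)) (cAs s c' k)).p2.supp _ ((q k).supp ω' h')) hV
        (((pam (X k).l (jK (x k) (l' k)) (cAs s c' k)).p2.hZ _ _ ((q k).supp ω h) ((q k).supp ω' h')).mp
          (((q k).hZ ω ω' h h').mp hZ))).1)
    (by
      filter_upwards [hcpd] with k hk ω hω _
      have := hk _ ((pam (X k).l (jK (x k) (l' k)) (cAs s c' k)).p2.supp _ ((q k).supp ω hω))
      exact ⟨this.1, this.psd.2⟩)
    (D * (c₀ - c')) e he he1 (fun η hη => by
      filter_upwards [far_phi' s (h0.trans hc.le) h1 hcan.1.1 (fun k => jK (x k) (l' k)) hc.le η hη] with k hk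
      have e1 : 2 * (D * (c₀ - c')) + η = (2 * D : ℕ) * (c₀ - c') + η := by push_cast; ring
      rw [e1]
      have hk2 : (pam (X k).l (jK (x k) (l' k)) (cAs s c' k)).sp.pb
          (fun w => ¬ sph s D k ((X k).l.p.π w.1) ((X k).g w.2) ≤
          2 ^ (((2 * D : ℕ) * (c₀ - c') + η) * (S.F k).n)) ≤ η :=
        (le_of_eq (FAm.swap_pb (pam (X k).l (jK (x k) (l' k)) (cAs s c' k)) rfl
          (fun w => ¬ sph s D k ((X k).l.p.π w.2) ((X k).g w.1) ≤
          2 ^ (((2 * D : ℕ) * (c₀ - c') + η) * (S.F k).n)))).trans hk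
      rw [← pb_push (q k)] at hk2
      exact (FSp.pb_mono _ (fun ω _ h => h.2)).trans hk2)
    p hp
  exact h2

end pairs

/-- LIP, FIRST STEP, ON EVENTS: small mutual information of two labels, on an event of positive probability of an
extension of the space of pairs, gives a larger window -/
theorem lip_ev (m D : ℕ) : ∃ Cc : ℝ, 0 ≤ Cc ∧ ∀ {S : Sp} (s : Sys S m), 1 ≤ D → Pool.Agent.Helper42.NS.RobH s →
    ∀ {c₀ c' : ℝ}, 0 ≤ c' → c' < c₀ → c₀ < 1 → ∀ {x : ∀ k, FD (S.F k) (Mon (m + 1) D)}, IsCan s D c₀ x →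
    ∀ {l' : Lab S}, IsKap s c' l' → ∀ {σ : ℝ}, Hf s D c₀ σ → ∀ (T : ℕ → FSp)
    (q : ∀ k, FPj (T k) (pam ((x k).jn (l' k)).l (jK (x k) (l' k)) (cAs s c' k)).sp), (∀ k, (T k).n = (S.F k).n) →
    ∀ E : ∀ k, (T k).Ω → Prop, 0 < ul (fun k => (T k).pb (E k)) → ∀ p e : ℝ, 0 < e → e ≤ D * (1 - c₀) →
    (∀ᶠ k in UF, pinE s x l' c' T q E k ≤ p * (S.F k).n) → (∀ᶠ k in UF, pinE' s x l' c' T q E k ≤ p * (S.F k).n) →
    4 * D * p < e → Hf s D c' (σ - Cc * (e + D * (c₀ - c'))) := by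
  obtain ⟨Cc, hCc, hlab⟩ := nj_labelp (Mon (m + 1) D)
  refine ⟨Cc, hCc, ?_⟩
  intro S s hD hR c₀ c' h0 hc h1 x hx l' hl' σ hσ T q hn E hE p e he he1 hp1 hp2 hpe
  have hDM : l'.DM (cA s c₀) (cB s) := DMc.mono hc.le hl'.dm
  set P := fun k => (pam ((x k).jn (l' k)).l (jK (x k) (l' k)) (cAs s c' k)) with hP
  set bad : ∀ k, (T k).Ω → Prop := fun k ω => E k ω ∧ ¬ ∀ v, qf (((x k).jn (l' k)).g ((q k).π ω).1) v ≤
        2 ^ (2 * (e + D * (c₀ - c')) * (S.F k).n) * qf (((x k).jn (l' k)).g ((q k).π ω).2) v with hbad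
  set bad' : ∀ k, (T k).Ω → Prop := fun k ω => E k ω ∧ ¬ ∀ v, qf (((x k).jn (l' k)).g ((q k).π ω).2) v ≤
        2 ^ (2 * (e + D * (c₀ - c')) * (S.F k).n) * qf (((x k).jn (l' k)).g ((q k).π ω).1) v with hbad'
  have h2 := pair_le_ev s hD h0 hc h1 hx hDM T q hn E e he he1 p hp1
  have h3 := pair_le_ev' s hD h0 hc h1 hx hDM T q hn E e he he1 p hp2
  have hUB : ∀ G : ∀ k, (T k).Ω → Prop, UB (fun k => (T k).pb (G k)) := fun G =>
    UB_of_nonneg_le (C := 1) (Eventually.of_forall fun k => FSp.pb_nonneg _ _)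
      (Eventually.of_forall fun k => FSp.pb_le_one _ _)
  set u := ul (fun k => (T k).pb (E k)) with hu
  have key : ∀ G : ∀ k, (T k).Ω → Prop, e * ul (fun k => (T k).pb (G k)) ≤ D * (u * p) →
      ul (fun k => (T k).pb (G k)) < u / 4 := by
    intro G hG
    by_contra hcon
    rw [not_lt] at hcon
    have h4 : e * (u / 4) ≤ e * ul (fun k => (T k).pb (G k)) := mul_le_mul_of_nonneg_left hcon he.le
    have h5 : 4 * D * p * u < e * u := mul_lt_mul_of_pos_right hpe hE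
    linarith
  have k1 := eventually_lt_of_ul_lt (hUB bad) (key bad h2)
  have k2 := eventually_lt_of_ul_lt (hUB bad') (key bad' h3)
  have k3 := eventually_gt_of_lt_ul (hUB E) (show u - u / 4 < ul (fun k => (T k).pb (E k)) by linarith)
  have hnear : ∀ᶠ k in UF, u / 4 ≤ (P k).sp.pb (fun w => Nr (2 * (e + D * (c₀ - c')) * (S.F k).n)
      (((x k).jn (l' k)).g w.1) (((x k).jn (l' k)).g w.2)) := by
    filter_upwards [k1, k2, k3] with k a1 a2 a3
    rw [← pb_push (q k)]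
    have a4 : (T k).pb (E k) ≤ (T k).pb (fun ω => (bad k ω ∨ bad' k ω) ∨
        Nr (2 * (e + D * (c₀ - c')) * (S.F k).n) (((x k).jn (l' k)).g ((q k).π ω).1)
          (((x k).jn (l' k)).g ((q k).π ω).2)) := by
      apply FSp.pb_mono
      intro ω _ hω
      by_cases hb : bad k ω
      · exact Or.inl (Or.inl hb)
      · by_cases hb' : bad' k ω
        · exact Or.inl (Or.inr hb')
        · right
          refine ⟨?_, ?_⟩
          · by_contra h
            exact hb ⟨hω, h⟩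
          · by_contra h
            exact hb' ⟨hω, h⟩
    have a5 := pb_or (T k) (fun ω => bad k ω ∨ bad' k ω) (fun ω =>
        Nr (2 * (e + D * (c₀ - c')) * (S.F k).n) (((x k).jn (l' k)).g ((q k).π ω).1)
          (((x k).jn (l' k)).g ((q k).π ω).2))
    have a6 := pb_or (T k) (bad k) (bad' k)
    linarith
  obtain ⟨l, E', hE', y, hy, hy'⟩ := hlab (gau s D) (fun k ω M N c _ h => sph_mono s D k ω M N c h) (sga s D)
    (fun k ω M N c _ h => sga_mono s D k ω M N c h) (cA_Bd s c') (fun p E => cA_im_Bd s c' p E) (cAs s c')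
    (cAs_eq s c') hx.1 hl' hDM (2 * σ) (fun e he => by
      have h3 := hσ.opt hx.1 (e / 2) (by linarith)
      refine h3.congr fun k => ?_
      congr 1
      funext ω
      congr 2
      ring_nf) (2 * (e + D * (c₀ - c'))) (by
      have : 0 ≤ D * (c₀ - c') := mul_nonneg (by positivity) (by linarith)
      linarith) (u / 4) (by linarith) hnear
  rw [← hR.Hf_im l.pj E' hE']
  refine ⟨y, hy, fun e' he' => ?_⟩
  have h3 := hy' (2 * e') (by linarith)
  refine h3.congr fun k => ?_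
  show (y k).l.T.pb (fun ω => ¬ 2 ^ ((2 * σ - Cc * (2 * (e + D * (c₀ - c'))) - 2 * e') * (S.F k).n) ≤
      sga s D k ((y k).l.p.π ω) ((y k).g ω)) =
    (y k).l.T.pb (fun ω => ¬ 2 ^ (2 * (σ - Cc * (e + D * (c₀ - c')) - e') * (S.F k).n) ≤
      sga s D k ((y k).l.p.π ω) ((y k).g ω))
  congr 1
  funext ω
  congr 2
  ring_nf

end

end Pool.Agent.Helper48.LIP
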