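import Pool.Agent.Helper48.LIP.Lip1

/-! (R'') for resampled labels: only the information of the label about `Q` counts, if the values of the unit
combinations are functions of `Q` to the relevant precision. -/

set_option autoImplicit false

namespace Pool.Agent.Helper48.LIP

open Finset Filter Topology Matrix Pool.Agent.Helper69.RK Pool.Agent.Helper31.EC Pool.Agent.Helper40.EL
open Pool.Agent.Helper89.LX Pool.Agent.Helper3.LF Pool.Agent.Helper48.NS
open Pool.Agent.Helper95.LF (PdM)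

noncomputable section

/-- the information which remains after resampling -/
theorem rs_info_q {F : FSp} (l : FLab F) {T' : FSp} (r : FPj T' l.T) (hn : T'.n = l.T.n) (V' : Setoid T'.Ω)
    (q : FL l.T) (W : Setoid l.T.Ω) :
    ((ovl l r hn V').rs ((frb l.T l.V 1 one_pos).map (q ⊔ fc W))).info ≤
      I (fc V') (r.map q) (r.map l.v) + h (fc W) (q ⊔ l.v) := by
  rw [FLab.rs_info, ovl_info, ovl_leak]
  have h1 : I (fc V') (r.map (q ⊔ fc W) ⊔ r.top) (r.map l.v) =
      I (fc V') (r.map (q ⊔ fc W)) (r.map l.v) + I (fc V') r.top (r.map (q ⊔ fc W) ⊔ r.map l.v) :=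
    I_chain_right _ _ _ _
  rw [sup_eq_right.mpr (r.map_le_top _), ← r.map_sup] at h1
  have h2 : I (fc V') (r.map q ⊔ r.map (fc W)) (r.map l.v) =
      I (fc V') (r.map q) (r.map l.v) + I (fc V') (r.map (fc W)) (r.map q ⊔ r.map l.v) := I_chain_right _ _ _ _
  rw [← r.map_sup q (fc W), ← r.map_sup q l.v] at h2
  have h3 : I (fc V') (r.map (fc W)) (r.map (q ⊔ l.v)) ≤ h (fc W) (q ⊔ l.v) := by
    rw [← r.h_map]
    exact I_le_h_right _ _ _
  linarith

variable {S : Sp} {m D : ℕ} (s : Sys S m)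

/-- (R'') for resampled labels -/
theorem r2Q (hD : 1 ≤ D) {c : ℝ} (h0 : 0 ≤ c) (h1 : c < 1) {x : ∀ k, FD (S.F k) (Mon (m + 1) D)}
    (hx : IsCan s D c x) (T' : ℕ → FSp) (r : ∀ k, FPj (T' k) (x k).l.T) (hn : ∀ k, (T' k).n = (x k).l.T.n)
    (V' : ∀ k, Setoid (T' k).Ω) (g : ∀ k, (T' k).Ω → Matrix (Mon (m + 1) D) (Mon (m + 1) D) ℝ)
    (meas : ∀ k ω ω', (T' k).μ ω ≠ 0 → (T' k).μ ω' ≠ 0 → V' k ω ω' → (x k).l.V ((r k).π ω) ((r k).π ω') →
      (T' k).Z ω ω' → g k ω = g k ω')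
    (hg : ∀ᶠ k in UF, ∀ ω, (T' k).μ ω ≠ 0 → (g k ω).IsSymm ∧ ∀ v, 0 ≤ qf (g k ω) v) (b e : ℝ) (he : 0 < e)
    (he1 : e ≤ D * (1 - c))
    (hb : ∀ η : ℝ, 0 < η → ∀ᶠ k in UF, (T' k).pb (fun ω => ¬ sph s D k ((x k).l.p.π ((r k).π ω)) (g k ω) ≤
      2 ^ ((2 * b + η) * (S.F k).n)) ≤ η)
    (q : ∀ k, FL (x k).l.T) (W : ∀ k, Setoid (x k).l.T.Ω)
    (hW : Nul S (fun k => h (fc (W k)) (q k ⊔ (x k).l.v)))
    (ε : ℕ → ℝ) (hε : Tendsto ε UF (𝓝 0))
    (hTC : ∀ᶠ k in UF, ∀ ω ω', (x k).l.T.μ ω ≠ 0 → (x k).l.T.μ ω' ≠ 0 → W k ω ω' → (x k).l.V ω ω' → (x k).l.T.Z ω ω' →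
      ∀ cf, UnitC ((x k).g ω) cf → fex (gau s D) x e k ω cf - ε k ≤ fex (gau s D) x e k ω' cf)
    (hU : UB (fun k => I (fc (V' k)) ((r k).map (q k)) ((r k).map (x k).l.v) / (S.F k).n)) :
    e * ul (fun k => (T' k).pb (fun ω => ¬ ∀ v, qf (g k ω) v ≤
      2 ^ (2 * (e + b) * (S.F k).n) * qf ((x k).g ((r k).π ω)) v)) ≤
      D * ul (fun k => I (fc (V' k)) ((r k).map (q k)) ((r k).map (x k).l.v) / (S.F k).n) := by
  classical
  set lam : ℕ → ℝ := fun k => 2 ^ (2 * (e + b) * (S.F k).n) with hlam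
  have hlam0 : ∀ k, 0 < lam k := fun k => by positivity
  set cf : ∀ k, (T' k).Ω → (Mon (m + 1) D → ℝ) := fun k ω => cof ((x k).g ((r k).π ω)) (g k ω) (lam k) with hcf
  set y : ∀ k, CL ((Ov x).F k) (Mon (m + 1) D → ℝ) := fun k =>
    { l := ovl (x k).l (r k) (hn k) (V' k)
      c := cf k
      meas := fun ω ω' h h' hV hZ => by
        have a1 : (x k).l.V ((r k).π ω) ((r k).π ω') := hZ.1
        have a2 : (T' k).Z ω ω' := hZ.2
        have a3 := meas k ω ω' h h' hV a1 a2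
        have a4 := ((x k).meas _ _ ((r k).supp ω h) ((r k).supp ω' h') a1 (((r k).hZ ω ω' h h').mp a2)).1
        rw [hcf]
        simp only
        rw [a3, a4] } with hy
  have hcpd : ∀ᶠ k in UF, ∀ ω, (x k).l.T.μ ω ≠ 0 → Cpd ((gau s D).cp k) ((x k).g ω) := by
    filter_upwards [hx.1.1 1 one_pos] with k hk ω hω
    exact (hk.2.2.1 ω hω).1
  have : Nonempty (Mon (m + 1) D) := ⟨⟨fun _ => 0, by simp⟩⟩
  have hspec : ∀ᶠ k in UF, ∀ ω, (T' k).μ ω ≠ 0 → UnitC ((x k).g ((r k).π ω)) (cf k ω) ∧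
      ((¬ ∀ v, qf (g k ω) v ≤ lam k * qf ((x k).g ((r k).π ω)) v) →
        ∀ v, lam k * (cf k ω ⬝ᵥ v) ^ 2 ≤ qf (g k ω) v) := by
    filter_upwards [hcpd, hg] with k hk hk2 ω hω
    have hc := hk _ ((r k).supp ω hω)
    exact cof_spec hc.1 (fun v hv => hc.pd hv) (hk2 ω hω).1 (hk2 ω hω).2 (hlam0 k)
  have hgood : ∀ᶠ k in UF, (y k).Good (GdC x k) := by
    filter_upwards [hspec] with k hk ω hω
    exact (hk ω hω).1
  -- resampling
  set a : ∀ k, FL ((Ov x).F k) := fun k => (frb (x k).l.T (x k).l.V 1 one_pos).map (q k ⊔ fc (W k)) with ha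
  have hgood' : ∀ᶠ k in UF, ((y k).rs (a k)).Good (GdC x k) := by
    filter_upwards [hgood] with k hk
    exact (y k).rs_good (a k) (fun ω ω' c h1 h2 hZ h => GdC_inv x k ω ω' c h1 h2 hZ h) hk
  have hinfo : ∀ k, ((y k).rs (a k)).l.info / ((Ov x).F k).n ≤
      I (fc (V' k)) ((r k).map (q k)) ((r k).map (x k).l.v) / (S.F k).n +
      h (fc (W k)) (q k ⊔ (x k).l.v) / (S.F k).n := by
    intro k
    rw [Ov_n, ← add_div]
    apply div_le_div_of_nonneg_right _ (S.F k).pos.le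
    exact rs_info_q (x k).l (r k) (hn k) (V' k) (q k) (W k)
  have hUr : UB (fun k => I (fc (V' k)) ((r k).map (q k)) ((r k).map (x k).l.v) / (S.F k).n +
      h (fc (W k)) (q k ⊔ (x k).l.v) / (S.F k).n) := hU.add (UB_of_tendsto hW)
  have hU' : UB (fun k => ((y k).rs (a k)).l.info / ((Ov x).F k).n) := by
    refine UB.sandwich (UB_const 0) hUr ?_ ?_
    · exact Eventually.of_forall fun k => div_nonneg (FLab.info_nonneg _) ((Ov x).F k).pos.le
    · exact Eventually.of_forall hinfo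
  have hcost := cost_sys s hD h0 h1 e he.le he1 hx (fun k => (y k).rs (a k)) hgood' hU'
  have hcost2 : ul (fun k => ((y k).rs (a k)).l.info / ((Ov x).F k).n) ≤
      ul (fun k => I (fc (V' k)) ((r k).map (q k)) ((r k).map (x k).l.v) / (S.F k).n) := by
    have e1 : ul (fun k => I (fc (V' k)) ((r k).map (q k)) ((r k).map (x k).l.v) / (S.F k).n +
      h (fc (W k)) (q k ⊔ (x k).l.v) / (S.F k).n) =
      ul (fun k => I (fc (V' k)) ((r k).map (q k)) ((r k).map (x k).l.v) / (S.F k).n) := by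
      have e2 : ul (fun k => h (fc (W k)) (q k ⊔ (x k).l.v) / (S.F k).n) = 0 := ul_eq hW
      rw [ul_add hU (UB_of_tendsto hW), e2, add_zero]
    rw [← e1]
    exact ul_mono hU' hUr (Eventually.of_forall hinfo)
  have hDr : (0 : ℝ) ≤ D := Nat.cast_nonneg _
  refine le_trans ?_ (hcost.trans (mul_le_mul_of_nonneg_left hcost2 hDr))
  set bad : ∀ k, (T' k).Ω → Prop := fun k ω => ¬ ∀ v, qf (g k ω) v ≤ lam k * qf ((x k).g ((r k).π ω)) v with hbad
  have hUb : UB (fun k => (T' k).pb (bad k)) :=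
    UB_of_nonneg_le (C := 1) (Eventually.of_forall fun k => FSp.pb_nonneg _ _)
      (Eventually.of_forall fun k => FSp.pb_le_one _ _)
  have hUE : UB (fun k => ((y k).rs (a k)).E (fex (gau s D) x e k)) := by
    apply UB_of_nonneg_le (C := e)
    · exact Eventually.of_forall fun k => CL.E_nonneg _ _ (fun ω c => ex_nonneg (S.F k).pos he.le)
    · exact Eventually.of_forall fun k => CL.E_le _ _ _ (fun ω c => ex_le (S.F k).pos)
  have hmain : ∀ η : ℝ, 0 < η → η < 2 * e → (e - η / 2) * (ul (fun k => (T' k).pb (bad k)) - η) ≤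
      ul (fun k => ((y k).rs (a k)).E (fex (gau s D) x e k)) := by
    intro η hη hηe
    have hUb1 : UB (fun k => (e - η / 2) * ((T' k).pb (bad k) - η)) := (hUb.sub (UB_const η)).const_mul _
    have hUb2 : UB (fun k => (e - η / 2) * ((T' k).pb (bad k) - η) - ε k) := hUb1.sub (UB_of_tendsto hε)
    have e2 : (e - η / 2) * (ul (fun k => (T' k).pb (bad k)) - η) =
        ul (fun k => (e - η / 2) * ((T' k).pb (bad k) - η) - ε k) := by
      rw [ul_sub hUb1 (UB_of_tendsto hε), ul_eq hε, sub_zero, ul_const_mul _ (hUb.sub (UB_const η)),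
        ul_sub hUb (UB_const η), ul_const]
    rw [e2]
    apply ul_mono hUb2 hUE
    filter_upwards [hspec, hb η hη, hgood, hTC] with k hk hbk hgk hTk
    have hnk := (S.F k).pos
    set exc : (T' k).Ω → Prop := fun ω => ¬ sph s D k ((x k).l.p.π ((r k).π ω)) (g k ω) ≤
      2 ^ ((2 * b + η) * (S.F k).n) with hexc
    have h2 := CL.E_ge (y k) (fex (gau s D) x e k) (fun ω => ¬ (bad k ω ∧ ¬ exc ω)) (e - η / 2)
      (fun ω c => ex_nonneg hnk he.le) (by
        intro ω hω hB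
        rw [not_not] at hB
        obtain ⟨hB1, hB2⟩ := hB
        rw [hexc] at hB2
        simp only [not_not] at hB2
        have h3 := (hk ω hω).2 hB1
        show e - η / 2 ≤ ex (S.F k).n e (sph s D k ((x k).l.p.π ((r k).π ω)) (cc (cf k ω)))
        have h4 : sph s D k ((x k).l.p.π ((r k).π ω)) (cc (cf k ω)) ≤
            (lam k)⁻¹ * sph s D k ((x k).l.p.π ((r k).π ω)) (g k ω) := by
          apply sph_mono s D k
          intro v
          rw [qf_cc]
          have h5 := mul_le_mul_of_nonneg_left (h3 v) (inv_pos.mpr (hlam0 k)).le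
          rw [← mul_assoc, inv_mul_cancel₀ (hlam0 k).ne', one_mul] at h5
          exact h5
        have h6 : sph s D k ((x k).l.p.π ((r k).π ω)) (cc (cf k ω)) ≤ 2 ^ (-(2 * (e - η / 2) * (S.F k).n)) := by
          refine h4.trans ((mul_le_mul_of_nonneg_left hB2 (inv_pos.mpr (hlam0 k)).le).trans (le_of_eq ?_))
          rw [hlam]
          simp only
          rw [← Real.rpow_neg (by norm_num), ← Real.rpow_add (by norm_num)]
          congr 1
          ring
        refine le_trans ?_ (ex_ge hnk h6)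
        exact le_min le_rfl (by linarith))
    have h20 : (y k).E (fex (gau s D) x e k) - ε k ≤ ((y k).rs (a k)).E (fex (gau s D) x e k) := by
      have h21 := (y k).rs_ge (a k) (fex (gau s D) x e k)
        (fun ω => fex (gau s D) x e k ((y k).l.p.π ω) ((y k).c ω) - ε k) (by
          intro w hw
          obtain ⟨b1, b2, b3, b4⟩ := (y k).rs_supp (a k) w hw
          have b5 : ((Ov x).F k).μ ((y k).l.p.π w.1) ≠ 0 := (y k).l.p.supp _ b1
          have b6 : (fc (W k) : FL ((Ov x).F k)) ≤ fc (frep (a k)) := by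
            rw [fc_frep]
            exact (frb (x k).l.T (x k).l.V 1 one_pos).map_mono (le_sup_right : fc (W k) ≤ q k ⊔ fc (W k))
          have b7 : W k ((y k).l.p.π w.1) w.2 := fc_le_supp (F := (Ov x).F k) b6 _ _ b5 b2 b4 b3
          exact hTk _ _ b5 b2 b7 b4.1 b4.2 _ (hgk w.1 b1))
      refine le_trans (le_of_eq ?_) h21
      unfold CL.E
      simp only [mul_sub, Finset.sum_sub_distrib, ← Finset.sum_mul]
      rw [(y k).T_mass, one_mul]
    have h22 : (e - η / 2) * ((T' k).pb (bad k) - η) ≤ (y k).E (fex (gau s D) x e k) := by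
      refine le_trans ?_ h2
      apply mul_le_mul_of_nonneg_left _ (by linarith)
      have h7 := (T' k).pb_add_compl (fun ω => bad k ω ∧ ¬ exc ω)
      have h8 : (y k).l.T.pb (fun ω => ¬ (bad k ω ∧ ¬ exc ω)) = (T' k).pb (fun ω => ¬ (bad k ω ∧ ¬ exc ω)) := rfl
      rw [h8]
      have h9 : (T' k).pb (bad k) ≤ (T' k).pb (fun ω => (bad k ω ∧ ¬ exc ω) ∨ exc ω) := by
        apply FSp.pb_mono
        intro ω _ hω
        by_cases h : exc ω
        · exact Or.inr h
        · exact Or.inl ⟨hω, h⟩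
      have h10 := pb_or (T' k) (fun ω => bad k ω ∧ ¬ exc ω) exc
      linarith
    linarith
  have hlim : Tendsto (fun η : ℝ => (e - η / 2) * (ul (fun k => (T' k).pb (bad k)) - η)) (𝓝[>] 0)
      (𝓝 ((e - 0 / 2) * (ul (fun k => (T' k).pb (bad k)) - 0))) := by
    apply Tendsto.mono_left _ nhdsWithin_le_nhds
    apply Continuous.tendsto
    fun_prop
  rw [zero_div, sub_zero, sub_zero] at hlim
  apply le_of_tendsto hlim
  have h11 : ∀ᶠ η : ℝ in 𝓝[>] 0, η < 2 * e := by
    apply mem_nhdsWithin_of_mem_nhds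
    exact gt_mem_nhds (by linarith)
  filter_upwards [h11, self_mem_nhdsWithin] with η h12 h13
  exact hmain η h13 h12

end

end Pool.Agent.Helper48.LIP
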