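import Pool.Agent.Helper48.LIP.R2q
import Pool.Agent.Helper59.LF.Speed

/-! The form `Th` on coefficient vectors: size of the combination on the cell of the point, plus a floor. It varies by a
subexponential factor inside cells and along shorter windows. (T-continuity of the unit combinations, 39 (G1)) -/

set_option autoImplicit false

namespace Pool.Agent.Helper48.LIP

open Finset Filter Topology Matrix Pool.Agent.Helper69.RK Pool.Agent.Helper31.EC Pool.Agent.Helper40.EL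
open Pool.Agent.Helper89.LX Pool.Agent.Helper3.LF Pool.Agent.Helper48.NS
open Pool.Agent.Helper95.LF (PdM NearM)

noncomputable section

section Mat

variable {ι : Type} [Fintype ι] [DecidableEq ι] {A : Matrix ι ι ℝ}

theorem pd_unit (hp : ∀ v, v ≠ 0 → 0 < qf A v) : IsUnit A := by
  have hinj : Function.Injective A.mulVec := by
    intro u v huv
    by_contra hne
    have h1 := hp (u - v) (sub_ne_zero.mpr hne)
    unfold qf at h1
    have h2 : A *ᵥ (u - v) = 0 := by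
      rw [Matrix.mulVec_sub]
      exact sub_eq_zero.mpr huv
    rw [h2, dotProduct_zero] at h1
    exact lt_irrefl _ h1
  exact Matrix.mulVec_injective_iff_isUnit.mp hinj

theorem inv_mv (hp : ∀ v, v ≠ 0 → 0 < qf A v) (c : ι → ℝ) : A *ᵥ (A⁻¹ *ᵥ c) = c := by
  have hu := (Matrix.isUnit_iff_isUnit_det A).mp (pd_unit hp)
  rw [Matrix.mulVec_mulVec, Matrix.mul_nonsing_inv A hu, Matrix.one_mulVec]

theorem inv_symm (hA : A.IsSymm) : (A⁻¹).IsSymm := by
  unfold Matrix.IsSymm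
  rw [Matrix.transpose_nonsing_inv, hA]

/-- the dual form -/
theorem inv_qf (hp : ∀ v, v ≠ 0 → 0 < qf A v) (c : ι → ℝ) : qf A⁻¹ c = qf A (A⁻¹ *ᵥ c) := by
  unfold qf
  rw [inv_mv hp, dotProduct_comm]

theorem inv_pos' (hp : ∀ v, v ≠ 0 → 0 < qf A v) (c : ι → ℝ) (hc : c ≠ 0) : 0 < qf A⁻¹ c := by
  rw [inv_qf hp]
  apply hp
  intro h
  apply hc
  rw [← inv_mv hp c, h, Matrix.mulVec_zero]

theorem qf_zero (B : Matrix ι ι ℝ) : qf B 0 = 0 := by
  unfold qf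
  rw [Matrix.mulVec_zero, dotProduct_zero]

theorem nn_of_pd (hp : ∀ v, v ≠ 0 → 0 < qf A v) (v : ι → ℝ) : 0 ≤ qf A v := by
  by_cases h : v = 0
  · rw [h, qf_zero]
  · exact (hp v h).le

/-- Cauchy inequality for the dual form -/
theorem inv_cs (hA : A.IsSymm) (hp : ∀ v, v ≠ 0 → 0 < qf A v) (c v : ι → ℝ) : (c ⬝ᵥ v) ^ 2 ≤ qf A⁻¹ c * qf A v := by
  by_cases hc : c = 0
  · rw [hc, zero_dotProduct, qf_zero, zero_mul]
    norm_num
  have hq := inv_pos' hp c hc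
  set w := A⁻¹ *ᵥ c with hw
  set q := qf A⁻¹ c with hqd
  have hqw : qf A w = q := by rw [hqd, inv_qf hp]
  have hs : 0 < Real.sqrt q := Real.sqrt_pos.mpr hq
  set a := (Real.sqrt q)⁻¹ with ha
  have ha2 : a ^ 2 * q = 1 := by
    rw [ha, inv_pow, Real.sq_sqrt hq.le, inv_mul_cancel₀ hq.ne']
  have e1 : qf A (a • w) = 1 := by
    have : qf A (a • w) = a ^ 2 * qf A w := by
      unfold qf
      rw [Matrix.mulVec_smul, dotProduct_smul, smul_dotProduct, smul_eq_mul, smul_eq_mul]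
      ring
    rw [this, hqw, ha2]
  have h1 := cs_one hA (nn_of_pd hp) (a • w) e1 v
  rw [Matrix.mulVec_smul, hw, inv_mv hp, smul_dotProduct, smul_eq_mul, mul_pow] at h1
  have h2 := mul_le_mul_of_nonneg_left h1 hq.le
  have h3 : q * (a ^ 2 * (c ⬝ᵥ v) ^ 2) = (a ^ 2 * q) * (c ⬝ᵥ v) ^ 2 := by ring
  rw [h3, ha2, one_mul] at h2
  exact h2

theorem inv_unit (hp : ∀ v, v ≠ 0 → 0 < qf A v) {c : ι → ℝ} (h : UnitC A c) : qf A⁻¹ c ≤ 1 := by
  by_cases hc : c = 0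
  · rw [hc, qf_zero]; norm_num
  have h1 := h.1 (A⁻¹ *ᵥ c)
  have e1 : c ⬝ᵥ (A⁻¹ *ᵥ c) = qf A⁻¹ c := rfl
  rw [e1, ← inv_qf hp] at h1
  have h2 := inv_pos' hp c hc
  nlinarith

theorem inv_upper {cp : ℝ} (h : Cpd cp A) (c : ι → ℝ) : qf A⁻¹ c ≤ c ⬝ᵥ c := by
  have hp : ∀ v, v ≠ 0 → 0 < qf A v := fun v hv => h.pd hv
  set w := A⁻¹ *ᵥ c with hw
  have h1 : w ⬝ᵥ w ≤ qf A w := h.2.1 w
  have h2 : qf A⁻¹ c = c ⬝ᵥ w := rfl
  have h3 : qf A w = c ⬝ᵥ w := by rw [← h2, inv_qf hp]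
  have h4 : 0 ≤ (c - w) ⬝ᵥ (c - w) := dot_self_nonneg _
  rw [sub_dotProduct, dotProduct_sub, dotProduct_sub, dotProduct_comm w c] at h4
  rw [h2]
  linarith

theorem inv_lower {cp : ℝ} (h : Cpd cp A) (c : ι → ℝ) : c ⬝ᵥ c ≤ cp * qf A⁻¹ c := by
  have hp : ∀ v, v ≠ 0 → 0 < qf A v := fun v hv => h.pd hv
  by_cases hc : c = 0
  · rw [hc, qf_zero, zero_dotProduct, mul_zero]
  have h1 := inv_cs h.1 hp c c
  have h2 := h.2.2 c
  have h3 := inv_pos' hp c hc
  have h4 := dot_self_pos hc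
  have h5 : (c ⬝ᵥ c) ^ 2 ≤ qf A⁻¹ c * (cp * (c ⬝ᵥ c)) := h1.trans (mul_le_mul_of_nonneg_left h2 h3.le)
  by_contra hcon
  rw [not_le] at hcon
  nlinarith

end Mat

variable {m D : ℕ}

/-- the size of combinations on the cell, as a form on coefficient vectors -/
def vvm (r : ℝ) (p : Fin (m + 1) → ℝ) : Matrix (Mon (m + 1) D) (Mon (m + 1) D) ℝ :=
  ∑ j : Fin (m + 1) → Fin (D + 1), cc (vv (nodp D p r j))

theorem qf_sum {ι κ : Type} [Fintype ι] (s : Finset κ) (M : κ → Matrix ι ι ℝ) (x : ι → ℝ) :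
    qf (∑ j ∈ s, M j) x = ∑ j ∈ s, qf (M j) x := by
  unfold qf
  rw [Matrix.sum_mulVec, dotProduct_sum]

theorem qf_vvm (r : ℝ) (p : Fin (m + 1) → ℝ) (c : Mon (m + 1) D → ℝ) : qf (vvm r p) c = phi r (cc c) p := by
  rw [phi_cc]
  unfold vvm ph
  rw [qf_sum]
  refine Finset.sum_congr rfl fun j _ => ?_
  rw [qf_cc, eval_pol, dotProduct_comm]

theorem vvm_symm (r : ℝ) (p : Fin (m + 1) → ℝ) : (vvm (D := D) r p).IsSymm := by
  unfold vvm Matrix.IsSymm
  rw [Matrix.transpose_sum]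
  exact Finset.sum_congr rfl fun j _ => (cc_psd _).1

/-- the form with the floor `κ` -/
def Thf (r κ : ℝ) (A : Matrix (Mon (m + 1) D) (Mon (m + 1) D) ℝ) (p : Fin (m + 1) → ℝ) :
    Matrix (Mon (m + 1) D) (Mon (m + 1) D) ℝ := vvm r p + κ • A⁻¹

theorem qf_Thf (r κ : ℝ) (A : Matrix (Mon (m + 1) D) (Mon (m + 1) D) ℝ) (p : Fin (m + 1) → ℝ)
    (c : Mon (m + 1) D → ℝ) : qf (Thf r κ A p) c = ph D (pol c) r p + κ * qf A⁻¹ c := by
  unfold Thf
  rw [qf_add, qf_smul, qf_vvm, phi_cc]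

theorem Thf_symm {r κ : ℝ} {A : Matrix (Mon (m + 1) D) (Mon (m + 1) D) ℝ} (hA : A.IsSymm) (p : Fin (m + 1) → ℝ) :
    (Thf r κ A p).IsSymm := (vvm_symm r p).add ((inv_symm hA).smul κ)

/-- neighbouring points -/
theorem Thf_cell {A : Matrix (Mon (m + 1) D) (Mon (m + 1) D) ℝ} (hp : ∀ v, v ≠ 0 → 0 < qf A v) {κ : ℝ} (hκ : 0 ≤ κ)
    (r K : ℝ) (hr : 0 < r) (hK : 1 ≤ K) (p p' : Fin (m + 1) → ℝ) (h : ∀ i, |p' i - p i| + r ≤ K * r)
    (c : Mon (m + 1) D → ℝ) : qf (Thf r κ A p') c ≤ cN m D K * qf (Thf r κ A p) c := by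
  rw [qf_Thf, qf_Thf]
  have h1 := ph_near c r K hr hK p p' h
  have h2 := cN_one m D hK
  have hA' : 0 ≤ qf A⁻¹ c := by rw [inv_qf hp]; exact nn_of_pd hp _
  have h3 : 0 ≤ κ * qf A⁻¹ c := mul_nonneg hκ hA'
  nlinarith

/-- one polynomial along the line -/
theorem osc_one {d : ℕ} (f : Polynomial ℝ) (hf : f.natDegree ≤ d) (t t' L η M : ℝ) (hL : 0 < L) (hη : η ≤ L)
    (hM : ∀ s, |s - t| ≤ L → |f.eval s| ≤ M) (ht : |t' - t| ≤ η) : |f.eval t' - f.eval t| ≤ Cu d * M * (η / L) := by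
  have hη0 : 0 ≤ η := (abs_nonneg _).trans ht
  have hM0 : 0 ≤ M := (abs_nonneg _).trans (hM t (by rw [sub_self, abs_zero]; exact hL.le))
  have hC := Cu_one d
  have h1 := Pool.Agent.Helper59.LF.mvi f t t' (Cu d * M / L) (fun s hs => by
    have h2 := uni_affine d f hf 1 t L 1 s M hL le_rfl (by rw [one_mul]; exact hs.trans (ht.trans hη)) (fun j hj => by
      apply hM
      have e1 : t + L * nod d j - t = L * nod d j := by ring
      rw [e1, abs_of_nonneg (mul_nonneg hL.le (nod_nonneg d j))]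
      have := nod_le d j hj
      nlinarith)
    rw [one_pow, mul_one, pow_one, Function.iterate_one] at h2
    rw [le_div_iff₀ hL]
    linarith)
  refine h1.trans ?_
  have h3 : Cu d * M * (η / L) = Cu d * M / L * η := by ring
  rw [h3]
  exact mul_le_mul_of_nonneg_left ht (by positivity)

/-- along the line: a shorter window -/
theorem Thf_line {A : Matrix (Mon (m + 1) D) (Mon (m + 1) D) ℝ} (hA : A.IsSymm) (hp : ∀ v, v ≠ 0 → 0 < qf A v)
    {κ : ℝ} (r : ℝ) (a x : Fin m → ℝ) (t t' L η M : ℝ) (hL : 0 < L) (hη : η ≤ L) (hκ : (η / L) ^ 2 ≤ κ) (hM0 : 0 ≤ M)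
    (hM : ∀ s, |s - t| ≤ L → phi r A (pl a x s) ≤ M) (ht : |t' - t| ≤ η) (c : Mon (m + 1) D → ℝ) :
    qf (Thf r κ A (pl a x t')) c ≤ (2 + 2 * nn (m + 1) D * Cu D ^ 2 * M) * qf (Thf r κ A (pl a x t)) c := by
  have hη0 : 0 ≤ η := (abs_nonneg _).trans ht
  have hQ : 0 ≤ qf A⁻¹ c := by rw [inv_qf hp]; exact nn_of_pd hp _
  set Q := qf A⁻¹ c with hQd
  have hκ0 : 0 ≤ κ := (sq_nonneg _).trans hκ
  have hC := Cu_one D
  have hnn := nn_one (m + 1) D
  -- one node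
  have hnode : ∀ j : Fin (m + 1) → Fin (D + 1), (MvPolynomial.eval (nodp D (pl a x t') r j) (pol c)) ^ 2 ≤
      2 * (MvPolynomial.eval (nodp D (pl a x t) r j) (pol c)) ^ 2 + 2 * (Cu D ^ 2 * M * Q * κ) := by
    intro j
    set f : Polynomial ℝ := lin (fun i => (Fin.cons 0 a : Fin (m + 1) → ℝ) i + r * nod D (j i))
      (Fin.cons 1 x) (pol c) with hf
    have hfd : f.natDegree ≤ D := (natDegree_lin _ _ _).trans (pol_deg _)
    have hev : ∀ s, f.eval s = MvPolynomial.eval (nodp D (pl a x s) r j) (pol c) := by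
      intro s
      rw [hf, eval_lin, pl_line]
      congr 1
      apply congrArg
      funext k
      unfold nodp
      ring
    have hb : ∀ s, |s - t| ≤ L → |f.eval s| ≤ Real.sqrt (M * Q) := by
      intro s hs
      rw [hev, eval_pol]
      apply Real.abs_le_sqrt
      have h1 := inv_cs hA hp c (vv (nodp D (pl a x s) r j))
      have h2 : qf A (vv (nodp D (pl a x s) r j)) ≤ phi r A (pl a x s) :=
        Finset.single_le_sum (f := fun j : Fin (m + 1) → Fin (D + 1) =>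
          vv (nodp D (pl a x s) r j) ⬝ᵥ (A *ᵥ vv (nodp D (pl a x s) r j))) (fun i _ => nn_of_pd hp _) (Finset.mem_univ j)
      have h3 : qf A⁻¹ c * qf A (vv (nodp D (pl a x s) r j)) ≤ Q * M :=
        mul_le_mul_of_nonneg_left (h2.trans (hM s hs)) hQ
      linarith
    have h4 := osc_one f hfd t t' L η (Real.sqrt (M * Q)) hL hη hb ht
    rw [hev, hev] at h4
    set u := MvPolynomial.eval (nodp D (pl a x t') r j) (pol c) with hu
    set v := MvPolynomial.eval (nodp D (pl a x t) r j) (pol c) with hv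
    have h5 : (u - v) ^ 2 ≤ Cu D ^ 2 * M * Q * κ := by
      have h6 : (u - v) ^ 2 ≤ (Cu D * Real.sqrt (M * Q) * (η / L)) ^ 2 := by
        rw [← sq_abs]
        exact pow_le_pow_left₀ (abs_nonneg _) h4 2
      refine h6.trans ?_
      rw [mul_pow, mul_pow, Real.sq_sqrt (mul_nonneg hM0 hQ), mul_assoc (Cu D ^ 2) M Q]
      apply mul_le_mul_of_nonneg_left hκ
      positivity
    have h7 : u ^ 2 ≤ 2 * v ^ 2 + 2 * (u - v) ^ 2 := by nlinarith [sq_nonneg (u - 2 * v)]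
    linarith
  rw [qf_Thf, qf_Thf]
  have hsum : ph D (pol c) r (pl a x t') ≤ 2 * ph D (pol c) r (pl a x t) + nn (m + 1) D * (2 * (Cu D ^ 2 * M * Q * κ)) := by
    unfold ph
    refine (Finset.sum_le_sum fun j _ => hnode j).trans (le_of_eq ?_)
    rw [Finset.sum_add_distrib, ← Finset.mul_sum, Finset.sum_const, nsmul_eq_mul, card_nodes]
  have hph := ph_nonneg (D := D) (pol c) r (pl a x t)
  have hX : 0 ≤ 2 * nn (m + 1) D * Cu D ^ 2 * M := by positivity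
  have h8 : 0 ≤ κ * Q := mul_nonneg hκ0 hQ
  nlinarith [mul_nonneg hX hph]

end

end Pool.Agent.Helper48.LIP
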