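import Pool.Agent.Helper89.LX.Njs
import Pool.Agent.Helper48.LIP.Ev

/-! THE THIRD COPY (55c, sect. 0): three copies of the space of a label given the coarse label and the condition of the
larger window; the labels at the first two copies as a label of the third point, its leaks. -/

set_option autoImplicit false

namespace Pool.Agent.Helper48.LIP

open Finset Filter Topology Matrix Pool.Agent.Helper69.RK Pool.Agent.Helper31.EC Pool.Agent.Helper40.EL
open Pool.Agent.Helper89.LX Pool.Agent.Helper3.LF Pool.Agent.Helper48.NS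

noncomputable section

section weights

variable {Ω₀ Ω Ω' α : Type} [Fintype Ω₀] [Fintype Ω] [Fintype Ω']

/-- images of amalgams -/
theorem amw_push_map (π : Ω₀ → Ω) (μ₀ : Ω₀ → ℝ) (μ' : Ω' → ℝ) (f : Ω → α) (g : Ω' → α) :
    push (fun w : Ω₀ × Ω' => (π w.1, w.2)) (amw μ₀ μ' (fun ω => f (π ω)) g) = amw (push π μ₀) μ' f g := by
  funext w
  obtain ⟨a, b⟩ := w
  rw [push_ind, Fintype.sum_prod_type]
  have h1 : ∀ x : Ω₀, ∑ y, e1_ind ((fun w : Ω₀ × Ω' => (π w.1, w.2)) (x, y) = (a, b)) *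
      amw μ₀ μ' (fun ω => f (π ω)) g (x, y) =
        e1_ind (π x = a) * μ₀ x * (e1_ind (f a = g b) * (μ' b / ms (push π μ₀) f (f a))) := by
    intro x
    rw [Finset.sum_eq_single b]
    · have h2 : e1_ind ((fun w : Ω₀ × Ω' => (π w.1, w.2)) (x, b) = (a, b)) = e1_ind (π x = a) :=
        ind_congr ⟨fun h => (Prod.mk.inj h).1, fun h => by show (π x, b) = (a, b); rw [h]⟩
      rw [h2]
      by_cases hx : π x = a
      · rw [e1_ind_pos hx]
        unfold amw
        show 1 * (e1_ind (f (π x) = g b) * (μ₀ x * μ' b / ms μ₀ (fun ω => f (π ω)) (f (π x)))) = _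
        rw [hx, ms_push π μ₀ f (f a)]
        ring
      · rw [e1_ind_neg hx]; ring
    · intro y _ hy
      rw [e1_ind_neg (fun h => hy (Prod.mk.inj h).2), zero_mul]
    · intro h
      exact absurd (Finset.mem_univ _) h
  rw [Finset.sum_congr rfl (fun x _ => h1 x), ← Finset.sum_mul, ← push_ind]
  unfold amw
  ring

/-- the amalgam only depends on the common variable on the support -/
theorem amw_congr (μ : Ω → ℝ) (μ' : Ω' → ℝ) (f f' : Ω → α) (g : Ω' → α) (h : ∀ ω, μ ω ≠ 0 → f ω = f' ω) :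
    amw μ μ' f g = amw μ μ' f' g := by
  funext w
  obtain ⟨a, b⟩ := w
  by_cases ha : μ a = 0
  · unfold amw
    show _ * (μ a * _ / _) = _ * (μ a * _ / _)
    rw [ha]
    ring
  · have h1 := h a ha
    have h2 : ms μ f (f' a) = ms μ f' (f' a) := by
      unfold ms
      apply Finset.sum_congr rfl
      intro x _
      by_cases hx : μ x = 0
      · rw [hx, mul_zero, mul_zero]
      · rw [h x hx]
    unfold amw
    show e1_ind (f a = g b) * (μ a * μ' b / ms μ f (f a)) = e1_ind (f' a = g b) * (μ a * μ' b / ms μ f' (f' a))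
    rw [h1, h2]

end weights

section
variable {F : FSp} (l : FLab F) (K : Setoid l.T.Ω) (A : Setoid F.Ω)

/-- three copies of the space of the label, given `K` and the partition `A` of the base space -/
def fam3 : FAm (pam l K A).sp l.T where
  α := (pam l K A).α
  f := fun w => (pam l K A).f w.1
  g := (pam l K A).g
  law := fun a => by
    have h1 := ms_push (pam l K A).p1.π (pam l K A).sp.μ (pam l K A).f a
    rw [(pam l K A).p1.law] at h1
    exact h1.trans ((pam l K A).law a)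
  Zr := (pam l K A).Zr
  hZ1 := fun w w' h h' =>
    ((pam l K A).p1.hZ w w' h h').trans ((pam l K A).hZ1 _ _ ((pam l K A).p1.supp w h) ((pam l K A).p1.supp w' h'))
  hZ2 := (pam l K A).hZ2

/-- the first and the third copy -/
def q13 : FPj (fam3 l K A).sp (pam l K A).sp where
  π := fun w => (w.1.1, w.2)
  law := by
    have h1 := amw_push_map (pam l K A).p1.π (pam l K A).sp.μ l.T.μ (pam l K A).f (pam l K A).g
    rw [(pam l K A).p1.law] at h1
    exact h1
  hZ := fun _ _ _ _ => Iff.rfl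

/-- the second and the third copy -/
def q23 : FPj (fam3 l K A).sp (pam l K A).sp where
  π := fun w => (w.1.2, w.2)
  law := by
    have h1 := amw_push_map (pam l K A).p2.π (pam l K A).sp.μ l.T.μ (pam l K A).f (pam l K A).g
    rw [(pam l K A).p2.law] at h1
    have h2 := amw_congr (pam l K A).sp.μ l.T.μ (fun w => (pam l K A).f w.1)
      (fun w => (pam l K A).f ((pam l K A).p2.π w)) (pam l K A).g (fun w h => ((pam l K A).supp w h).1)
    have h3 : (fam3 l K A).sp.μ = amw (pam l K A).sp.μ l.T.μ (fun w => (pam l K A).f ((pam l K A).p2.π w))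
      (pam l K A).g := h2
    rw [h3]
    exact h1
  hZ := fun w w' h h' => by
    have a := (fam3 l K A).p1.supp w h
    have a' := (fam3 l K A).p1.supp w' h'
    exact (pam l K A).p2.hZ w.1 w'.1 a a'

/-- the labels at the first two copies, as a label of the third point -/
def lab3 : FLab F where
  T := (fam3 l K A).sp
  p := (fam3 l K A).p2.comp l.p
  hn := l.hn
  V := Setoid.comap (fun w : (fam3 l K A).sp.Ω => w.1.1) l.V ⊓ Setoid.comap (fun w : (fam3 l K A).sp.Ω => w.1.2) l.V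

/-- the label at the first copy -/
def k1 : FL (fam3 l K A).sp := (fam3 l K A).p1.map ((pam l K A).p1.map l.v)

/-- the label at the second copy -/
def k2 : FL (fam3 l K A).sp := (fam3 l K A).p1.map ((pam l K A).p2.map l.v)

theorem k1_eq : k1 l K A = (q13 l K A).map ((pam l K A).p1.map l.v) := rfl

theorem k2_eq : k2 l K A = (q23 l K A).map ((pam l K A).p1.map l.v) := rfl

theorem lab3_v : (lab3 l K A).v = k1 l K A ⊔ k2 l K A := rfl

theorem q13_p2 (y : FL l.T) : (q13 l K A).map ((pam l K A).p2.map y) = (fam3 l K A).p2.map y := by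
  induction y using fc_ind
  rfl

theorem q23_p2 (y : FL l.T) : (q23 l K A).map ((pam l K A).p2.map y) = (fam3 l K A).p2.map y := by
  induction y using fc_ind
  rfl

theorem q13_p1 (y : FL l.T) : (q13 l K A).map ((pam l K A).p1.map y) = (fam3 l K A).p1.map ((pam l K A).p1.map y) := by
  induction y using fc_ind
  rfl

theorem q23_p1 (y : FL l.T) : (q23 l K A).map ((pam l K A).p1.map y) = (fam3 l K A).p1.map ((pam l K A).p2.map y) := by
  induction y using fc_ind
  rfl

theorem lab3_leak (B : FL F) : (lab3 l K A).leak B = I (k1 l K A ⊔ k2 l K A) ((fam3 l K A).p2.map l.p.top)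
    ((fam3 l K A).p2.map (l.p.map B)) := by
  have h1 : (lab3 l K A).leak B = I (k1 l K A ⊔ k2 l K A) ((fam3 l K A).p2.comp l.p).top
    (((fam3 l K A).p2.comp l.p).map B) := rfl
  rw [h1, FPj.comp_map, FPj.comp_top]

/-- the common variable -/
def yc : FL (fam3 l K A).sp := (fam3 l K A).p2.map (fc K ⊔ l.p.map (fc A))

theorem yc_eq : yc l K A = (fam3 l K A).p1.map (fc (Setoid.ker (fam3 l K A).f)) := by
  rw [(fam3 l K A).common]
  unfold yc
  congr 1
  apply le_antisymm
  · have h1 : (fc K ⊔ l.p.map (fc A) : FL l.T) = fc (cY l K A) := rfl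
    rw [h1]
    apply fc_le
    intro ω ω' _ _ _ h
    exact (Quotient.exact h : (cY l K A ⊓ l.T.Z) ω ω').1
  · exact pam_ker l K A

/-- the coarse label is common to all copies -/
theorem K_common : (fam3 l K A).p1.map ((pam l K A).p1.map (fc K)) = (fam3 l K A).p2.map (fc K) := by
  have h1 := pam_K l K A
  have h2 : (q13 l K A).map ((pam l K A).p1.map (fc K)) = (q13 l K A).map ((pam l K A).p2.map (fc K)) := by rw [h1]
  rw [q13_p1, q13_p2] at h2
  exact h2

theorem K_common2 : (fam3 l K A).p1.map ((pam l K A).p2.map (fc K)) = (fam3 l K A).p2.map (fc K) := by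
  rw [← pam_K, K_common]

theorem ind3 (x : FL (pam l K A).sp) (y : FL l.T) :
    I ((fam3 l K A).p1.map x) ((fam3 l K A).p2.map y) (yc l K A) = 0 := by
  rw [yc_eq]
  exact (fam3 l K A).indep x y

/-- the common variable of the first two copies -/
theorem yc_eq12 : yc l K A = (fam3 l K A).p1.map ((pam l K A).p1.map (fc (Setoid.ker (pam l K A).f))) := by
  rw [yc_eq]
  rfl

theorem ind12 (x y : FL l.T) : I ((fam3 l K A).p1.map ((pam l K A).p1.map x))
    ((fam3 l K A).p1.map ((pam l K A).p2.map y)) (yc l K A) = 0 := by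
  rw [yc_eq12, (fam3 l K A).p1.I_map]
  exact (pam l K A).indep x y

/-- the leak at the condition of the larger window -/
theorem lab3_leakA : (lab3 l K A).leak (fc A) ≤ I (fc K) l.p.top (l.p.map (fc A)) := by
  rw [lab3_leak]
  set κ := k1 l K A ⊔ k2 l K A with hκ
  have h0 : κ = (fam3 l K A).p1.map ((pam l K A).p1.map l.v ⊔ (pam l K A).p2.map l.v) := by
    rw [hκ, FPj.map_sup]
    rfl
  have h1 : I κ ((fam3 l K A).p2.map l.p.top) (yc l K A) = 0 := by
    rw [h0]
    exact ind3 l K A _ _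
  have h2 : I κ ((fam3 l K A).p2.map l.p.top) ((fam3 l K A).p2.map (l.p.map (fc A))) ≤
      I ((fam3 l K A).p2.map (fc K) ⊔ κ) ((fam3 l K A).p2.map l.p.top) ((fam3 l K A).p2.map (l.p.map (fc A))) :=
    I_mono_left (le_sup_right.trans le_sup_left)
  rw [I_chain ((fam3 l K A).p2.map (fc K)) κ, ← FPj.map_sup] at h2
  have h3 : I κ ((fam3 l K A).p2.map l.p.top) ((fam3 l K A).p2.map (fc K ⊔ l.p.map (fc A))) = 0 := h1
  rw [h3, add_zero, FPj.I_map] at h2
  exact h2

/-- the leak of the pair at the third point is at most twice the leak of one label at a far point -/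
theorem lab3_leakB (hK : l.V ≤ K) (B : FL F) : (lab3 l K A).leak B ≤
    2 * I ((pam l K A).p1.map l.v) ((pam l K A).p2.map l.p.top) ((pam l K A).p2.map (l.p.map B)) := by
  rw [lab3_leak, I_chain]
  set T := (fam3 l K A).p2.map l.p.top with hT
  set b := (fam3 l K A).p2.map (l.p.map B) with hb
  set κ1 := k1 l K A with hκ1
  set κ2 := k2 l K A with hκ2
  have hK1 : (fc K : FL l.T) ≤ l.v := fc_mono hK
  have kK1 : (fam3 l K A).p2.map (fc K) ≤ κ1 := by
    rw [← K_common]
    exact (fam3 l K A).p1.map_mono ((pam l K A).p1.map_mono hK1)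
  have kK2 : (fam3 l K A).p2.map (fc K) ≤ κ2 := by
    rw [← K_common2]
    exact (fam3 l K A).p1.map_mono ((pam l K A).p2.map_mono hK1)
  have hbT : b ≤ T := (fam3 l K A).p2.map_mono (l.p.map_le_top _)
  have hYT : yc l K A ≤ T ⊔ (fam3 l K A).p2.map (fc K) := by
    unfold yc
    rw [FPj.map_sup]
    refine sup_le le_sup_right (le_trans ?_ le_sup_left)
    exact (fam3 l K A).p2.map_mono (l.p.map_le_top _)
  -- one label at a far point
  have e1 : I κ1 T b = I ((pam l K A).p1.map l.v) ((pam l K A).p2.map l.p.top) ((pam l K A).p2.map (l.p.map B)) := by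
    have h1 := (q13 l K A).I_map ((pam l K A).p1.map l.v) ((pam l K A).p2.map l.p.top)
      ((pam l K A).p2.map (l.p.map B))
    rw [q13_p2, q13_p2, q13_p1] at h1
    exact h1
  have e2 : I κ2 T b = I ((pam l K A).p1.map l.v) ((pam l K A).p2.map l.p.top) ((pam l K A).p2.map (l.p.map B)) := by
    have h1 := (q23 l K A).I_map ((pam l K A).p1.map l.v) ((pam l K A).p2.map l.p.top)
      ((pam l K A).p2.map (l.p.map B))
    rw [q23_p2, q23_p2, q23_p1] at h1
    exact h1
  -- independence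
  have i1 : I κ2 κ1 (yc l K A) = 0 := by
    rw [I_comm]
    exact ind12 l K A l.v l.v
  have i2 : I κ2 T (κ1 ⊔ yc l K A) = 0 := by
    have h1 : I (κ1 ⊔ κ2) T (yc l K A) = 0 := by
      have h0 : κ1 ⊔ κ2 = (fam3 l K A).p1.map ((pam l K A).p1.map l.v ⊔ (pam l K A).p2.map l.v) := by
        rw [FPj.map_sup]
        rfl
      rw [h0]
      exact ind3 l K A _ _
    rw [I_chain] at h1
    have h2 := I_nonneg κ1 T (yc l K A)
    have h3 := I_nonneg κ2 T (κ1 ⊔ yc l K A)
    linarith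
  have i3 : I κ2 (κ1 ⊔ T) (yc l K A) = 0 := by
    rw [I_chain_right, i1, i2, add_zero]
  have i4 : I κ2 T (yc l K A) = 0 := by
    have h1 := I_mono_right (A := κ2) (B := T) (B' := κ1 ⊔ T) (C := yc l K A) (le_sup_right.trans le_sup_left)
    have h2 := I_nonneg κ2 T (yc l K A)
    linarith
  have g1 : h κ2 (T ⊔ (κ1 ⊔ b)) = h κ2 (yc l K A) := by
    have h1 : T ⊔ (κ1 ⊔ b) = (κ1 ⊔ T) ⊔ yc l K A := by
      apply le_antisymm
      · refine sup_le (le_sup_right.trans le_sup_left) (sup_le (le_sup_left.trans le_sup_left) ?_)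
        exact hbT.trans (le_sup_right.trans le_sup_left)
      · refine sup_le (sup_le (le_sup_left.trans le_sup_right) le_sup_left) (hYT.trans ?_)
        exact sup_le le_sup_left (kK1.trans (le_sup_left.trans le_sup_right))
    rw [h1]
    exact I_zero_iff_h.mp i3
  have g2 : h κ2 (T ⊔ ((fam3 l K A).p2.map (fc K) ⊔ b)) = h κ2 (yc l K A) := by
    have h1 : T ⊔ ((fam3 l K A).p2.map (fc K) ⊔ b) = T ⊔ (fam3 l K A).p2.map (fc K) ⊔ yc l K A := by
      apply le_antisymm
      · refine sup_le (le_sup_left.trans le_sup_left) (sup_le (le_sup_right.trans le_sup_left) ?_)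
        exact hbT.trans (le_sup_left.trans le_sup_left)
      · refine sup_le (sup_le le_sup_left (le_sup_left.trans le_sup_right)) (hYT.trans ?_)
        exact sup_le le_sup_left (le_sup_left.trans le_sup_right)
    rw [h1]
    have h2 : T ⊔ (fam3 l K A).p2.map (fc K) ⊔ yc l K A = T ⊔ yc l K A := by
      apply le_antisymm
      · refine sup_le (sup_le le_sup_left (le_trans ?_ le_sup_right)) le_sup_right
        exact (fam3 l K A).p2.map_mono le_sup_left
      · exact sup_le (le_sup_left.trans le_sup_left) le_sup_right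
    rw [h2]
    exact I_zero_iff_h.mp i4
  have g3 : I κ2 T (κ1 ⊔ b) ≤ I κ2 T ((fam3 l K A).p2.map (fc K) ⊔ b) := by
    rw [I_eq, I_eq, g1, g2]
    have h1 : h κ2 (κ1 ⊔ b) ≤ h κ2 ((fam3 l K A).p2.map (fc K) ⊔ b) := h_anti (sup_le_sup_right kK1 _)
    linarith
  have g4 : I κ2 T ((fam3 l K A).p2.map (fc K) ⊔ b) ≤ I κ2 T b := I_cond_le kK2
  linarith

end

section S

variable {S : Sp} {m : ℕ} (s : Sys S m) {ι : Type}

/-- the labels at two heights of the window, as a label of a third point -/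
def Lab3 (x : ∀ k, FD (S.F k) ι) (l' : Lab S) (c : ℝ) : Lab S := fun k =>
  lab3 ((x k).jn (l' k)).l (jK (x k) (l' k)) (cAs s c k)

/-- (a) no leak at the condition of the window -/
theorem Lab3_leakA (x : ∀ k, FD (S.F k) ι) {l' : Lab S} {c : ℝ} (hl' : IsKap s c l') :
    Nul S (fun k => (Lab3 s x l' c k).leak (cA s c k)) := by
  refine hl'.1.1.of_le (Eventually.of_forall fun k => FLab.leak_nonneg _ _) (Eventually.of_forall fun k => ?_)
  have h1 := lab3_leakA ((x k).jn (l' k)).l (jK (x k) (l' k)) (cAs s c k)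
  refine h1.trans (le_of_eq ?_)
  exact jlab_leak (x k) (l' k) (cA s c k)

/-- one label at a far point -/
def farL (x : ∀ k, FD (S.F k) ι) (l' : Lab S) (c : ℝ) (k : ℕ) (B : FL (S.F k)) : ℝ :=
  I ((pam ((x k).jn (l' k)).l (jK (x k) (l' k)) (cAs s c k)).p1.map ((x k).jn (l' k)).l.v)
    ((pam ((x k).jn (l' k)).l (jK (x k) (l' k)) (cAs s c k)).p2.map ((x k).jn (l' k)).l.p.top)
    ((pam ((x k).jn (l' k)).l (jK (x k) (l' k)) (cAs s c k)).p2.map (((x k).jn (l' k)).l.p.map B))

theorem farL_le_pr (x : ∀ k, FD (S.F k) ι) (l' : Lab S) (c : ℝ) (k : ℕ) (B : FL (S.F k)) :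
    farL s x l' c k B ≤ (((x k).jn (l' k)).pr (jK (x k) (l' k)) (cAs s c k)).l.leak B := by
  rw [FD.pr_leak]
  exact I_mono_left (le_sup_left.trans le_sup_left)

/-- (b) the leak at the point: at most twice the loss of entropy of the far point -/
theorem Lab3_leakB {c' : ℝ} {x : ∀ k, FD (S.F k) ι} (hx : Nul S (fun k => (x k).l.leak (cB s k))) {l' : Lab S}
    (hl' : IsKap s c' l') (h0 : 0 ≤ c') (h1 : c' ≤ 1) (η : ℝ) (hη : 0 < η) : ∀ᶠ k in UF,
    (Lab3 s x l' c' k).leak (cB s k) ≤ 2 * (farE s x l' c' k - nearE s x l' k) + η * (S.F k).n := by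
  filter_upwards [nj_leak s hx hl' h0 h1 (η / 2) (by linarith)] with k hk
  have h2 := lab3_leakB ((x k).jn (l' k)).l (jK (x k) (l' k)) (cAs s c' k) (jK_le (x k) (l' k)) (cB s k)
  have h3 := farL_le_pr s x l' c' k (cB s k)
  have h4 : (Lab3 s x l' c' k).leak (cB s k) ≤ 2 * farL s x l' c' k (cB s k) := h2
  linarith

/-- (b') the leak of one label at a far point -/
theorem farL_le {c' : ℝ} {x : ∀ k, FD (S.F k) ι} (hx : Nul S (fun k => (x k).l.leak (cB s k))) {l' : Lab S}
    (hl' : IsKap s c' l') (h0 : 0 ≤ c') (h1 : c' ≤ 1) (η : ℝ) (hη : 0 < η) : ∀ᶠ k in UF,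
    farL s x l' c' k (cB s k) ≤ (farE s x l' c' k - nearE s x l' k) + η * (S.F k).n := by
  filter_upwards [nj_leak s hx hl' h0 h1 η hη] with k hk
  exact (farL_le_pr s x l' c' k (cB s k)).trans hk

section forms

variable {D : ℕ}

/-- the form of the first point at the third point -/
theorem far3_phi {c₀ c' : ℝ} (h0 : 0 ≤ c₀) (h1 : c₀ < 1) {X : ∀ k, FD (S.F k) (Mon (m + 1) D)}
    (hX : (gau s D).Ad (cA s c₀) (cB s) X) (K : ∀ k, Setoid (X k).l.T.Ω) (hc : c' ≤ c₀) (η : ℝ) (hη : 0 < η) :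
    ∀ᶠ k in UF, (fam3 (X k).l (K k) (cAs s c' k)).sp.pb
      (fun w => ¬ sph s D k ((X k).l.p.π w.2) ((X k).g w.1.1) ≤
        2 ^ (((2 * D : ℕ) * (c₀ - c') + η) * (S.F k).n)) ≤ η := by
  filter_upwards [far_phi' s h0 h1 hX K hc η hη] with k hk
  rw [← pb_push (q13 (X k).l (K k) (cAs s c' k))] at hk
  exact hk

/-- the form of the second point at the third point -/
theorem far3_phi' {c₀ c' : ℝ} (h0 : 0 ≤ c₀) (h1 : c₀ < 1) {X : ∀ k, FD (S.F k) (Mon (m + 1) D)}
    (hX : (gau s D).Ad (cA s c₀) (cB s) X) (K : ∀ k, Setoid (X k).l.T.Ω) (hc : c' ≤ c₀) (η : ℝ) (hη : 0 < η) :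
    ∀ᶠ k in UF, (fam3 (X k).l (K k) (cAs s c' k)).sp.pb
      (fun w => ¬ sph s D k ((X k).l.p.π w.2) ((X k).g w.1.2) ≤
        2 ^ (((2 * D : ℕ) * (c₀ - c') + η) * (S.F k).n)) ≤ η := by
  filter_upwards [far_phi' s h0 h1 hX K hc η hη] with k hk
  rw [← pb_push (q23 (X k).l (K k) (cAs s c' k))] at hk
  exact hk

end forms

end S

/-- LIP, FIRST STEP, ON EVENTS of extensions of the space of triples -/
theorem lip_u3 (m D : ℕ) : ∃ Cc : ℝ, 0 ≤ Cc ∧ ∀ {S : Sp} (s : Sys S m), 1 ≤ D → Pool.Agent.Helper42.NS.RobH s →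
    ∀ {c₀ c' : ℝ}, 0 ≤ c' → c' < c₀ → c₀ < 1 → ∀ {x : ∀ k, FD (S.F k) (Mon (m + 1) D)}, IsCan s D c₀ x →
    ∀ {l' : Lab S}, IsKap s c' l' → ∀ {σ : ℝ}, Hf s D c₀ σ → ∀ (T : ℕ → FSp)
    (r : ∀ k, FPj (T k) (Lab3 s x l' c' k).T), (∀ k, (T k).n = (S.F k).n) →
    ∀ E : ∀ k, (T k).Ω → Prop, 0 < ul (fun k => (T k).pb (E k)) → ∀ p e : ℝ, 0 < e → e ≤ D * (1 - c₀) →
    (∀ᶠ k in UF, I ((T k).rmap (E k) ((r k).map (k1 ((x k).jn (l' k)).l (jK (x k) (l' k)) (cAs s c' k))))
      ((T k).rmap (E k) ((r k).map ((fam3 ((x k).jn (l' k)).l (jK (x k) (l' k)) (cAs s c' k)).p1.map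
        (pam ((x k).jn (l' k)).l (jK (x k) (l' k)) (cAs s c' k)).p2.top)))
      ((T k).rmap (E k) ((r k).map (k2 ((x k).jn (l' k)).l (jK (x k) (l' k)) (cAs s c' k)))) ≤ p * (S.F k).n) →
    (∀ᶠ k in UF, I ((T k).rmap (E k) ((r k).map (k2 ((x k).jn (l' k)).l (jK (x k) (l' k)) (cAs s c' k))))
      ((T k).rmap (E k) ((r k).map ((fam3 ((x k).jn (l' k)).l (jK (x k) (l' k)) (cAs s c' k)).p1.map
        (pam ((x k).jn (l' k)).l (jK (x k) (l' k)) (cAs s c' k)).p1.top)))
      ((T k).rmap (E k) ((r k).map (k1 ((x k).jn (l' k)).l (jK (x k) (l' k)) (cAs s c' k)))) ≤ p * (S.F k).n) →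
    4 * D * p < e → Hf s D c' (σ - Cc * (e + D * (c₀ - c'))) := by
  obtain ⟨Cc, hCc, hl⟩ := lip_ev m D
  refine ⟨Cc, hCc, ?_⟩
  intro S s hD hR c₀ c' h0 hc h1 x hx l' hl' σ hσ T r hn E hE p e he he1 hp1 hp2 hpe
  have e1 : ∀ (k : ℕ) (y : FL (pam ((x k).jn (l' k)).l (jK (x k) (l' k)) (cAs s c' k)).sp),
      ((r k).comp (fam3 ((x k).jn (l' k)).l (jK (x k) (l' k)) (cAs s c' k)).p1).map y =
      (r k).map ((fam3 ((x k).jn (l' k)).l (jK (x k) (l' k)) (cAs s c' k)).p1.map y) := fun k y =>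
    FPj.comp_map _ _ _
  refine hl s hD hR h0 hc h1 hx hl' hσ T
    (fun k => (r k).comp (fam3 ((x k).jn (l' k)).l (jK (x k) (l' k)) (cAs s c' k)).p1) hn E hE p e he he1 ?_ ?_ hpe
  · filter_upwards [hp1] with k hk
    unfold pinE
    rw [e1, e1, e1]
    exact hk
  · filter_upwards [hp2] with k hk
    unfold pinE'
    rw [e1, e1, e1]
    exact hk

end

end Pool.Agent.Helper48.LIP
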