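import Pool.Agent.Helper48.LIP.Zvel

/-! ROW ZVEL for the data `XO`: two points of the space of `X` with the same `V`, `Z` and cell of `(P, t)`; the same
with the label of the third point in place of `V`. -/

set_option autoImplicit false

namespace Pool.Agent.Helper48.LIP

open Finset Filter Topology Matrix Pool.Agent.Helper69.RK Pool.Agent.Helper31.EC Pool.Agent.Helper31.EC.Sp
open Pool.Agent.Helper40.EL
open Pool.Agent.Helper95.LF Pool.Agent.Helper3.LF Pool.Agent.Helper89.LX Pool.Agent.Helper3.SG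
open Pool.Agent.Helper39.LIP

noncomputable section

/-- the other coordinates -/
theorem sum_erase_succAbove {q : ℕ} (i : Fin (q + 1)) (f : Fin (q + 1) → ℝ) :
    ∑ j ∈ Finset.univ.erase i, f j = ∑ j : Fin q, f (i.succAbove j) := by
  have h1 := Fin.sum_univ_succAbove f i
  have h2 := Finset.add_sum_erase Finset.univ f (Finset.mem_univ i)
  linarith

/-- linear form of the estimate -/
theorem zvel_abs {q : ℕ} {i : Fin (q + 1)} {y y' : Fin (q + 1) → ℝ} {a b n : ℝ}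
    (h : (y i - y' i) ^ 2 ≤ 2 ^ (2 * a * n) * (2 ^ (-(2 * b * n)) + ∑ j ∈ Finset.univ.erase i, (y j - y' j) ^ 2)) :
    |y i - y' i| ≤ 2 ^ (a * n) * (2 ^ (-(b * n)) + ∑ j : Fin q, |y (i.succAbove j) - y' (i.succAbove j)|) := by
  rw [sum_erase_succAbove i (fun j => (y j - y' j) ^ 2)] at h
  set F : Fin q → ℝ := fun j => |y (i.succAbove j) - y' (i.succAbove j)| with hF
  have h1 : ∑ j : Fin q, (y (i.succAbove j) - y' (i.succAbove j)) ^ 2 = ∑ j, F j ^ 2 := by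
    refine Finset.sum_congr rfl fun j _ => ?_
    rw [hF]
    beta_reduce
    rw [sq_abs]
  have h2 : ∑ j, F j ^ 2 ≤ (∑ j, F j) ^ 2 := Finset.sum_sq_le_sq_sum_of_nonneg fun j _ => abs_nonneg _
  have h3 : 0 ≤ ∑ j, F j := Finset.sum_nonneg fun j _ => abs_nonneg _
  have e1 : (2 : ℝ) ^ (2 * a * n) = (2 ^ (a * n)) ^ 2 := by
    rw [← Real.rpow_natCast, ← Real.rpow_mul (by norm_num)]
    congr 1
    push_cast
    ring
  have e2 : (2 : ℝ) ^ (-(2 * b * n)) = (2 ^ (-(b * n))) ^ 2 := by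
    rw [← Real.rpow_natCast, ← Real.rpow_mul (by norm_num)]
    congr 1
    push_cast
    ring
  rw [h1, e1, e2] at h
  have hA : (0 : ℝ) < 2 ^ (a * n) := by positivity
  have hB : (0 : ℝ) < 2 ^ (-(b * n)) := by positivity
  set A : ℝ := 2 ^ (a * n) with hAd
  set B : ℝ := 2 ^ (-(b * n)) with hBd
  have h4 : (y i - y' i) ^ 2 ≤ (A * (B + ∑ j, F j)) ^ 2 := by
    refine h.trans ?_
    rw [mul_pow A]
    apply mul_le_mul_of_nonneg_left _ (by positivity)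
    nlinarith
  exact abs_le_of_sq_le_sq h4 (by positivity)

variable {S : Sp} {q r D : ℕ} {s : Sys S (q + 1)} {s' : Sys S r}
  {x : ∀ k, FD (S.F k) (Mon (q + 1 + 1) D)} {x' : ∀ k, FD (S.F k) (Mon (r + 1) 1)} {c₀ c : ℝ}

theorem XO_p (O : XO s s' x x' c) (k : ℕ) (ω : (O.X k).l.T.Ω) :
    (O.X k).l.p.π ω = (Lab3 s x (lb x') c k).p.π ((O.r k).π ω) := by
  rw [O.hp k]
  rfl

/-- ZVEL: the same label `V` -/
theorem XO_zvel (O : XO s s' x x' c) (h0 : 0 ≤ c) (hc : c ≤ c₀) (h1 : c₀ < 1) (hx : (gau s D).Opt (cA s c₀) (cB s) x)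
    (hl' : IsKap s c (lb x')) (i : Fin (q + 1)) (hz : Hz s i x) (e : ℝ) (he : 0 < e) :
    ∃ G : ∀ k, (O.X k).l.T.Ω → Prop, Tendsto (fun k => (O.X k).l.T.pb (fun ω => ¬ G k ω)) UF (𝓝 0) ∧
      ∀ᶠ k in UF, ∀ ω ω', (O.X k).l.T.μ ω ≠ 0 → (O.X k).l.T.μ ω' ≠ 0 → G k ω → G k ω' →
      (O.X k).l.V ω ω' → (O.X k).l.T.Z ω ω' →
      (s.fin k).kP 1 ((O.X k).l.p.π ω) ((O.X k).l.p.π ω') → (s.fin k).kt 1 ((O.X k).l.p.π ω) ((O.X k).l.p.π ω') →
      |s.x.v k ((O.X k).l.p.π ω) i - s.x.v k ((O.X k).l.p.π ω') i| ≤ 2 ^ ((D * (c₀ - c) + e) * (S.F k).n) *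
        (2 ^ (-((1 - c) * (S.F k).n)) + ∑ j : Fin q, |s.x.v k ((O.X k).l.p.π ω) (i.succAbove j) -
          s.x.v k ((O.X k).l.p.π ω') (i.succAbove j)|) := by
  obtain ⟨G, hG, hk⟩ := zvel_ext s (p := fun k => (Lab3 s x (lb x') c k).p) (A := g1 s x (lb x') c)
    (zvel_far s h0 hc h1 hx hl' i hz e he) O.r
  refine ⟨G, hG, ?_⟩
  filter_upwards [hk] with k hk ω ω' a1 a2 a3 a4 a5 a6 a7 a8
  rw [XO_p, XO_p] at a7 a8 ⊢
  apply zvel_abs
  refine hk ω ω' a1 a2 a3 a4 ?_ a7 a8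
  exact g1_meas s k _ _ ((O.r k).supp ω a1) ((O.r k).supp ω' a2) (O.hV k a5) (((O.r k).hZ ω ω' a1 a2).mp a6)

/-- ZVEL: the same label of the third point -/
theorem XO_zvel3 (O : XO s s' x x' c) (h0 : 0 ≤ c₀) (h1 : c₀ < 1) (hx : (gau s D).Ad (cA s c₀) (cB s) x)
    (i : Fin (q + 1)) (hz : Hz s i x) (e : ℝ) (he : 0 < e) :
    ∃ G : ∀ k, (O.X k).l.T.Ω → Prop, Tendsto (fun k => (O.X k).l.T.pb (fun ω => ¬ G k ω)) UF (𝓝 0) ∧
      ∀ᶠ k in UF, ∀ ω ω', (O.X k).l.T.μ ω ≠ 0 → (O.X k).l.T.μ ω' ≠ 0 → G k ω → G k ω' →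
      ((x k).jn ((lb x') k)).l.V ((O.r k).π ω).2 ((O.r k).π ω').2 → (O.X k).l.T.Z ω ω' →
      (s.fin k).kP 1 ((O.X k).l.p.π ω) ((O.X k).l.p.π ω') → (s.fin k).kt 1 ((O.X k).l.p.π ω) ((O.X k).l.p.π ω') →
      |s.x.v k ((O.X k).l.p.π ω) i - s.x.v k ((O.X k).l.p.π ω') i| ≤ 2 ^ (e * (S.F k).n) *
        (2 ^ (-((1 - c₀) * (S.F k).n)) + ∑ j : Fin q, |s.x.v k ((O.X k).l.p.π ω) (i.succAbove j) -
          s.x.v k ((O.X k).l.p.π ω') (i.succAbove j)|) := by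
  obtain ⟨G, hG, hk⟩ := zvel_ext s (p := fun k => (Lab3 s x (lb x') c k).p) (A := g3 s x (lb x') c)
    (zvel_third s h0 h1 hx i hz (lb x') c e he) O.r
  refine ⟨G, hG, ?_⟩
  filter_upwards [hk] with k hk ω ω' a1 a2 a3 a4 a5 a6 a7 a8
  rw [XO_p, XO_p] at a7 a8 ⊢
  apply zvel_abs
  have e0 : (0 : ℝ) + e = e := zero_add e
  rw [e0] at hk
  refine hk ω ω' a1 a2 a3 a4 ?_ a7 a8
  have b1 := (O.r k).supp ω a1
  have b2 := (O.r k).supp ω' a2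
  have c1 := (fam3 ((x k).jn ((lb x') k)).l (jK (x k) ((lb x') k)) (cAs s c k)).p2.supp _ b1
  have c2 := (fam3 ((x k).jn ((lb x') k)).l (jK (x k) ((lb x') k)) (cAs s c k)).p2.supp _ b2
  have z1 := ((O.r k).hZ ω ω' a1 a2).mp a6
  have z2 := ((fam3 ((x k).jn ((lb x') k)).l (jK (x k) ((lb x') k)) (cAs s c k)).p2.hZ _ _ b1 b2).mp z1
  exact (((x k).jn ((lb x') k)).meas _ _ c1 c2 a5 z2).1

end

end Pool.Agent.Helper48.LIP
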